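import Mathlib

/-!
# Basic definitions for the SparseStack project (MP_b8b239_pr)
-/

namespace Pool.Agent.NN

open Finset Matrix

/-- The sign of a Boolean: `true` gives `1`, `false` gives `-1`. -/
def sgn (β : Bool) : ℝ := if β then 1 else -1

/-- The unnormalised SparseStack matrix of an outcome `ω`: row `i`, block `j` has the single
nonzero entry `± 1` in position `(ω i j).1`, with sign `(ω i j).2`. -/
def stack {n ζ b : ℕ} (ω : Fin n → Fin ζ → Fin b × Bool) :
    Matrix (Fin n) (Fin ζ × Fin b) ℝ :=
  fun i c => if (ω i c.1).1 = c.2 then sgn (ω i c.1).2 else 0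

open scoped Classical in
/-- The signed counting matrix of `M` marked points in the cells `ι × κ`. -/
noncomputable def ptMat {ι κ : Type*} {M : ℕ} (y : Fin M → (ι × κ) × Bool) : Matrix ι κ ℝ :=
  fun x c => ∑ m, if (y m).1 = (x, c) then sgn (y m).2 else 0

/-- A square sign matrix. -/
def signMat {d : ℕ} (R : Fin d → Fin d → Bool) : Matrix (Fin d) (Fin d) ℝ :=
  fun i j => sgn (R i j)

open scoped Classical in
/-- All fibres of `x` have even cardinality. -/
def EvenFib {Q C : Type*} [Fintype Q] (x : Q → C) : Prop :=
  ∀ c, Even (univ.filter (fun q => x q = c)).card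

open scoped Classical in
/-- The number of values of `x`. -/
noncomputable def numVals {Q C : Type*} [Fintype Q] (x : Q → C) : ℕ := (univ.image x).card

open scoped Classical in
/-- The mixed moment `E ∏_q A (x q)` of the signed counting matrix with `M` points in `N` cells,
written as a sum over the maps `f` that say which point is used at which position. -/
noncomputable def Gfun {Q C : Type*} [Fintype Q] (M N : ℕ) (x : Q → C) : ℝ :=
  ∑ f : Q → Fin M, if EvenFib f ∧ (∀ q q', f q = f q' → x q = x q')
    then ((N : ℝ)⁻¹) ^ numVals f else 0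

/-- `2 p` positions. -/
abbrev Pos (p : ℕ) : Type := Fin p × Bool

/-- `j` is constant on the pairs `{(s, true), (s + 1, false)}`. -/
def Tau {p : ℕ} [NeZero p] {C : Type*} (j : Pos p → C) : Prop :=
  ∀ s : Fin p, j (s, true) = j (s + 1, false)

/-- `j` is constant on the pairs `{(s, false), (s, true)}`. -/
def Tau' {p : ℕ} {C : Type*} (j : Pos p → C) : Prop :=
  ∀ s : Fin p, j (s, false) = j (s, true)

open scoped Classical in
/-- The number of triples `(j, a, j')` of maps from the positions to `Fin d`, with `j` constant on
the `Tau` pairs, `j'` constant on the `Tau'` pairs, and all cells of `(j, a)` and of `(j', a)`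
visited an even number of times. -/
noncomputable def evenCount (p d : ℕ) [NeZero p] : ℕ :=
  (univ.filter (fun t : (Pos p → Fin d) × (Pos p → Fin d) × (Pos p → Fin d) =>
    Tau t.1 ∧ Tau' t.2.2 ∧ EvenFib (fun q => (t.1 q, t.2.1 q)) ∧
      EvenFib (fun q => (t.2.2 q, t.2.1 q)))).card

end Pool.Agent.NN
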