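import Mathlib
import Pool.Agent.Lib.MP_b8b239_pr.Basic

namespace Pool.Agent.NN

open Finset Matrix

open scoped Classical in
/-- The contribution of one marked point to one cell. -/
noncomputable def ap_phi {C : Type*} (z : C × Bool) (c : C) : ℝ := if z.1 = c then sgn z.2 else 0

theorem ap_sgn_pow_even {k : ℕ} (hk : Even k) (β : Bool) : sgn β ^ k = 1 := by
  cases β
  · simp [sgn, hk.neg_one_pow]
  · simp [sgn]

theorem ap_sgn_pow_odd {k : ℕ} (hk : ¬ Even k) : sgn true ^ k + sgn false ^ k = 0 := by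
  have : Odd k := Nat.not_even_iff_odd.mp hk
  simp [sgn, this.neg_one_pow]

open scoped Classical in
theorem ap_prod_phi {Q C : Type*} (F : Finset Q) (x : Q → C) (z : C × Bool) :
    ∏ q ∈ F, ap_phi z (x q) = if ∀ q ∈ F, z.1 = x q then sgn z.2 ^ F.card else 0 := by
  unfold ap_phi
  rw [Finset.prod_ite_zero]
  simp

open scoped Classical in
theorem ap_sum_phi {Q C : Type*} [Fintype C] (F : Finset Q) (x : Q → C) :
    ∑ z : C × Bool, ∏ q ∈ F, ap_phi z (x q) =
      if F.Nonempty then
        (if Even F.card ∧ ∀ q ∈ F, ∀ q' ∈ F, x q = x q' then 2 else 0)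
      else 2 * (Fintype.card C : ℝ) := by
  simp_rw [ap_prod_phi]
  by_cases hF : F.Nonempty
  · rw [if_pos hF]
    obtain ⟨q0, hq0⟩ := hF
    rw [Fintype.sum_prod_type]
    have h1 : ∀ c : C, (∑ β : Bool, if ∀ q ∈ F, c = x q then sgn β ^ F.card else 0) =
        if Even F.card ∧ ∀ q ∈ F, ∀ q' ∈ F, x q = x q' then (if c = x q0 then 2 else 0)
        else 0 := by
      intro c
      rw [Fintype.sum_bool]
      by_cases hc : ∀ q ∈ F, c = x q
      · have hconst : ∀ q ∈ F, ∀ q' ∈ F, x q = x q' := fun q hq q' hq' =>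
          (hc q hq).symm.trans (hc q' hq')
        by_cases he : Even F.card
        · rw [if_pos hc, if_pos hc, if_pos ⟨he, hconst⟩, if_pos (hc q0 hq0),
            ap_sgn_pow_even he, ap_sgn_pow_even he]
          norm_num
        · rw [if_pos hc, if_pos hc, if_neg (fun h => he h.1), ap_sgn_pow_odd he]
      · rw [if_neg hc, if_neg hc]
        by_cases hg : Even F.card ∧ ∀ q ∈ F, ∀ q' ∈ F, x q = x q'
        · rw [if_pos hg, if_neg]
          · norm_num
          · intro h
            exact hc (fun q hq => h.trans (hg.2 q0 hq0 q hq))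
        · rw [if_neg hg]
          norm_num
    rw [Finset.sum_congr rfl (fun c _ => h1 c)]
    by_cases hg : Even F.card ∧ ∀ q ∈ F, ∀ q' ∈ F, x q = x q'
    · simp only [if_pos hg]
      simp
    · simp only [if_neg hg]
      simp
  · rw [if_neg hF]
    rw [Finset.not_nonempty_iff_eq_empty] at hF
    subst hF
    simp
    ring

open scoped Classical in
/-- A fibre of `f`. -/
noncomputable def ap_fib {Q D : Type*} [Fintype Q] (f : Q → D) (m : D) : Finset Q :=
  univ.filter (fun q => f q = m)

theorem ap_mem_fib {Q D : Type*} [Fintype Q] {f : Q → D} {m : D} {q : Q} :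
    q ∈ ap_fib f m ↔ f q = m := by
  simp [ap_fib]

theorem ap_evenFib {Q D : Type*} [Fintype Q] {f : Q → D} :
    EvenFib f ↔ ∀ m, Even (ap_fib f m).card := by
  unfold EvenFib ap_fib
  exact Iff.rfl

theorem ap_prod_fib {Q D : Type*} [Fintype Q] [Fintype D] (f : Q → D) (g : Q → ℝ) :
    ∏ q, g q = ∏ m, ∏ q ∈ ap_fib f m, g q := by
  classical
  rw [← Finset.prod_fiberwise univ f]
  refine Finset.prod_congr rfl (fun m _ => ?_)
  refine Finset.prod_congr ?_ (fun _ _ => rfl)
  ext q
  simp [ap_fib]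

/-- TASK AvgProd. -/
theorem avg_prod_ptMat {ι κ : Type*} [Fintype ι] [Fintype κ]
    {Q : Type*} [Fintype Q] (M : ℕ) (hN : 0 < Fintype.card ι * Fintype.card κ)
    (i : Q → ι) (a : Q → κ) :
    (∑ y : Fin M → (ι × κ) × Bool, ∏ q, ptMat y (i q) (a q)) /
        (Fintype.card (Fin M → (ι × κ) × Bool) : ℝ) =
      Gfun M (Fintype.card ι * Fintype.card κ) (fun q => (i q, a q)) := by
  classical
  set x : Q → ι × κ := fun q => (i q, a q) with hx
  have hpt : ∀ (y : Fin M → (ι × κ) × Bool) (q : Q),
      ptMat y (i q) (a q) = ∑ m, ap_phi (y m) (x q) := by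
    intro y q
    unfold ptMat ap_phi
    refine Finset.sum_congr rfl (fun m _ => ?_)
    by_cases h : (y m).1 = (i q, a q)
    · rw [if_pos h, if_pos h]
    · rw [if_neg h, if_neg h]
  have h1 : (∑ y : Fin M → (ι × κ) × Bool, ∏ q, ptMat y (i q) (a q)) =
      ∑ f : Q → Fin M, ∏ m : Fin M, ∑ z : (ι × κ) × Bool,
        ∏ q ∈ (ap_fib f m), ap_phi z (x q) := by
    have h2 : ∀ y : Fin M → (ι × κ) × Bool, ∏ q, ptMat y (i q) (a q) =
        ∑ f : Q → Fin M, ∏ m : Fin M, ∏ q ∈ (ap_fib f m),
          ap_phi (y m) (x q) := by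
      intro y
      simp_rw [hpt]
      rw [Finset.prod_univ_sum, Fintype.piFinset_univ]
      refine Finset.sum_congr rfl (fun f _ => ?_)
      rw [ap_prod_fib f]
      refine Finset.prod_congr rfl (fun m _ => ?_)
      refine Finset.prod_congr rfl (fun q hq => ?_)
      rw [ap_mem_fib.mp hq]
    rw [Finset.sum_congr rfl (fun y _ => h2 y), Finset.sum_comm]
    refine Finset.sum_congr rfl (fun f _ => ?_)
    rw [Finset.prod_univ_sum, Fintype.piFinset_univ]
  have hcard : (Fintype.card (Fin M → (ι × κ) × Bool) : ℝ) =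
      ∏ _m : Fin M, (2 * (Fintype.card (ι × κ) : ℝ)) := by
    rw [Finset.prod_const, Finset.card_univ, Fintype.card_fin, Fintype.card_fun,
      Fintype.card_fin, Fintype.card_prod, Fintype.card_bool]
    push_cast
    ring
  rw [h1, Finset.sum_div, hcard, Gfun]
  have hNR : (0 : ℝ) < (Fintype.card ι * Fintype.card κ : ℕ) := by exact_mod_cast hN
  refine Finset.sum_congr rfl (fun f _ => ?_)
  rw [← Finset.prod_div_distrib]
  have hNC : (Fintype.card (ι × κ) : ℝ) = (Fintype.card ι * Fintype.card κ : ℕ) := by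
    rw [Fintype.card_prod]
  simp_rw [ap_sum_phi, hNC]
  by_cases hg : EvenFib f ∧ (∀ q q', f q = f q' → x q = x q')
  · rw [if_pos hg]
    have h3 : ∀ m : Fin M,
        (if (ap_fib f m).Nonempty then
          (if Even (ap_fib f m).card ∧
            ∀ q ∈ (ap_fib f m), ∀ q' ∈ (ap_fib f m),
              x q = x q' then (2 : ℝ) else 0)
        else 2 * ((Fintype.card ι * Fintype.card κ : ℕ) : ℝ)) /
          (2 * ((Fintype.card ι * Fintype.card κ : ℕ) : ℝ)) =
        if m ∈ univ.image f then (((Fintype.card ι * Fintype.card κ : ℕ) : ℝ))⁻¹ else 1 := by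
      intro m
      by_cases hm : (ap_fib f m).Nonempty
      · have hm' : m ∈ univ.image f := by
          obtain ⟨q, hq⟩ := hm
          exact Finset.mem_image.mpr ⟨q, Finset.mem_univ _, ap_mem_fib.mp hq⟩
        rw [if_pos hm, if_pos hm', if_pos]
        · field_simp
        · refine ⟨ap_evenFib.mp hg.1 m, fun q hq q' hq' => hg.2 q q' ?_⟩
          rw [ap_mem_fib.mp hq, ap_mem_fib.mp hq']
      · have hm' : m ∉ univ.image f := by
          intro h
          obtain ⟨q, _, hq⟩ := Finset.mem_image.mp h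
          exact hm ⟨q, ap_mem_fib.mpr hq⟩
        rw [if_neg hm, if_neg hm']
        field_simp
    have h5 : ∏ m : Fin M, (if m ∈ univ.image f
        then (((Fintype.card ι * Fintype.card κ : ℕ) : ℝ))⁻¹ else 1) =
        (((Fintype.card ι * Fintype.card κ : ℕ) : ℝ))⁻¹ ^ numVals f := by
      rw [Finset.prod_ite, Finset.prod_const_one, mul_one, Finset.prod_const, numVals]
      congr 1
      refine congrArg Finset.card ?_
      ext m
      simp
    rw [← h5]
    refine Finset.prod_congr rfl (fun m _ => ?_)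
    rw [← h3 m]
    congr
  · rw [if_neg hg]
    have h4 : ∃ m : Fin M, (ap_fib f m).Nonempty ∧
        ¬ (Even (ap_fib f m).card ∧
            ∀ q ∈ (ap_fib f m), ∀ q' ∈ (ap_fib f m),
              x q = x q') := by
      by_contra hcon
      push Not at hcon
      apply hg
      refine ⟨ap_evenFib.mpr fun m => ?_, fun q q' hqq => ?_⟩
      · by_cases hm : (ap_fib f m).Nonempty
        · exact (hcon m hm).1
        · rw [Finset.not_nonempty_iff_eq_empty] at hm
          rw [hm, Finset.card_empty]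
          exact Even.zero
      · have hm : (ap_fib f (f q')).Nonempty := ⟨q', ap_mem_fib.mpr rfl⟩
        exact (hcon (f q') hm).2 q (ap_mem_fib.mpr hqq) q' (ap_mem_fib.mpr rfl)
    obtain ⟨m, hm1, hm2⟩ := h4
    apply Finset.prod_eq_zero (Finset.mem_univ m)
    rw [if_pos hm1, if_neg hm2, zero_div]

end Pool.Agent.NN
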