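import Mathlib
import Pool.Agent.Lib.MP_b8b239_pr.Basic

namespace Pool.Agent.NN

open Finset Matrix
open scoped Classical Matrix.Norms.L2Operator

/-- Changing all the signs of a row outcome. -/
def dc_neg {ζ b : ℕ} (ρ : Fin ζ → Fin b × Bool) : Fin ζ → Fin b × Bool :=
  fun j => ((ρ j).1, !(ρ j).2)

theorem dc_neg_neg {ζ b : ℕ} (ρ : Fin ζ → Fin b × Bool) : dc_neg (dc_neg ρ) = ρ := by
  funext j
  simp [dc_neg]

/-- Changing all the signs in the rows `x` with `I x = β`. -/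
def dc_fl {n ζ b : ℕ} (I : Fin n → Bool) (β : Bool) (ω : Fin n → Fin ζ → Fin b × Bool) :
    Fin n → Fin ζ → Fin b × Bool :=
  fun x => if I x = β then dc_neg (ω x) else ω x

theorem dc_fl_fl {n ζ b : ℕ} (I : Fin n → Bool) (β : Bool)
    (ω : Fin n → Fin ζ → Fin b × Bool) : dc_fl I β (dc_fl I β ω) = ω := by
  funext x
  by_cases h : I x = β
  · simp [dc_fl, h, dc_neg_neg]
  · simp [dc_fl, h]

theorem dc_fl_involutive {n ζ b : ℕ} (I : Fin n → Bool) (β : Bool) :
    Function.Involutive (dc_fl (n := n) (ζ := ζ) (b := b) I β) := dc_fl_fl I β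

theorem dc_sgn_not (β : Bool) : sgn (!β) = - sgn β := by
  cases β <;> simp [sgn]

theorem dc_stack_fl {n ζ b : ℕ} (I : Fin n → Bool) (β : Bool)
    (ω : Fin n → Fin ζ → Fin b × Bool) (x : Fin n) (c : Fin ζ × Fin b) :
    stack (dc_fl I β ω) x c = if I x = β then - stack ω x c else stack ω x c := by
  by_cases h : I x = β
  · simp only [stack, dc_fl, h, if_true, dc_neg, dc_sgn_not]
    split_ifs <;> simp
  · simp only [stack, dc_fl, h, if_false]

/-- The part of the decoupled Gram matrix with rows in `I` and columns outside `I`. -/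
def dc_D {n ζ b : ℕ} (I : Fin n → Bool) (ω ω' : Fin n → Fin ζ → Fin b × Bool) :
    Matrix (Fin n) (Fin n) ℝ :=
  fun x x' => if I x = true ∧ I x' = false then (stack ω * (stack ω')ᵀ) x x' else 0

theorem dc_D_eq {n ζ b : ℕ} (I : Fin n → Bool) (ω ω' : Fin n → Fin ζ → Fin b × Bool) :
    dc_D I ω ω' = (1 / 4 : ℝ) • ((stack ω + stack (dc_fl I false ω)) *
      (stack ω' + stack (dc_fl I true ω'))ᵀ) := by
  ext x x'
  simp only [dc_D, Matrix.smul_apply, Matrix.mul_apply, Matrix.transpose_apply, Matrix.add_apply,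
    dc_stack_fl, smul_eq_mul]
  cases hx : I x <;> cases hx' : I x'
  · simp
  · simp
  · simp only [Bool.true_eq_false, if_false, and_self, if_true, Bool.false_eq_true]
    rw [Finset.mul_sum]
    refine Finset.sum_congr rfl fun c _ => ?_
    ring
  · simp

/-- Row `x` of the first outcome if `I x`, of the second one otherwise. -/
def dc_mix {n : ℕ} {S : Type*} (I : Fin n → Bool) (ω ω' : Fin n → S) : Fin n → S :=
  fun x => if I x = true then ω x else ω' x

theorem dc_D_mix {n ζ b : ℕ} (I : Fin n → Bool) (ω ω' : Fin n → Fin ζ → Fin b × Bool) :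
    dc_D I (dc_mix I ω ω') (dc_mix I ω ω') = dc_D I ω ω' := by
  ext x x'
  simp only [dc_D]
  split_ifs with h
  · simp only [Matrix.mul_apply, Matrix.transpose_apply, stack, dc_mix, h.1, h.2, if_true,
      Bool.false_eq_true, if_false]
  · rfl

theorem dc_sum_mix {n : ℕ} {S : Type*} [Fintype S] (I : Fin n → Bool) (F : (Fin n → S) → ℝ) :
    ∑ ω : Fin n → S, ∑ ω' : Fin n → S, F (dc_mix I ω ω') =
      (Fintype.card (Fin n → S) : ℝ) * ∑ ω : Fin n → S, F ω := by
  let T : (Fin n → S) × (Fin n → S) → (Fin n → S) × (Fin n → S) :=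
    fun p => (dc_mix I p.1 p.2, dc_mix I p.2 p.1)
  have hT : Function.Involutive T := by
    intro p
    ext x <;> by_cases h : I x = true <;> simp [T, dc_mix, h]
  have h1 : ∑ p : (Fin n → S) × (Fin n → S), F (dc_mix I p.1 p.2) =
      ∑ p : (Fin n → S) × (Fin n → S), F p.1 :=
    Fintype.sum_equiv hT.toPerm _ _ (fun p => rfl)
  rw [← Fintype.sum_prod_type' (f := fun ω ω' => F (dc_mix I ω ω')), h1,
    Fintype.sum_prod_type' (f := fun ω _ => F ω)]
  simp [Finset.mul_sum]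

/-- A quarter of the subsets contain `x` and not `x'`. -/
theorem dc_count {n : ℕ} {x x' : Fin n} (h : x ≠ x') :
    4 * ∑ I : Fin n → Bool, (if I x = true ∧ I x' = false then (1 : ℝ) else 0) =
      (2 : ℝ) ^ n := by
  have key : ∀ β β' : Bool, ∑ I : Fin n → Bool, (if I x = β ∧ I x' = β' then (1 : ℝ) else 0) =
      ∑ I : Fin n → Bool, (if I x = true ∧ I x' = false then (1 : ℝ) else 0) := by
    intro β β'
    let T : (Fin n → Bool) → (Fin n → Bool) := fun I y =>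
      if y = x then xor (I y) (!β) else if y = x' then xor (I y) β' else I y
    have hT : Function.Involutive T := by
      intro I
      funext y
      by_cases h1 : y = x
      · simp [T, h1]
      · by_cases h2 : y = x'
        · subst h2
          simp [T, h1]
        · simp [T, h1, h2]
    refine Fintype.sum_equiv hT.toPerm _ _ (fun I => ?_)
    have e1 : T I x = xor (I x) (!β) := by simp [T]
    have e2 : T I x' = xor (I x') β' := by simp [T, h.symm]
    show _ = if T I x = true ∧ T I x' = false then (1 : ℝ) else 0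
    rw [e1, e2]
    cases I x <;> cases I x' <;> cases β <;> cases β' <;> simp
  have htot : ∑ I : Fin n → Bool, ((if I x = true ∧ I x' = true then (1 : ℝ) else 0) +
      (if I x = true ∧ I x' = false then (1 : ℝ) else 0) +
      (if I x = false ∧ I x' = true then (1 : ℝ) else 0) +
      (if I x = false ∧ I x' = false then (1 : ℝ) else 0)) = (2 : ℝ) ^ n := by
    have : ∀ I : Fin n → Bool, ((if I x = true ∧ I x' = true then (1 : ℝ) else 0) +
      (if I x = true ∧ I x' = false then (1 : ℝ) else 0) +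
      (if I x = false ∧ I x' = true then (1 : ℝ) else 0) +
      (if I x = false ∧ I x' = false then (1 : ℝ) else 0)) = 1 := by
      intro I
      cases I x <;> cases I x' <;> simp
    simp [this]
  rw [Finset.sum_add_distrib, Finset.sum_add_distrib, Finset.sum_add_distrib, key true true,
    key false true, key false false] at htot
  linarith

theorem dc_diag {n ζ b : ℕ} (ω : Fin n → Fin ζ → Fin b × Bool) (x : Fin n) :
    (stack ω * (stack ω)ᵀ) x x = ζ := by
  simp only [Matrix.mul_apply, Matrix.transpose_apply, stack]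
  rw [Fintype.sum_prod_type]
  have : ∀ j : Fin ζ, ∑ c : Fin b, ((if (ω x j).1 = c then sgn (ω x j).2 else 0) *
      (if (ω x j).1 = c then sgn (ω x j).2 else 0)) = (1 : ℝ) := by
    intro j
    have h2 : ∀ c : Fin b, ((if (ω x j).1 = c then sgn (ω x j).2 else 0) *
      (if (ω x j).1 = c then sgn (ω x j).2 else 0)) = if (ω x j).1 = c then (1 : ℝ) else 0 := by
      intro c
      split_ifs
      · cases (ω x j).2 <;> simp [sgn]
      · simp
    simp [h2]
  rw [Finset.sum_congr rfl (fun j _ => this j)]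
  simp

theorem dc_offdiag {n ζ b : ℕ} (ω : Fin n → Fin ζ → Fin b × Bool) :
    stack ω * (stack ω)ᵀ - (ζ : ℝ) • (1 : Matrix (Fin n) (Fin n) ℝ) =
      (4 / 2 ^ n : ℝ) • ∑ I : Fin n → Bool, dc_D I ω ω := by
  ext x x'
  rw [Matrix.sub_apply, Matrix.smul_apply, Matrix.smul_apply, Matrix.sum_apply]
  simp only [dc_D, smul_eq_mul]
  by_cases h : x = x'
  · subst h
    rw [dc_diag]
    simp
  · rw [Matrix.one_apply_ne h]
    have h2 : ∑ I : Fin n → Bool, (if I x = true ∧ I x' = false then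
        (stack ω * (stack ω)ᵀ) x x' else 0) = (stack ω * (stack ω)ᵀ) x x' *
        ∑ I : Fin n → Bool, (if I x = true ∧ I x' = false then (1 : ℝ) else 0) := by
      rw [Finset.mul_sum]
      refine Finset.sum_congr rfl fun I _ => ?_
      split_ifs <;> simp
    rw [h2]
    have h3 := dc_count h
    have h4 : (2 : ℝ) ^ n ≠ 0 := by positivity
    have h5 : ∑ I : Fin n → Bool, (if I x = true ∧ I x' = false then (1 : ℝ) else 0) =
        2 ^ n / 4 := by linarith
    rw [h5]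
    field_simp
    ring

/-- Decoupling for a fixed subset. -/
theorem dc_fixed {n ζ b r : ℕ} (U : Matrix (Fin n) (Fin r) ℝ) (I : Fin n → Bool) :
    (Fintype.card (Fin n → Fin ζ → Fin b × Bool) : ℝ) *
      ∑ ω : Fin n → Fin ζ → Fin b × Bool, ‖Uᵀ * dc_D I ω ω * U‖ ≤
    ∑ ω : Fin n → Fin ζ → Fin b × Bool, ∑ ω' : Fin n → Fin ζ → Fin b × Bool,
        ‖Uᵀ * stack ω * (stack ω')ᵀ * U‖ := by
  rw [← dc_sum_mix I (fun ω => ‖Uᵀ * dc_D I ω ω * U‖)]
  simp only [dc_D_mix]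
  set F : (Fin n → Fin ζ → Fin b × Bool) → (Fin n → Fin ζ → Fin b × Bool) → ℝ :=
    fun ω ω' => ‖Uᵀ * stack ω * (stack ω')ᵀ * U‖ with hF
  have hle : ∀ ω ω' : Fin n → Fin ζ → Fin b × Bool, ‖Uᵀ * dc_D I ω ω' * U‖ ≤
      (1 / 4) * (F ω ω' + F ω (dc_fl I true ω') + F (dc_fl I false ω) ω' +
        F (dc_fl I false ω) (dc_fl I true ω')) := by
    intro ω ω'
    have e : Uᵀ * dc_D I ω ω' * U = (1 / 4 : ℝ) • (Uᵀ * stack ω * (stack ω')ᵀ * U +
        Uᵀ * stack ω * (stack (dc_fl I true ω'))ᵀ * U +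
        Uᵀ * stack (dc_fl I false ω) * (stack ω')ᵀ * U +
        Uᵀ * stack (dc_fl I false ω) * (stack (dc_fl I true ω'))ᵀ * U) := by
      rw [dc_D_eq]
      simp only [Matrix.mul_smul, Matrix.smul_mul, Matrix.transpose_add, Matrix.add_mul,
        Matrix.mul_add, Matrix.mul_assoc]
      congr 1
      abel
    rw [e, norm_smul]
    have h4 : ‖(1 / 4 : ℝ)‖ = 1 / 4 := by norm_num
    rw [h4]
    refine mul_le_mul_of_nonneg_left ?_ (by norm_num)
    refine (norm_add_le _ _).trans (add_le_add_left ?_ _)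
    refine (norm_add_le _ _).trans (add_le_add_left ?_ _)
    exact norm_add_le _ _
  have hs1 : ∀ ω, ∑ ω', F ω (dc_fl I true ω') = ∑ ω', F ω ω' := fun ω =>
    Fintype.sum_equiv (dc_fl_involutive I true).toPerm _ _ (fun _ => rfl)
  have hs2 : ∑ ω, ∑ ω', F (dc_fl I false ω) ω' = ∑ ω, ∑ ω', F ω ω' :=
    Fintype.sum_equiv (dc_fl_involutive I false).toPerm _ _ (fun _ => rfl)
  have hs3 : ∑ ω, ∑ ω', F (dc_fl I false ω) (dc_fl I true ω') = ∑ ω, ∑ ω', F ω ω' := by
    simp only [hs1]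
    exact hs2
  calc ∑ ω, ∑ ω', ‖Uᵀ * dc_D I ω ω' * U‖ ≤ ∑ ω, ∑ ω', (1 / 4) * (F ω ω' + F ω (dc_fl I true ω') +
        F (dc_fl I false ω) ω' + F (dc_fl I false ω) (dc_fl I true ω')) :=
        Finset.sum_le_sum fun ω _ => Finset.sum_le_sum fun ω' _ => hle ω ω'
    _ = ∑ ω, ∑ ω', F ω ω' := by
        simp only [← Finset.mul_sum, Finset.sum_add_distrib]
        rw [hs2, hs3]
        simp only [hs1]
        ring

/-- TASK Decouple. -/
theorem decoupling {n ζ b r : ℕ} (hζ : 0 < ζ) (hb : 0 < b) (U : Matrix (Fin n) (Fin r) ℝ)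
    (hU : Uᵀ * U = 1) :
    (∑ ω : Fin n → Fin ζ → Fin b × Bool,
        ‖(ζ : ℝ)⁻¹ • (Uᵀ * stack ω * (stack ω)ᵀ * U) - 1‖) /
        (Fintype.card (Fin n → Fin ζ → Fin b × Bool) : ℝ) ≤
      4 * (ζ : ℝ)⁻¹ * ((∑ ω : Fin n → Fin ζ → Fin b × Bool, ∑ ω' : Fin n → Fin ζ → Fin b × Bool,
        ‖Uᵀ * stack ω * (stack ω')ᵀ * U‖) /
        (Fintype.card (Fin n → Fin ζ → Fin b × Bool) : ℝ) ^ 2) := by
  have hζ' : (0 : ℝ) < ζ := by exact_mod_cast hζ
  have : Nonempty (Fin b) := ⟨⟨0, hb⟩⟩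
  have hcard : (0 : ℝ) < (Fintype.card (Fin n → Fin ζ → Fin b × Bool) : ℝ) := by
    exact_mod_cast Fintype.card_pos
  set Nc : ℝ := (Fintype.card (Fin n → Fin ζ → Fin b × Bool) : ℝ) with hNc
  set S : ℝ := ∑ ω : Fin n → Fin ζ → Fin b × Bool, ∑ ω' : Fin n → Fin ζ → Fin b × Bool,
        ‖Uᵀ * stack ω * (stack ω')ᵀ * U‖ with hS
  have h1 : ∀ ω : Fin n → Fin ζ → Fin b × Bool,
      ‖(ζ : ℝ)⁻¹ • (Uᵀ * stack ω * (stack ω)ᵀ * U) - 1‖ ≤
        (ζ : ℝ)⁻¹ * ((4 / 2 ^ n) * ∑ I : Fin n → Bool, ‖Uᵀ * dc_D I ω ω * U‖) := by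
    intro ω
    have e : (ζ : ℝ)⁻¹ • (Uᵀ * stack ω * (stack ω)ᵀ * U) - 1 =
        (ζ : ℝ)⁻¹ • ((4 / 2 ^ n : ℝ) • ∑ I : Fin n → Bool, Uᵀ * dc_D I ω ω * U) := by
      have e2 : ∑ I : Fin n → Bool, Uᵀ * dc_D I ω ω * U =
          Uᵀ * (∑ I : Fin n → Bool, dc_D I ω ω) * U := by
        rw [Matrix.mul_sum, Matrix.sum_mul]
      have e3 : (4 / 2 ^ n : ℝ) • (Uᵀ * (∑ I : Fin n → Bool, dc_D I ω ω) * U) =
          Uᵀ * ((4 / 2 ^ n : ℝ) • ∑ I : Fin n → Bool, dc_D I ω ω) * U := by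
        rw [Matrix.mul_smul, Matrix.smul_mul]
      rw [e2, e3, ← dc_offdiag, Matrix.mul_sub, Matrix.sub_mul, Matrix.mul_smul, Matrix.smul_mul,
        Matrix.mul_one, hU, smul_sub, smul_smul, inv_mul_cancel₀ hζ'.ne', one_smul]
      simp only [Matrix.mul_assoc]
    rw [e, norm_smul, norm_smul, Real.norm_of_nonneg (inv_nonneg.2 hζ'.le),
      Real.norm_of_nonneg (by positivity : (0 : ℝ) ≤ 4 / 2 ^ n)]
    gcongr
    exact norm_sum_le _ _
  have h2 : ∑ ω : Fin n → Fin ζ → Fin b × Bool,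
      ‖(ζ : ℝ)⁻¹ • (Uᵀ * stack ω * (stack ω)ᵀ * U) - 1‖ ≤ (ζ : ℝ)⁻¹ * (4 * (S / Nc)) := by
    calc _ ≤ ∑ ω : Fin n → Fin ζ → Fin b × Bool,
          (ζ : ℝ)⁻¹ * ((4 / 2 ^ n) * ∑ I : Fin n → Bool, ‖Uᵀ * dc_D I ω ω * U‖) :=
          Finset.sum_le_sum fun ω _ => h1 ω
      _ = (ζ : ℝ)⁻¹ * ((4 / 2 ^ n) * ∑ I : Fin n → Bool,
            ∑ ω : Fin n → Fin ζ → Fin b × Bool, ‖Uᵀ * dc_D I ω ω * U‖) := by
          rw [← Finset.mul_sum, ← Finset.mul_sum, Finset.sum_comm]
      _ ≤ (ζ : ℝ)⁻¹ * ((4 / 2 ^ n) * ∑ I : Fin n → Bool, S / Nc) := by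
          gcongr with I _
          rw [le_div_iff₀ hcard, mul_comm]
          exact dc_fixed U I
      _ = (ζ : ℝ)⁻¹ * (4 * (S / Nc)) := by
          simp only [Finset.sum_const, Finset.card_univ, Fintype.card_fun, Fintype.card_bool,
            Fintype.card_fin, nsmul_eq_mul, Nat.cast_pow, Nat.cast_ofNat]
          have : (2 : ℝ) ^ n ≠ 0 := by positivity
          field_simp
  calc _ ≤ (ζ : ℝ)⁻¹ * (4 * (S / Nc)) / Nc := by
        gcongr
    _ = 4 * (ζ : ℝ)⁻¹ * (S / Nc ^ 2) := by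
        field_simp

end Pool.Agent.NN
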