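import Mathlib
import Pool.Agent.Lib.MP_b8b239_pr.Basic

namespace Pool.Agent.NN

open Finset
open scoped Classical

noncomputable instance setoidFintype {Q : Type*} [Fintype Q] : Fintype (Setoid Q) :=
  Fintype.ofInjective (fun (θ : Setoid Q) (q q' : Q) => decide (θ.r q q')) (by
    intro θ θ' h
    ext q q'
    have := congrFun (congrFun h q) q'
    simpa using this)

/-- The maps with kernel `θ` are the injective maps out of the quotient. -/
noncomputable def ks_equiv {Q C : Type*} (θ : Setoid Q) :
    {x : Q → C // Setoid.ker x = θ} ≃ (Quotient θ ↪ C) where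
  toFun x := ⟨Quotient.lift x.1 (fun a b hab => by
      have h : (Setoid.ker x.1) a b := by rw [x.2]; exact hab
      exact h), by
      intro u v
      induction u using Quotient.inductionOn with
      | h a =>
        induction v using Quotient.inductionOn with
        | h b =>
          intro huv
          apply Quotient.sound
          have h : (Setoid.ker x.1) a b := huv
          rw [x.2] at h
          exact h⟩
  invFun g := ⟨fun q => g (Quotient.mk θ q), by
    ext a b
    constructor
    · intro h
      have h1 : g (Quotient.mk θ a) = g (Quotient.mk θ b) := h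
      exact Quotient.exact (g.injective h1)
    · intro h
      have h1 : Quotient.mk θ a = Quotient.mk θ b := Quotient.sound h
      change g (Quotient.mk θ a) = g (Quotient.mk θ b)
      rw [h1]⟩
  left_inv x := by
    apply Subtype.ext
    rfl
  right_inv g := by
    ext u
    induction u using Quotient.inductionOn with
    | h a => rfl

theorem ks_card {Q C : Type*} [Fintype Q] [Fintype C] (θ : Setoid Q) :
    (univ.filter (fun x : Q → C => Setoid.ker x = θ)).card =
      (Fintype.card C).descFactorial (Fintype.card (Quotient θ)) := by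
  rw [← Fintype.card_subtype, Fintype.card_congr (ks_equiv (C := C) θ),
    Fintype.card_embedding_eq]

theorem ks_sum {Q C : Type*} [Fintype Q] [Fintype C] (Φ : Setoid Q → ℝ) :
    ∑ x : Q → C, Φ (Setoid.ker x) =
      ∑ θ : Setoid Q, Φ θ *
        (((Fintype.card C).descFactorial (Fintype.card (Quotient θ)) : ℕ) : ℝ) := by
  rw [← Finset.sum_fiberwise (univ : Finset (Q → C)) (fun x => Setoid.ker x)
    (fun x => Φ (Setoid.ker x))]
  refine Finset.sum_congr rfl fun θ _ => ?_
  rw [← ks_card θ]
  rw [Finset.sum_congr rfl (g := fun _ => Φ θ)]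
  · rw [Finset.sum_const, nsmul_eq_mul, mul_comm]
  · intro x hx
    rw [(Finset.mem_filter.1 hx).2]

/-- TASK KerSum, part 1. -/
theorem sum_ker_le {Q C : Type*} [Fintype Q] [Fintype C] (Φ : Setoid Q → ℝ)
    (hΦ : ∀ θ, 0 ≤ Φ θ) :
    ∑ x : Q → C, Φ (Setoid.ker x) ≤
      ∑ θ : Setoid Q, Φ θ * (Fintype.card C : ℝ) ^ (Fintype.card (Quotient θ)) := by
  rw [ks_sum]
  refine Finset.sum_le_sum fun θ _ => mul_le_mul_of_nonneg_left ?_ (hΦ θ)
  exact_mod_cast Nat.descFactorial_le_pow _ _

/-- TASK KerSum, part 2. -/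
theorem le_sum_ker {Q : Type*} [Fintype Q] (d : ℕ) (hd : Fintype.card Q ≤ d)
    (Φ : Setoid Q → ℝ) (hΦ : ∀ θ, 0 ≤ Φ θ) :
    ∑ θ : Setoid Q, Φ θ * ((d : ℝ) - Fintype.card Q) ^ (Fintype.card (Quotient θ)) ≤
      ∑ x : Q → Fin d, Φ (Setoid.ker x) := by
  rw [ks_sum]
  refine Finset.sum_le_sum fun θ _ => mul_le_mul_of_nonneg_left ?_ (hΦ θ)
  rw [Fintype.card_fin]
  have hk : Fintype.card (Quotient θ) ≤ Fintype.card Q := Fintype.card_quotient_le θ
  have h1 : (d + 1 - Fintype.card (Quotient θ)) ^ (Fintype.card (Quotient θ)) ≤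
      d.descFactorial (Fintype.card (Quotient θ)) := Nat.pow_sub_le_descFactorial _ _
  have h2 : d - Fintype.card Q ≤ d + 1 - Fintype.card (Quotient θ) := by omega
  have h3 : (d - Fintype.card Q) ^ (Fintype.card (Quotient θ)) ≤
      d.descFactorial (Fintype.card (Quotient θ)) := (Nat.pow_le_pow_left h2 _).trans h1
  have h4 : (((d - Fintype.card Q : ℕ) : ℝ)) ^ (Fintype.card (Quotient θ)) ≤
      ((d.descFactorial (Fintype.card (Quotient θ)) : ℕ) : ℝ) := by exact_mod_cast h3
  rwa [Nat.cast_sub hd] at h4

/-- TASK KerSum, part 3. -/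
theorem numVals_eq {Q C : Type*} [Fintype Q] (x : Q → C) :
    numVals x = Fintype.card (Quotient (Setoid.ker x)) := by
  unfold numVals
  rw [← Set.toFinset_range, Set.toFinset_card]
  exact (Fintype.card_congr (Setoid.quotientKerEquivRange x)).symm

end Pool.Agent.NN
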