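import Mathlib
import Pool.Agent.Lib.MP_b8b239_pr.Basic
import Pool.Agent.Lib.MP_b8b239_pr.KerSum

namespace Pool.Agent.NN

open Finset Matrix
open scoped Classical

theorem dr_walk_nat {C D C' : Type*} (c : ℕ → C) (d : ℕ → D) (c' : ℕ → C')
    (h : ∀ m, c' m = c' (m + 1) ∨ c m = c (m + 1)) (m : ℕ) :
    ((range (m + 1)).image c).card + ((range (m + 1)).image d).card +
        ((range (m + 1)).image c').card ≤
      ((range (m + 1)).image (fun t => (c t, d t))).card +
        ((range (m + 1)).image (fun t => (c' t, d t))).card + 1 := by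
  induction m with
  | zero => simp
  | succ m ih =>
    rw [Finset.range_add_one (n := m + 1)]
    simp only [Finset.image_insert]
    have hcd : (c (m + 1)) ∉ (range (m + 1)).image c →
        (c (m + 1), d (m + 1)) ∉ (range (m + 1)).image (fun t => (c t, d t)) := by
      intro h1 h2
      apply h1
      obtain ⟨t, ht, hte⟩ := Finset.mem_image.1 h2
      exact Finset.mem_image.2 ⟨t, ht, (Prod.mk.inj hte).1⟩
    have hcd2 : (d (m + 1)) ∉ (range (m + 1)).image d →
        (c (m + 1), d (m + 1)) ∉ (range (m + 1)).image (fun t => (c t, d t)) := by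
      intro h1 h2
      apply h1
      obtain ⟨t, ht, hte⟩ := Finset.mem_image.1 h2
      exact Finset.mem_image.2 ⟨t, ht, (Prod.mk.inj hte).2⟩
    have hcd' : (c' (m + 1)) ∉ (range (m + 1)).image c' →
        (c' (m + 1), d (m + 1)) ∉ (range (m + 1)).image (fun t => (c' t, d t)) := by
      intro h1 h2
      apply h1
      obtain ⟨t, ht, hte⟩ := Finset.mem_image.1 h2
      exact Finset.mem_image.2 ⟨t, ht, (Prod.mk.inj hte).1⟩
    have hcd2' : (d (m + 1)) ∉ (range (m + 1)).image d →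
        (c' (m + 1), d (m + 1)) ∉ (range (m + 1)).image (fun t => (c' t, d t)) := by
      intro h1 h2
      apply h1
      obtain ⟨t, ht, hte⟩ := Finset.mem_image.1 h2
      exact Finset.mem_image.2 ⟨t, ht, (Prod.mk.inj hte).2⟩
    rw [Finset.card_insert_eq_ite, Finset.card_insert_eq_ite, Finset.card_insert_eq_ite,
      Finset.card_insert_eq_ite, Finset.card_insert_eq_ite]
    rcases h m with h1 | h1
    · have h3 : c' (m + 1) ∈ (range (m + 1)).image c' :=
        Finset.mem_image.2 ⟨m, by simp, h1⟩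
      rw [if_pos h3]
      by_cases h4 : c (m + 1) ∈ (range (m + 1)).image c
      · rw [if_pos h4]
        by_cases h5 : d (m + 1) ∈ (range (m + 1)).image d
        · rw [if_pos h5]
          split_ifs <;> omega
        · rw [if_neg h5, if_neg (hcd2 h5), if_neg (hcd2' h5)]
          omega
      · rw [if_neg h4, if_neg (hcd h4)]
        by_cases h5 : d (m + 1) ∈ (range (m + 1)).image d
        · rw [if_pos h5]
          split_ifs <;> omega
        · rw [if_neg h5, if_neg (hcd2' h5)]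
          omega
    · have h3 : c (m + 1) ∈ (range (m + 1)).image c :=
        Finset.mem_image.2 ⟨m, by simp, h1⟩
      rw [if_pos h3]
      by_cases h4 : c' (m + 1) ∈ (range (m + 1)).image c'
      · rw [if_pos h4]
        by_cases h5 : d (m + 1) ∈ (range (m + 1)).image d
        · rw [if_pos h5]
          split_ifs <;> omega
        · rw [if_neg h5, if_neg (hcd2 h5), if_neg (hcd2' h5)]
          omega
      · rw [if_neg h4, if_neg (hcd' h4)]
        by_cases h5 : d (m + 1) ∈ (range (m + 1)).image d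
        · rw [if_pos h5]
          split_ifs <;> omega
        · rw [if_neg h5, if_neg (hcd2 h5)]
          omega

/-- The order of the positions along the walk. -/
def dr_pos (p : ℕ) [NeZero p] (t : ℕ) : Pos p := (Fin.ofNat p (t / 2), decide (t % 2 = 1))

theorem dr_pos_even (p : ℕ) [NeZero p] (s : ℕ) : dr_pos p (2 * s) = (Fin.ofNat p s, false) := by
  unfold dr_pos
  rw [Nat.mul_div_cancel_left s (by norm_num)]
  simp

theorem dr_pos_odd (p : ℕ) [NeZero p] (s : ℕ) :
    dr_pos p (2 * s + 1) = (Fin.ofNat p s, true) := by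
  unfold dr_pos
  have h1 : (2 * s + 1) / 2 = s := by omega
  have h2 : (2 * s + 1) % 2 = 1 := by omega
  rw [h1, h2]
  simp

theorem dr_pos_surj (p : ℕ) [NeZero p] :
    (range (2 * p)).image (dr_pos p) = (univ : Finset (Pos p)) := by
  apply Finset.eq_univ_of_forall
  rintro ⟨s, b⟩
  cases b with
  | false =>
    refine Finset.mem_image.2 ⟨2 * s, ?_, ?_⟩
    · rw [Finset.mem_range]; have := s.2; omega
    · rw [dr_pos_even]
      simp
  | true =>
    refine Finset.mem_image.2 ⟨2 * s + 1, ?_, ?_⟩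
    · rw [Finset.mem_range]; have := s.2; omega
    · rw [dr_pos_odd]
      simp

theorem dr_numVals' (p : ℕ) [NeZero p] {C : Type*} (x : Pos p → C) :
    numVals x = ((range (2 * p)).image (fun t => x (dr_pos p t))).card := by
  unfold numVals
  rw [← dr_pos_surj p, Finset.image_image]
  rfl

theorem dr_image_card {A C : Type*} (i1 i2 : DecidableEq C) (f : A → C) (s : Finset A) :
    (@Finset.image _ _ i1 f s).card = (@Finset.image _ _ i2 f s).card := by
  rw [Subsingleton.elim i1 i2]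

theorem dr_numVals (p : ℕ) [NeZero p] {C : Type*} (i : DecidableEq C) (x : Pos p → C) :
    numVals x = (@Finset.image _ _ i (fun t => x (dr_pos p t)) (range (2 * p))).card := by
  rw [dr_numVals']
  exact dr_image_card _ _ _ _

/-- TASK DimRed, part 1 (the closed walk is connected). -/
theorem walk_bound {p : ℕ} [NeZero p] {C D C' : Type*} (j : Pos p → C) (a : Pos p → D)
    (j' : Pos p → C') (hj : Tau j) (hj' : Tau' j') :
    numVals j + numVals a + numVals j' ≤
      numVals (fun q => (j q, a q)) + numVals (fun q => (j' q, a q)) + 1 := by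
  have hp : 0 < p := Nat.pos_of_ne_zero (NeZero.ne p)
  have h2p : 2 * p = (2 * p - 1) + 1 := by omega
  have key := dr_walk_nat (fun t => j (dr_pos p t)) (fun t => a (dr_pos p t))
    (fun t => j' (dr_pos p t)) (by
      intro m
      rcases Nat.even_or_odd' m with ⟨s, hs | hs⟩
      · left
        subst hs
        show j' (dr_pos p (2 * s)) = j' (dr_pos p (2 * s + 1))
        rw [dr_pos_even, dr_pos_odd]
        exact hj' _
      · right
        subst hs
        show j (dr_pos p (2 * s + 1)) = j (dr_pos p (2 * s + 1 + 1))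
        have : 2 * s + 1 + 1 = 2 * (s + 1) := by ring
        rw [this, dr_pos_even, dr_pos_odd]
        have h3 : Fin.ofNat p (s + 1) = Fin.ofNat p s + 1 := by
          apply Fin.ext
          simp [Fin.ofNat, Fin.val_add]
        rw [h3]
        exact hj _) (2 * p - 1)
  rw [← h2p] at key
  rw [dr_numVals p _ j, dr_numVals p _ a, dr_numVals p _ j',
    dr_numVals p _ (fun q => (j q, a q)), dr_numVals p _ (fun q => (j' q, a q))]
  exact key

theorem dr_univ {A : Type*} (i1 i2 : Fintype A) : @Finset.univ A i1 = @Finset.univ A i2 := by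
  rw [Subsingleton.elim i1 i2]

theorem dr_evenFib_iff {Q C : Type*} [Fintype Q] (x : Q → C) :
    EvenFib x ↔ ∀ q0, Even (univ.filter (fun q => (Setoid.ker x) q q0)).card := by
  unfold EvenFib
  constructor
  · intro h q0
    have := h (x q0)
    convert this using 3
    exact Setoid.ker_def
  · intro h c
    by_cases hc : ∃ q0, x q0 = c
    · obtain ⟨q0, rfl⟩ := hc
      have := h q0
      convert this using 3
      exact Setoid.ker_def.symm
    · have : univ.filter (fun q => x q = c) = ∅ := by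
        apply Finset.filter_eq_empty_iff.2
        intro q _ hq
        exact hc ⟨q, hq⟩
      rw [this]
      simp

theorem dr_evenFib_congr {Q C D : Type*} [Fintype Q] {x : Q → C} {y : Q → D}
    (h : Setoid.ker x = Setoid.ker y) : EvenFib x ↔ EvenFib y := by
  rw [dr_evenFib_iff, dr_evenFib_iff, h]

theorem dr_numVals_congr {Q C D : Type*} [Fintype Q] {x : Q → C} {y : Q → D}
    (h : Setoid.ker x = Setoid.ker y) : numVals x = numVals y := by
  rw [numVals_eq, numVals_eq, h]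

theorem dr_tau_congr {p : ℕ} [NeZero p] {C D : Type*} {x : Pos p → C} {y : Pos p → D}
    (h : Setoid.ker x = Setoid.ker y) : Tau x ↔ Tau y := by
  unfold Tau
  refine forall_congr' fun s => ?_
  change (Setoid.ker x) _ _ ↔ (Setoid.ker y) _ _
  rw [h]

theorem dr_tau'_congr {p : ℕ} {C D : Type*} {x : Pos p → C} {y : Pos p → D}
    (h : Setoid.ker x = Setoid.ker y) : Tau' x ↔ Tau' y := by
  unfold Tau'
  refine forall_congr' fun s => ?_
  change (Setoid.ker x) _ _ ↔ (Setoid.ker y) _ _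
  rw [h]

theorem dr_ker_pair {Q C D : Type*} (x : Q → C) (y : Q → D) :
    Setoid.ker (fun q => (x q, y q)) = Setoid.ker x ⊓ Setoid.ker y := by
  ext a b
  rw [Setoid.inf_def]
  simp only [Setoid.ker_def, Prod.mk.injEq]
  rfl

theorem dr_ker_pair_congr {Q C D C' D' : Type*} {x : Q → C} {y : Q → D} {x' : Q → C'} {y' : Q → D'}
    (h : Setoid.ker x = Setoid.ker x') (h' : Setoid.ker y = Setoid.ker y') :
    Setoid.ker (fun q => (x q, y q)) = Setoid.ker (fun q => (x' q, y' q)) := by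
  rw [dr_ker_pair, dr_ker_pair, h, h']

theorem dr_ker_mk {Q : Type*} (θ : Setoid Q) : Setoid.ker (Quotient.mk θ) = θ := by
  ext a b
  rw [Setoid.ker_def]
  exact Quotient.eq

/-- The support condition. -/
def drP {p : ℕ} [NeZero p] {C D C' : Type*} (j : Pos p → C) (a : Pos p → D) (j' : Pos p → C') :
    Prop :=
  Tau j ∧ Tau' j' ∧ EvenFib (fun q => (j q, a q)) ∧ EvenFib (fun q => (j' q, a q))

theorem drP_congr {p : ℕ} [NeZero p] {C D C' E F E' : Type*} {j : Pos p → C} {a : Pos p → D}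
    {j' : Pos p → C'} {y : Pos p → E} {z : Pos p → F} {y' : Pos p → E'}
    (h1 : Setoid.ker j = Setoid.ker y) (h2 : Setoid.ker a = Setoid.ker z)
    (h3 : Setoid.ker j' = Setoid.ker y') : drP j a j' ↔ drP y z y' := by
  unfold drP
  rw [dr_tau_congr h1, dr_tau'_congr h3, dr_evenFib_congr (dr_ker_pair_congr h1 h2),
    dr_evenFib_congr (dr_ker_pair_congr h3 h2)]

/-- A map with even fibres has at most half as many values as positions. -/
theorem dr_two_numVals {Q C : Type*} [Fintype Q] (x : Q → C) (h : EvenFib x) :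
    2 * numVals x ≤ Fintype.card Q := by
  unfold numVals
  have h0 : Fintype.card Q = ∑ c ∈ univ.image x, (univ.filter (fun q => x q = c)).card := by
    rw [← Finset.card_univ]
    exact Finset.card_eq_sum_card_image x univ
  rw [h0, mul_comm, ← smul_eq_mul]
  apply Finset.card_nsmul_le_sum
  intro c hc
  obtain ⟨q, _, rfl⟩ := Finset.mem_image.1 hc
  have h1 := h (x q)
  have h2 : 0 < (univ.filter (fun q' => x q' = x q)).card :=
    Finset.card_pos.2 ⟨q, by simp⟩
  rcases h1 with ⟨t, ht⟩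
  have : (univ.filter (fun q' => x q' = x q)).card ≠ 0 := h2.ne'
  have h3 : 2 ≤ (univ.filter (fun q' => x q' = x q)).card := by omega
  convert h3

theorem dr_numVals_snd_le {Q C D : Type*} [Fintype Q] (x : Q → C) (y : Q → D) :
    numVals y ≤ numVals (fun q => (x q, y q)) := by
  unfold numVals
  have : (univ.image y) = ((univ.image (fun q => (x q, y q))).image Prod.snd) := by
    rw [Finset.image_image]; rfl
  rw [this]
  exact le_trans Finset.card_image_le (le_of_eq (dr_image_card _ _ _ _))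

/-- The real-number inequality behind the dimension reduction. -/
theorem dr_real (p v w i g V13 : ℕ) (ζ r k : ℝ) (hζ : 0 < ζ) (hk : 0 < k) (hr : 0 < r)
    (hp : 0 < p) (h2p : 2 * p = 2 * v + w + i) (hV : V13 + g = v + w + 1)
    (hrk : r ≤ k) (hpr : (2 * p : ℝ) ≤ r) (hh : (2 * p : ℝ) ^ 2 * k ≤ ζ ^ 2 * r) :
    (2 * ζ / k) ^ (2 * v + w) * r ^ V13 * k ^ v ≤
      4 ^ p * ζ ^ (2 * p) * r * (r / k) ^ p / (2 * p : ℝ) ^ (2 * p + 1) *
        (2 * p : ℝ) ^ (V13 + v) := by
  set T : ℝ := 2 * p with hT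
  have hT0 : 0 < T := by positivity
  -- the core inequality
  have core : r ^ (v + w) * T ^ i * k ^ (v + p) ≤ ζ ^ i * r ^ p * k ^ (2 * v + w) := by
    have hl : 0 ≤ r ^ (v + w) * T ^ i * k ^ (v + p) := by positivity
    have hr' : 0 ≤ ζ ^ i * r ^ p * k ^ (2 * v + w) := by positivity
    rw [← pow_le_pow_iff_left₀ hl hr' (two_ne_zero)]
    have e1 : (T ^ 2 * k) ^ i ≤ (ζ ^ 2 * r) ^ i := pow_le_pow_left₀ (by positivity) hh i
    have e2 : r ^ w ≤ k ^ w := pow_le_pow_left₀ hr.le hrk w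
    have l1 : (r ^ (v + w) * T ^ i * k ^ (v + p)) ^ 2 =
        (T ^ 2 * k) ^ i * r ^ w * (r ^ (2 * v + w) * k ^ (4 * v + w)) := by
      have : (r ^ (v + w) * T ^ i * k ^ (v + p)) ^ 2 =
          r ^ (2 * v + 2 * w) * (T ^ 2) ^ i * k ^ (2 * v + 2 * p) := by ring_nf
      rw [this, h2p]
      ring
    have l2 : (ζ ^ i * r ^ p * k ^ (2 * v + w)) ^ 2 =
        (ζ ^ 2 * r) ^ i * k ^ w * (r ^ (2 * v + w) * k ^ (4 * v + w)) := by
      have : (ζ ^ i * r ^ p * k ^ (2 * v + w)) ^ 2 =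
          (ζ ^ 2) ^ i * r ^ (2 * p) * k ^ (4 * v + 2 * w) := by ring
      rw [this, h2p]
      ring
    rw [l1, l2]
    apply mul_le_mul_of_nonneg_right _ (by positivity)
    exact mul_le_mul e1 e2 (by positivity) (by positivity)
  have h4 : (2 : ℝ) ^ (2 * v + w) ≤ 4 ^ p := by
    have : (4 : ℝ) ^ p = 2 ^ (2 * p) := by rw [pow_mul]; norm_num
    rw [this]
    exact pow_le_pow_right₀ (by norm_num) (by omega)
  have hg : T ^ g ≤ r ^ g := pow_le_pow_left₀ hT0.le hpr g
  have hexp : 2 * p + 1 = (V13 + v) + (i + g) := by omega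
  rw [div_mul_eq_mul_div, le_div_iff₀ (by positivity)]
  rw [hexp, pow_add T (V13 + v) (i + g), div_pow, div_pow, mul_pow]
  have hz : ζ ^ (2 * p) = ζ ^ (2 * v + w) * ζ ^ i := by rw [h2p, pow_add]
  rw [hz]
  have hVr : r ^ V13 * r ^ g = r ^ (v + w) * r := by
    rw [← pow_add, hV, pow_succ]
  have key : 2 ^ (2 * v + w) * (T ^ g * (r ^ V13 * (r ^ 0 * (T ^ i * k ^ (v + p))))) ≤
      4 ^ p * (r * (ζ ^ i * r ^ p * k ^ (2 * v + w))) := by
    calc 2 ^ (2 * v + w) * (T ^ g * (r ^ V13 * (r ^ 0 * (T ^ i * k ^ (v + p)))))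
        ≤ 4 ^ p * (r ^ g * (r ^ V13 * (r ^ 0 * (T ^ i * k ^ (v + p))))) := by
          gcongr
      _ = 4 ^ p * ((r ^ V13 * r ^ g) * (T ^ i * k ^ (v + p))) := by ring
      _ = 4 ^ p * (r * (r ^ (v + w) * T ^ i * k ^ (v + p))) := by rw [hVr]; ring
      _ ≤ 4 ^ p * (r * (ζ ^ i * r ^ p * k ^ (2 * v + w))) := by gcongr
  have hkne : k ≠ 0 := hk.ne'
  have lhs : 2 ^ (2 * v + w) * ζ ^ (2 * v + w) / k ^ (2 * v + w) * r ^ V13 * k ^ v *
      (T ^ (V13 + v) * T ^ (i + g)) =
      (2 ^ (2 * v + w) * (T ^ g * (r ^ V13 * (r ^ 0 * (T ^ i * k ^ (v + p)))))) *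
        (ζ ^ (2 * v + w) * T ^ (V13 + v) / (k ^ (2 * v + w) * k ^ p)) := by
    field_simp
    ring
  have rhs : 4 ^ p * (ζ ^ (2 * v + w) * ζ ^ i) * r * (r ^ p / k ^ p) * T ^ (V13 + v) =
      (4 ^ p * (r * (ζ ^ i * r ^ p * k ^ (2 * v + w)))) *
        (ζ ^ (2 * v + w) * T ^ (V13 + v) / (k ^ (2 * v + w) * k ^ p)) := by
    field_simp
  rw [lhs, rhs]
  exact mul_le_mul_of_nonneg_right key (by positivity)

/-- The summand as a function of the three kernels. -/
noncomputable def drPhi (p : ℕ) [NeZero p] (b : ℝ) (θ1 θ2 θ3 : Setoid (Pos p)) : ℝ :=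
  if drP (Quotient.mk θ1) (Quotient.mk θ2) (Quotient.mk θ3) then
    (2 / b) ^ (numVals (fun q => (Quotient.mk θ1 q, Quotient.mk θ2 q)) +
      numVals (fun q => (Quotient.mk θ3 q, Quotient.mk θ2 q))) else 0

theorem drPhi_nonneg (p : ℕ) [NeZero p] (b : ℝ) (hb : 0 < b) (θ1 θ2 θ3 : Setoid (Pos p)) :
    0 ≤ drPhi p b θ1 θ2 θ3 := by
  unfold drPhi
  split_ifs
  · positivity
  · exact le_rfl

theorem drPhi_ker (p : ℕ) [NeZero p] (b : ℝ) {C D C' : Type*} (j : Pos p → C) (a : Pos p → D)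
    (j' : Pos p → C') :
    (if Tau j ∧ Tau' j' ∧ EvenFib (fun q => (j q, a q)) ∧ EvenFib (fun q => (j' q, a q)) then
        (2 / b) ^ (numVals (fun q => (j q, a q)) + numVals (fun q => (j' q, a q))) else 0) =
      drPhi p b (Setoid.ker j) (Setoid.ker a) (Setoid.ker j') := by
  unfold drPhi
  have h1 := (dr_ker_mk (Setoid.ker j)).symm
  have h2 := (dr_ker_mk (Setoid.ker a)).symm
  have h3 := (dr_ker_mk (Setoid.ker j')).symm
  have hP := drP_congr (j := j) (a := a) (j' := j') h1 h2 h3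
  unfold drP at hP
  rw [dr_numVals_congr (dr_ker_pair_congr h1 h2), dr_numVals_congr (dr_ker_pair_congr h3 h2)]
  by_cases h : drP (Quotient.mk (Setoid.ker j)) (Quotient.mk (Setoid.ker a))
      (Quotient.mk (Setoid.ker j'))
  · rw [if_pos h, if_pos (hP.2 h)]
  · rw [if_neg h, if_neg (fun h' => h (hP.1 h'))]

/-- The term-by-term estimate. -/
theorem dr_term (p r : ℕ) [NeZero p] (ζ b : ℝ) (hζ : 0 < ζ) (hb : 0 < b)
    (hrk : (r : ℝ) ≤ ζ * b) (hpr : 2 * p ≤ r)
    (hp : (2 * p : ℝ) ^ 2 * (ζ * b) ≤ ζ ^ 2 * r) (θ1 θ2 θ3 : Setoid (Pos p)) :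
    drPhi p b θ1 θ2 θ3 * (r : ℝ) ^ (Fintype.card (Quotient θ3)) *
        (ζ * b) ^ (Fintype.card (Quotient θ2)) * (r : ℝ) ^ (Fintype.card (Quotient θ1)) ≤
      4 ^ p * ζ ^ (2 * p) * r * ((r : ℝ) / (ζ * b)) ^ p / (2 * p : ℝ) ^ (2 * p + 1) *
        ((if drP (Quotient.mk θ1) (Quotient.mk θ2) (Quotient.mk θ3) then 1 else 0) *
          (2 * p : ℝ) ^ (Fintype.card (Quotient θ3)) *
          (2 * p : ℝ) ^ (Fintype.card (Quotient θ2)) *
          (2 * p : ℝ) ^ (Fintype.card (Quotient θ1))) := by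
  have hp0 : 0 < p := Nat.pos_of_ne_zero (NeZero.ne p)
  unfold drPhi
  by_cases h : drP (Quotient.mk θ1) (Quotient.mk θ2) (Quotient.mk θ3)
  · rw [if_pos h, if_pos h]
    obtain ⟨hT, hT', hE1, hE2⟩ := h
    have hw := walk_bound (Quotient.mk θ1) (Quotient.mk θ2) (Quotient.mk θ3) hT hT'
    have c1 := dr_two_numVals _ hE1
    have c2 := dr_two_numVals _ hE2
    have s1 := dr_numVals_snd_le (Quotient.mk θ1) (Quotient.mk θ2)
    have s2 := dr_numVals_snd_le (Quotient.mk θ3) (Quotient.mk θ2)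
    have n1 : numVals (Quotient.mk θ1) = Fintype.card (Quotient θ1) := by
      rw [numVals_eq, dr_ker_mk]
    have n2 : numVals (Quotient.mk θ2) = Fintype.card (Quotient θ2) := by
      rw [numVals_eq, dr_ker_mk]
    have n3 : numVals (Quotient.mk θ3) = Fintype.card (Quotient θ3) := by
      rw [numVals_eq, dr_ker_mk]
    have cQ : Fintype.card (Pos p) = 2 * p := by
      simp [Pos, mul_comm]
    rw [cQ] at c1 c2
    rw [n1, n2, n3] at hw
    rw [n2] at s1 s2
    set E1 := numVals (fun q => (Quotient.mk θ1 q, Quotient.mk θ2 q)) with hE1d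
    set E2 := numVals (fun q => (Quotient.mk θ3 q, Quotient.mk θ2 q)) with hE2d
    set V1 := Fintype.card (Quotient θ1) with hV1
    set V2 := Fintype.card (Quotient θ2) with hV2
    set V3 := Fintype.card (Quotient θ3) with hV3
    have main := dr_real p V2 (E1 + E2 - 2 * V2) (2 * p - (E1 + E2))
      (E1 + E2 - V2 + 1 - (V1 + V3)) (V1 + V3) ζ r (ζ * b) hζ (by positivity)
      (by have : 0 < r := by omega
          exact_mod_cast this) hp0 (by omega) (by omega) hrk (by exact_mod_cast hpr) hp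
    have e1 : 2 * V2 + (E1 + E2 - 2 * V2) = E1 + E2 := by omega
    rw [e1] at main
    have e2 : (2 * ζ / (ζ * b)) = 2 / b := by
      field_simp
    rw [e2] at main
    calc (2 / b) ^ (E1 + E2) * (r : ℝ) ^ V3 * (ζ * b) ^ V2 * (r : ℝ) ^ V1
        = (2 / b) ^ (E1 + E2) * (r : ℝ) ^ (V1 + V3) * (ζ * b) ^ V2 := by ring
      _ ≤ 4 ^ p * ζ ^ (2 * p) * r * ((r : ℝ) / (ζ * b)) ^ p / (2 * p : ℝ) ^ (2 * p + 1) *
          (2 * p : ℝ) ^ (V1 + V3 + V2) := main
      _ = _ := by ring
  · rw [if_neg h, if_neg h]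
    simp

theorem dr_evenCount (p : ℕ) [NeZero p] (d : ℕ) :
    ((evenCount p d : ℕ) : ℝ) = ∑ j : Pos p → Fin d, ∑ a : Pos p → Fin d, ∑ j' : Pos p → Fin d,
      (if drP (Quotient.mk (Setoid.ker j)) (Quotient.mk (Setoid.ker a))
        (Quotient.mk (Setoid.ker j')) then (1 : ℝ) else 0) := by
  have h0 : ∀ (j a j' : Pos p → Fin d), drP (Quotient.mk (Setoid.ker j))
      (Quotient.mk (Setoid.ker a)) (Quotient.mk (Setoid.ker j')) ↔ drP j a j' := fun j a j' =>
    drP_congr (dr_ker_mk _) (dr_ker_mk _) (dr_ker_mk _)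
  simp only [h0]
  unfold evenCount
  rw [Finset.card_filter]
  push_cast
  rw [Fintype.sum_prod_type]
  refine Finset.sum_congr (dr_univ _ _) fun j _ => ?_
  rw [Fintype.sum_prod_type]
  refine Finset.sum_congr (dr_univ _ _) fun a _ => ?_
  refine Finset.sum_congr (dr_univ _ _) fun j' _ => ?_
  unfold drP
  by_cases h : Tau j ∧ Tau' j' ∧ EvenFib (fun q => (j q, a q)) ∧ EvenFib (fun q => (j' q, a q))
  · rw [if_pos h, if_pos h]
  · rw [if_neg h, if_neg h]

/-- TASK DimRed, part 2. -/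
theorem dim_red (p r : ℕ) [NeZero p] {κ : Type*} [Fintype κ] (ζ b : ℝ) (hζ : 0 < ζ) (hb : 0 < b)
    (hk : ζ * b = Fintype.card κ) (hrk : (r : ℝ) ≤ ζ * b) (hpr : 2 * p ≤ r)
    (hp : (2 * p : ℝ) ^ 2 * (ζ * b) ≤ ζ ^ 2 * r) :
    ∑ j : Pos p → Fin r, ∑ a : Pos p → κ, ∑ j' : Pos p → Fin r,
      (if Tau j ∧ Tau' j' ∧ EvenFib (fun q => (j q, a q)) ∧ EvenFib (fun q => (j' q, a q)) then
        (2 / b) ^ (numVals (fun q => (j q, a q)) + numVals (fun q => (j' q, a q))) else 0) ≤
    4 ^ p * ζ ^ (2 * p) * r * ((r : ℝ) / (ζ * b)) ^ p / (2 * p : ℝ) ^ (2 * p + 1) *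
      evenCount p (4 * p) := by
  have hp0 : 0 < p := Nat.pos_of_ne_zero (NeZero.ne p)
  have hk0 : 0 < ζ * b := mul_pos hζ hb
  set K : ℝ := 4 ^ p * ζ ^ (2 * p) * r * ((r : ℝ) / (ζ * b)) ^ p / (2 * p : ℝ) ^ (2 * p + 1)
    with hK
  have hK0 : 0 ≤ K := by positivity
  have hΦ := drPhi_nonneg p b hb
  -- the upper bound by kernels
  have step1 : ∑ j : Pos p → Fin r, ∑ a : Pos p → κ, ∑ j' : Pos p → Fin r,
      (if Tau j ∧ Tau' j' ∧ EvenFib (fun q => (j q, a q)) ∧ EvenFib (fun q => (j' q, a q)) then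
        (2 / b) ^ (numVals (fun q => (j q, a q)) + numVals (fun q => (j' q, a q))) else 0) ≤
      ∑ θ1 : Setoid (Pos p), ∑ θ2 : Setoid (Pos p), ∑ θ3 : Setoid (Pos p),
        drPhi p b θ1 θ2 θ3 * (r : ℝ) ^ (Fintype.card (Quotient θ3)) *
        (ζ * b) ^ (Fintype.card (Quotient θ2)) * (r : ℝ) ^ (Fintype.card (Quotient θ1)) := by
    have a1 : ∀ (j : Pos p → Fin r), ∑ a : Pos p → κ, ∑ j' : Pos p → Fin r,
        (if Tau j ∧ Tau' j' ∧ EvenFib (fun q => (j q, a q)) ∧ EvenFib (fun q => (j' q, a q)) then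
        (2 / b) ^ (numVals (fun q => (j q, a q)) + numVals (fun q => (j' q, a q))) else 0) ≤
        ∑ θ2 : Setoid (Pos p), (∑ θ3 : Setoid (Pos p),
          drPhi p b (Setoid.ker j) θ2 θ3 * (r : ℝ) ^ (Fintype.card (Quotient θ3))) *
          (ζ * b) ^ (Fintype.card (Quotient θ2)) := by
      intro j
      have b1 : ∀ a : Pos p → κ, ∑ j' : Pos p → Fin r,
        (if Tau j ∧ Tau' j' ∧ EvenFib (fun q => (j q, a q)) ∧ EvenFib (fun q => (j' q, a q)) then
        (2 / b) ^ (numVals (fun q => (j q, a q)) + numVals (fun q => (j' q, a q))) else 0) ≤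
        ∑ θ3 : Setoid (Pos p), drPhi p b (Setoid.ker j) (Setoid.ker a) θ3 *
          (r : ℝ) ^ (Fintype.card (Quotient θ3)) := by
        intro a
        have := sum_ker_le (Q := Pos p) (C := Fin r)
          (fun θ3 => drPhi p b (Setoid.ker j) (Setoid.ker a) θ3) (fun θ3 => hΦ _ _ _)
        rw [Fintype.card_fin] at this
        refine le_trans (le_of_eq ?_) this
        refine Finset.sum_congr (dr_univ _ _) fun j' _ => ?_
        exact drPhi_ker p b j a j'
      refine le_trans (Finset.sum_le_sum fun a _ => b1 a) ?_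
      have := sum_ker_le (Q := Pos p) (C := κ)
          (fun θ2 => ∑ θ3 : Setoid (Pos p), drPhi p b (Setoid.ker j) θ2 θ3 *
          (r : ℝ) ^ (Fintype.card (Quotient θ3))) (fun θ2 => Finset.sum_nonneg fun θ3 _ =>
            mul_nonneg (hΦ _ _ _) (by positivity))
      rw [← hk] at this
      refine le_trans (le_of_eq ?_) this
      exact Finset.sum_congr (dr_univ _ _) fun a _ => rfl
    refine le_trans (Finset.sum_le_sum fun j _ => a1 j) ?_
    have := sum_ker_le (Q := Pos p) (C := Fin r)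
      (fun θ1 => ∑ θ2 : Setoid (Pos p), (∑ θ3 : Setoid (Pos p),
          drPhi p b θ1 θ2 θ3 * (r : ℝ) ^ (Fintype.card (Quotient θ3))) *
          (ζ * b) ^ (Fintype.card (Quotient θ2))) (fun θ1 => Finset.sum_nonneg fun θ2 _ =>
            mul_nonneg (Finset.sum_nonneg fun θ3 _ =>
            mul_nonneg (hΦ _ _ _) (by positivity)) (by positivity))
    rw [Fintype.card_fin] at this
    refine le_trans (le_of_eq ?_) (this.trans (le_of_eq ?_))
    · exact Finset.sum_congr (dr_univ _ _) fun a _ => rfl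
    · simp only [Finset.sum_mul]
  -- the lower bound for the even count
  set Ψ : Setoid (Pos p) → Setoid (Pos p) → Setoid (Pos p) → ℝ := fun θ1 θ2 θ3 =>
    if drP (Quotient.mk θ1) (Quotient.mk θ2) (Quotient.mk θ3) then (1 : ℝ) else 0 with hΨd
  have hΨ : ∀ θ1 θ2 θ3, 0 ≤ Ψ θ1 θ2 θ3 := by
    intro θ1 θ2 θ3
    rw [hΨd]
    dsimp only
    split_ifs <;> norm_num
  have cQ : Fintype.card (Pos p) = 2 * p := by
    simp [Pos, mul_comm]
  have cQ4 : Fintype.card (Pos p) ≤ 4 * p := by omega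
  have csub : (((4 * p : ℕ) : ℝ) - ((Fintype.card (Pos p) : ℕ) : ℝ)) = 2 * p := by
    rw [cQ]
    push_cast
    ring
  have step3 : ∑ θ1 : Setoid (Pos p), ∑ θ2 : Setoid (Pos p), ∑ θ3 : Setoid (Pos p),
        Ψ θ1 θ2 θ3 * (2 * p : ℝ) ^ (Fintype.card (Quotient θ3)) *
        (2 * p : ℝ) ^ (Fintype.card (Quotient θ2)) * (2 * p : ℝ) ^ (Fintype.card (Quotient θ1))
      ≤ evenCount p (4 * p) := by
    rw [dr_evenCount]
    have key1 : ∀ θ1 θ2, ∑ θ3 : Setoid (Pos p),
        Ψ θ1 θ2 θ3 * (2 * p : ℝ) ^ (Fintype.card (Quotient θ3)) ≤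
        ∑ j' : Pos p → Fin (4 * p), Ψ θ1 θ2 (Setoid.ker j') := by
      intro θ1 θ2
      have := le_sum_ker (Q := Pos p) (4 * p) cQ4 (fun θ3 => Ψ θ1 θ2 θ3) (fun θ3 => hΨ _ _ _)
      rw [csub] at this
      refine this.trans (le_of_eq ?_)
      exact Finset.sum_congr (dr_univ _ _) fun a _ => rfl
    have key2 : ∀ θ1, ∑ θ2 : Setoid (Pos p), (∑ j' : Pos p → Fin (4 * p),
        Ψ θ1 θ2 (Setoid.ker j')) * (2 * p : ℝ) ^ (Fintype.card (Quotient θ2)) ≤
        ∑ a : Pos p → Fin (4 * p), ∑ j' : Pos p → Fin (4 * p),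
          Ψ θ1 (Setoid.ker a) (Setoid.ker j') := by
      intro θ1
      have := le_sum_ker (Q := Pos p) (4 * p) cQ4
        (fun θ2 => ∑ j' : Pos p → Fin (4 * p), Ψ θ1 θ2 (Setoid.ker j'))
        (fun θ2 => Finset.sum_nonneg fun _ _ => hΨ _ _ _)
      rw [csub] at this
      refine this.trans (le_of_eq ?_)
      exact Finset.sum_congr (dr_univ _ _) fun a _ => rfl
    have key3 : ∑ θ1 : Setoid (Pos p), (∑ a : Pos p → Fin (4 * p), ∑ j' : Pos p → Fin (4 * p),
          Ψ θ1 (Setoid.ker a) (Setoid.ker j')) * (2 * p : ℝ) ^ (Fintype.card (Quotient θ1)) ≤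
        ∑ j : Pos p → Fin (4 * p), ∑ a : Pos p → Fin (4 * p), ∑ j' : Pos p → Fin (4 * p),
          Ψ (Setoid.ker j) (Setoid.ker a) (Setoid.ker j') := by
      have := le_sum_ker (Q := Pos p) (4 * p) cQ4
        (fun θ1 => ∑ a : Pos p → Fin (4 * p), ∑ j' : Pos p → Fin (4 * p),
          Ψ θ1 (Setoid.ker a) (Setoid.ker j'))
        (fun θ2 => Finset.sum_nonneg fun _ _ => Finset.sum_nonneg fun _ _ => hΨ _ _ _)
      rw [csub] at this
      refine this.trans (le_of_eq ?_)
      exact Finset.sum_congr (dr_univ _ _) fun a _ => rfl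
    refine le_trans ?_ key3
    refine Finset.sum_le_sum fun θ1 _ => ?_
    simp only [← Finset.sum_mul]
    refine mul_le_mul_of_nonneg_right ?_ (by positivity)
    refine le_trans ?_ (key2 θ1)
    refine Finset.sum_le_sum fun θ2 _ => ?_
    exact mul_le_mul_of_nonneg_right (key1 θ1 θ2) (by positivity)
  refine step1.trans (le_trans ?_ (mul_le_mul_of_nonneg_left step3 hK0))
  simp only [Finset.mul_sum]
  refine Finset.sum_le_sum fun θ1 _ => Finset.sum_le_sum fun θ2 _ =>
    Finset.sum_le_sum fun θ3 _ => ?_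
  exact dr_term p r ζ b hζ hb hrk hpr hp θ1 θ2 θ3

end Pool.Agent.NN
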