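import Mathlib
import Pool.Agent.Lib.MP_b8b239_pr.Basic

namespace Pool.Agent.NN

open Finset Matrix
open scoped Classical

/-- `l ≤ 2 ^ (l - 1)` for `l ≥ 1`, in real form. -/
lemma gf_le_two_pow {l : ℕ} (hl : 1 ≤ l) : (l : ℝ) ≤ 2 ^ (l - 1) := by
  have h : l - 1 < 2 ^ (l - 1) := Nat.lt_two_pow_self
  have h2 : l ≤ 2 ^ (l - 1) := by omega
  exact_mod_cast h2

/-- If `f` has even fibres and `x` is constant on the fibres of `f`, then `x` has even fibres. -/
lemma gf_even {Q C D : Type*} [Fintype Q] {x : Q → C} {f : Q → D}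
    (hf : EvenFib f) (hx : ∀ q q', f q = f q' → x q = x q') : EvenFib x := by
  intro c
  have h1 : (univ.filter (fun q => x q = c)).card =
      ∑ m ∈ univ.image f, ((univ.filter (fun q => x q = c)).filter (fun q => f q = m)).card :=
    Finset.card_eq_sum_card_fiberwise (fun q _ => by simp)
  rw [h1]
  apply Finset.even_sum
  intro m _
  by_cases h : ∃ q, x q = c ∧ f q = m
  · obtain ⟨q0, h1, h2⟩ := h
    have : ((univ.filter (fun q => x q = c)).filter (fun q => f q = m)) =
        univ.filter (fun q => f q = m) := by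
      ext q
      simp only [mem_filter, mem_univ, true_and]
      constructor
      · exact fun h => h.2
      · intro hq
        exact ⟨(hx q q0 (hq.trans h2.symm)).trans h1, hq⟩
    rw [this]
    exact hf m
  · have : ((univ.filter (fun q => x q = c)).filter (fun q => f q = m)) = ∅ := by
      ext q
      simp only [mem_filter, mem_univ, true_and, notMem_empty, iff_false]
      intro hq
      exact h ⟨q, hq⟩
    rw [this]
    simp

/-- The weight of a set of points. -/
noncomputable def gfW {α : Type*} (t B : ℝ) (L : Finset α) : ℝ :=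
  if L = ∅ then 0 else t ^ L.card * B ^ (L.card - 1)

lemma gfW_nonneg {α : Type*} {t B : ℝ} (ht : 0 ≤ t) (hB : 0 ≤ B) (L : Finset α) :
    0 ≤ gfW t B L := by
  unfold gfW
  split_ifs
  · exact le_rfl
  · positivity

/-- The sum of all weights. -/
lemma gfW_sum (M : ℕ) {t B b : ℝ} (ht : 0 ≤ t) (hB : 0 < B) (hb : B ≤ b)
    (hM : (M : ℝ) * t = b⁻¹) : ∑ L : Finset (Fin M), gfW t B L ≤ 2 / b := by
  have hb0 : 0 < b := lt_of_lt_of_le hB hb
  have h1 : ∀ L : Finset (Fin M), gfW t B L = B⁻¹ * ((t * B) ^ L.card - if L = ∅ then 1 else 0) := by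
    intro L
    unfold gfW
    split_ifs with h
    · simp [h]
    · have hc : L.card - 1 + 1 = L.card := by
        have : 0 < L.card := Finset.card_pos.2 (Finset.nonempty_iff_ne_empty.2 h)
        omega
      have h3 : B ^ L.card = B ^ (L.card - 1) * B := by
        rw [← pow_succ, hc]
      rw [mul_pow, h3]
      field_simp
      ring
  have h2 : ∑ L : Finset (Fin M), (t * B) ^ L.card = (t * B + 1) ^ M := by
    have := Fintype.sum_pow_mul_eq_add_pow (Fin M) (t * B) 1
    simpa using this
  have h3 : ∑ L : Finset (Fin M), (if L = ∅ then (1 : ℝ) else 0) = 1 := by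
    simp
  rw [Finset.sum_congr rfl (fun L _ => h1 L), ← Finset.mul_sum, Finset.sum_sub_distrib, h2, h3]
  have hy : (M : ℝ) * (t * B) = B / b := by
    rw [← mul_assoc, hM]
    field_simp
  have hy1 : B / b ≤ 1 := by
    rw [div_le_one hb0]
    exact hb
  have hy0 : 0 ≤ B / b := by positivity
  have h4 : (t * B + 1) ^ M ≤ Real.exp (B / b) := by
    calc (t * B + 1) ^ M ≤ (Real.exp (t * B)) ^ M := by
          apply pow_le_pow_left₀ (by positivity)
          exact Real.add_one_le_exp _
      _ = Real.exp (B / b) := by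
          rw [← Real.exp_nat_mul, hy]
  have h5 : Real.exp (B / b) - 1 ≤ 2 * (B / b) := by
    have := Real.abs_exp_sub_one_le (x := B / b) (by rw [abs_of_nonneg hy0]; exact hy1)
    rw [abs_of_nonneg hy0] at this
    exact (le_abs_self _).trans this
  calc B⁻¹ * ((t * B + 1) ^ M - 1) ≤ B⁻¹ * (2 * (B / b)) := by
        apply mul_le_mul_of_nonneg_left _ (by positivity)
        linarith
    _ = 2 / b := by
        field_simp

/-- The set of points used by `f` in the cell `c`. -/
noncomputable def gfL {Q C : Type*} [Fintype Q] {M : ℕ} (x : Q → C) (f : Q → Fin M) (c : C) :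
    Finset (Fin M) := (univ.filter (fun q => x q = c)).image f

lemma gfL_card_sum {Q C : Type*} [Fintype Q] [Fintype C] {M : ℕ} (x : Q → C) (f : Q → Fin M)
    (h : ∀ q q', f q = f q' → x q = x q') : numVals f = ∑ c, (gfL x f c).card := by
  have h0 : numVals f = (univ.image f).card := by
    unfold numVals
    have hu : ∀ (i1 i2 : DecidableEq (Fin M)),
        (@Finset.image _ _ i1 f univ).card = (@Finset.image _ _ i2 f univ).card := by
      intro i1 i2
      rw [Subsingleton.elim i1 i2]
    exact hu _ _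
  rw [h0]
  unfold gfL
  have h1 : (univ.image f) = univ.biUnion (fun c => (univ.filter (fun q => x q = c)).image f) := by
    ext m
    simp only [mem_image, mem_univ, true_and, mem_biUnion, mem_filter]
    constructor
    · rintro ⟨q, rfl⟩
      exact ⟨x q, q, rfl, rfl⟩
    · rintro ⟨c, q, _, rfl⟩
      exact ⟨q, rfl⟩
  rw [h1, Finset.card_biUnion]
  intro c _ c' _ hcc
  show Disjoint _ _
  rw [Finset.disjoint_left]
  intro m hm hm'
  simp only [mem_image, mem_filter, mem_univ, true_and] at hm hm'
  obtain ⟨q, hq, hqm⟩ := hm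
  obtain ⟨q', hq', hqm'⟩ := hm'
  apply hcc
  rw [← hq, ← hq']
  exact h q q' (hqm.trans hqm'.symm)

lemma gfL_nonempty {Q C : Type*} [Fintype Q] {M : ℕ} {x : Q → C} (hx : Function.Surjective x)
    (f : Q → Fin M) (c : C) : (gfL x f c).Nonempty := by
  obtain ⟨q, hq⟩ := hx c
  exact ⟨f q, by unfold gfL; simp only [mem_image, mem_filter, mem_univ, true_and]; exact ⟨q, hq, rfl⟩⟩

/-- The number of `f` with prescribed sets of used points. -/
lemma gf_count {Q C : Type*} [Fintype Q] [Fintype C] {M : ℕ} (x : Q → C)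
    (L : C → Finset (Fin M)) :
    ((univ.filter (fun f : Q → Fin M => gfL x f = L)).card : ℝ) ≤ ∏ q, ((L (x q)).card : ℝ) := by
  have h1 : (univ.filter (fun f : Q → Fin M => gfL x f = L)) ⊆
      Fintype.piFinset (fun q => L (x q)) := by
    intro f hf
    simp only [mem_filter, mem_univ, true_and] at hf
    rw [Fintype.mem_piFinset]
    intro q
    rw [← hf]
    unfold gfL
    simp only [mem_image, mem_filter, mem_univ, true_and]
    exact ⟨q, rfl, rfl⟩
  have h2 := Finset.card_le_card h1
  rw [Fintype.card_piFinset] at h2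
  exact_mod_cast h2

lemma gf_prod_le {Q C : Type*} [Fintype Q] [Fintype C] {M : ℕ} (x : Q → C)
    (L : C → Finset (Fin M)) (hL : ∀ c, (L c).Nonempty) :
    ∏ q, ((L (x q)).card : ℝ) ≤ ∏ c, ((2 : ℝ) ^ Fintype.card Q) ^ ((L c).card - 1) := by
  have h1 : ∏ q, ((L (x q)).card : ℝ) ≤ ∏ q, (2 : ℝ) ^ ((L (x q)).card - 1) :=
    Finset.prod_le_prod (fun q _ => by positivity)
      (fun q _ => gf_le_two_pow (Finset.card_pos.2 (hL _)))
  refine h1.trans ?_
  rw [← Finset.prod_fiberwise_of_maps_to (s := univ) (t := univ) (g := x) (fun q _ => mem_univ _)]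
  apply Finset.prod_le_prod
  · intro c _
    exact Finset.prod_nonneg (fun q _ => by positivity)
  · intro c _
    have h2 : ∏ q ∈ univ.filter (fun q => x q = c), (2 : ℝ) ^ ((L (x q)).card - 1) =
        ((2 : ℝ) ^ ((L c).card - 1)) ^ (univ.filter (fun q => x q = c)).card := by
      rw [← Finset.prod_const]
      apply Finset.prod_congr rfl
      intro q hq
      rw [(mem_filter.1 hq).2]
    rw [h2, ← pow_mul, ← pow_mul, mul_comm (Fintype.card Q)]
    apply pow_le_pow_right₀ (by norm_num)
    apply Nat.mul_le_mul_left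
    exact (Finset.card_le_univ _)

/-- The main bound. -/
lemma gf_main {Q C : Type*} [Fintype Q] [Fintype C] (M : ℕ) {t b : ℝ} (ht : 0 ≤ t)
    (hb : 2 ^ Fintype.card Q ≤ b) (hM : (M : ℝ) * t = b⁻¹) (x : Q → C)
    (hx : Function.Surjective x) :
    ∑ f : Q → Fin M, (if (∀ q q', f q = f q' → x q = x q') then t ^ numVals f else 0) ≤
      (2 / b) ^ Fintype.card C := by
  set B : ℝ := 2 ^ Fintype.card Q with hBdef
  have hB : 0 < B := by positivity
  have h1 : ∑ f : Q → Fin M, (if (∀ q q', f q = f q' → x q = x q') then t ^ numVals f else 0) ≤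
      ∑ f : Q → Fin M, ∏ c, t ^ (gfL x f c).card := by
    apply Finset.sum_le_sum
    intro f _
    split_ifs with h
    · rw [gfL_card_sum x f h, Finset.prod_pow_eq_pow_sum]
    · exact Finset.prod_nonneg (fun c _ => by positivity)
  refine h1.trans ?_
  have h2 : ∑ f : Q → Fin M, ∏ c, t ^ (gfL x f c).card =
      ∑ L : C → Finset (Fin M), ∑ f ∈ univ.filter (fun f : Q → Fin M => gfL x f = L),
        ∏ c, t ^ (gfL x f c).card :=
    (Finset.sum_fiberwise (s := univ) (g := fun f : Q → Fin M => gfL x f)
      (f := fun f => ∏ c, t ^ (gfL x f c).card)).symm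
  rw [h2]
  have h3 : ∀ L : C → Finset (Fin M),
      ∑ f ∈ univ.filter (fun f : Q → Fin M => gfL x f = L), ∏ c, t ^ (gfL x f c).card ≤
        ∏ c, gfW t B (L c) := by
    intro L
    by_cases hL : ∀ c, (L c).Nonempty
    · have h4 : ∑ f ∈ univ.filter (fun f : Q → Fin M => gfL x f = L),
          ∏ c, t ^ (gfL x f c).card =
          ((univ.filter (fun f : Q → Fin M => gfL x f = L)).card : ℝ) * ∏ c, t ^ (L c).card := by
        rw [← nsmul_eq_mul, ← Finset.sum_const]
        apply Finset.sum_congr rfl
        intro f hf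
        rw [(mem_filter.1 hf).2]
      rw [h4]
      have h5 : ∏ c, gfW t B (L c) =
          (∏ c, B ^ ((L c).card - 1)) * ∏ c, t ^ (L c).card := by
        rw [← Finset.prod_mul_distrib]
        apply Finset.prod_congr rfl
        intro c _
        unfold gfW
        rw [if_neg (Finset.nonempty_iff_ne_empty.1 (hL c)), mul_comm]
      rw [h5]
      apply mul_le_mul_of_nonneg_right
      · exact (gf_count x L).trans (gf_prod_le x L hL)
      · exact Finset.prod_nonneg (fun c _ => by positivity)
    · push Not at hL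
      obtain ⟨c, hc⟩ := hL
      have h4 : univ.filter (fun f : Q → Fin M => gfL x f = L) = ∅ := by
        ext f
        simp only [mem_filter, mem_univ, true_and, notMem_empty, iff_false]
        intro hf
        have := gfL_nonempty hx f c
        rw [hf, hc] at this
        exact Finset.not_nonempty_empty this
      rw [h4, Finset.sum_empty]
      exact Finset.prod_nonneg (fun c _ => gfW_nonneg ht hB.le _)
  refine (Finset.sum_le_sum (fun L _ => h3 L)).trans ?_
  have h6 : ∑ L : C → Finset (Fin M), ∏ c, gfW t B (L c) =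
      (∑ L : Finset (Fin M), gfW t B L) ^ Fintype.card C := by
    have := Finset.prod_univ_sum (fun _ : C => (univ : Finset (Finset (Fin M))))
      (fun _ L => gfW t B L)
    rw [Finset.prod_const, Finset.card_univ, Fintype.piFinset_univ] at this
    exact this.symm
  rw [h6]
  apply pow_le_pow_left₀
  · exact Finset.sum_nonneg (fun L _ => gfW_nonneg ht hB.le _)
  · exact gfW_sum M ht hB hb hM

/-- TASK GfunLe. -/
theorem Gfun_le {Q C : Type*} [Fintype Q] (M N : ℕ) (b : ℝ) (hb : 2 ^ Fintype.card Q ≤ b)
    (hM : (M : ℝ) * (N : ℝ)⁻¹ = b⁻¹) (x : Q → C) :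
    Gfun M N x ≤ if EvenFib x then (2 / b) ^ numVals x else 0 := by
  by_cases he : EvenFib x
  · rw [if_pos he]
    obtain ⟨C0, hC0⟩ : ∃ C0 : Finset C, C0 = univ.image x := ⟨_, rfl⟩
    have hmem : ∀ q, x q ∈ C0 := fun q => by
      rw [hC0]
      exact mem_image_of_mem _ (mem_univ _)
    have h1 := gf_main (C := {c // c ∈ C0}) M (t := (N : ℝ)⁻¹) (b := b)
      (by positivity) hb hM (fun q => ⟨x q, hmem q⟩) (by
        rintro ⟨c, hc⟩
        obtain ⟨q, _, hq⟩ := mem_image.1 (hC0 ▸ hc)
        exact ⟨q, Subtype.ext hq⟩)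
    have h2 : Fintype.card {c // c ∈ C0} = numVals x := by
      rw [Fintype.card_of_subtype C0 (fun c => Iff.rfl), hC0]
      rfl
    rw [h2] at h1
    refine le_trans ?_ h1
    unfold Gfun
    apply Finset.sum_le_sum
    intro f _
    by_cases h3 : ∀ q q', f q = f q' → x q = x q'
    · have h4 : ∀ q q', f q = f q' →
          (⟨x q, hmem q⟩ : {c // c ∈ C0}) = ⟨x q', hmem q'⟩ :=
        fun q q' hq => Subtype.ext (h3 q q' hq)
      rw [if_pos h4]
      split_ifs
      · exact le_rfl
      · positivity
    · rw [if_neg (fun h => h3 h.2)]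
      split_ifs
      · positivity
      · exact le_rfl
  · rw [if_neg he]
    unfold Gfun
    apply le_of_eq
    apply Finset.sum_eq_zero
    intro f _
    rw [if_neg]
    rintro ⟨h1, h2⟩
    exact he (gf_even h1 h2)

end Pool.Agent.NN
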