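import Mathlib
import Pool.Agent.Lib.MP_b8b239_pr.Basic

/-!
# The even graph sum bound
-/

namespace Pool.Agent.NN

open Finset Matrix
open scoped Classical

/-- Euclidean space of dimension `r`. -/
abbrev HH (r : ℕ) : Type := EuclideanSpace ℝ (Fin r)

/-- Operators on `HH r`. -/
abbrev Op (r : ℕ) : Type := HH r →L[ℝ] HH r

section Frame

variable {ι : Type*} [Fintype ι] {r : ℕ} {u : ι → HH r}

theorem gs_cs (hu : ∀ w : HH r, ∑ x, (inner ℝ (u x) w) ^ 2 = ‖w‖ ^ 2) (D : ι → ℝ)
    (hD : ∀ x, |D x| ≤ 1) (w w' : HH r) :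
    ∑ x, D x * inner ℝ (u x) w * inner ℝ (u x) w' ≤ ‖w‖ * ‖w'‖ := by
  have h1 : (∑ x, (D x * inner ℝ (u x) w) * inner ℝ (u x) w') ^ 2 ≤
      (∑ x, (D x * inner ℝ (u x) w) ^ 2) * ∑ x, (inner ℝ (u x) w') ^ 2 :=
    Finset.sum_mul_sq_le_sq_mul_sq _ _ _
  have h2 : ∑ x, (D x * inner ℝ (u x) w) ^ 2 ≤ ‖w‖ ^ 2 := by
    rw [← hu w]
    apply Finset.sum_le_sum
    intro x _
    rw [mul_pow]
    have : D x ^ 2 ≤ 1 := by
      rw [← sq_abs]
      exact pow_le_one₀ (abs_nonneg _) (hD x)
    nlinarith [sq_nonneg (inner ℝ (u x) w : ℝ)]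
  rw [hu w'] at h1
  have h3 : (∑ x, D x * inner ℝ (u x) w * inner ℝ (u x) w') ^ 2 ≤ (‖w‖ * ‖w'‖) ^ 2 := by
    rw [mul_pow]
    exact h1.trans (mul_le_mul_of_nonneg_right h2 (by positivity))
  exact abs_le_of_sq_le_sq' h3 (by positivity) |>.2

theorem gs_contr (hu : ∀ w : HH r, ∑ x, (inner ℝ (u x) w) ^ 2 = ‖w‖ ^ 2) (D : ι → ℝ)
    (hD : ∀ x, |D x| ≤ 1) :
    ∃ T : Op r, ‖T‖ ≤ 1 ∧
      ∀ w w', inner ℝ w (T w') = ∑ x, D x * inner ℝ (u x) w * inner ℝ (u x) w' := by
  have key : ∃ T : Op r,
      ∀ w w', inner ℝ w (T w') = ∑ x, D x * inner ℝ (u x) w * inner ℝ (u x) w' := by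
    refine ⟨∑ x, D x • (innerSL ℝ (u x)).smulRight (u x), ?_⟩
    intro w w'
    simp only [_root_.sum_apply, _root_.smul_apply,
      ContinuousLinearMap.smulRight_apply, innerSL_apply_apply, inner_sum, inner_smul_right]
    apply Finset.sum_congr rfl
    intro x _
    rw [real_inner_comm w (u x)]
    ring
  obtain ⟨T, hT⟩ := key
  refine ⟨T, ?_, hT⟩
  apply ContinuousLinearMap.opNorm_le_bound _ zero_le_one
  intro w
  have h1 : (inner ℝ (T w) (T w) : ℝ) ≤ ‖T w‖ * ‖w‖ := by
    rw [hT (T w) w]
    exact gs_cs hu D hD _ _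
  rw [real_inner_self_eq_norm_sq] at h1
  rcases (norm_nonneg (T w)).eq_or_lt with h | h
  · rw [← h]; positivity
  · rw [one_mul]
    nlinarith

/-- Two half edges at a vertex with weight `D` merge into one edge of the same class. -/
theorem gs_pair (hu : ∀ w : HH r, ∑ x, (inner ℝ (u x) w) ^ 2 = ‖w‖ ^ 2) (D : ι → ℝ)
    (hD : ∀ x, |D x| ≤ 1) (C₁ C₂ : Op r) (h₁ : ‖C₁‖ ≤ 1) (h₂ : ‖C₂‖ ≤ 1) :
    ∃ C : Op r, ‖C‖ ≤ 1 ∧ ∀ w₁ w₂ : HH r,
      ∑ x, D x * (inner ℝ w₁ (C₁ (u x)) * inner ℝ w₂ (C₂ (u x))) = inner ℝ w₁ (C w₂) := by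
  obtain ⟨T, hT1, hT⟩ := gs_contr hu D hD
  refine ⟨C₁.comp (T.comp (ContinuousLinearMap.adjoint C₂)), ?_, ?_⟩
  · have h3 : ‖ContinuousLinearMap.adjoint C₂‖ ≤ 1 := by
      rw [LinearIsometryEquiv.norm_map]; exact h₂
    calc ‖C₁.comp (T.comp (ContinuousLinearMap.adjoint C₂))‖
        ≤ ‖C₁‖ * ‖T.comp (ContinuousLinearMap.adjoint C₂)‖ :=
          ContinuousLinearMap.opNorm_comp_le _ _
      _ ≤ ‖C₁‖ * (‖T‖ * ‖ContinuousLinearMap.adjoint C₂‖) := by
          gcongr; exact ContinuousLinearMap.opNorm_comp_le _ _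
      _ ≤ 1 * (1 * 1) := by gcongr
      _ = 1 := by norm_num
  · intro w₁ w₂
    rw [ContinuousLinearMap.comp_apply, ← ContinuousLinearMap.adjoint_inner_left,
      ContinuousLinearMap.comp_apply, hT]
    apply Finset.sum_congr rfl
    intro x _
    rw [ContinuousLinearMap.adjoint_inner_right, ContinuousLinearMap.adjoint_inner_right,
      real_inner_comm w₁ (C₁ (u x)), real_inner_comm w₂ (C₂ (u x))]
    ring

theorem gs_norm_le (hu : ∀ w : HH r, ∑ x, (inner ℝ (u x) w) ^ 2 = ‖w‖ ^ 2) (x : ι) :
    ‖u x‖ ≤ 1 := by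
  have h1 : (inner ℝ (u x) (u x)) ^ 2 ≤ ‖u x‖ ^ 2 := by
    rw [← hu (u x)]
    exact Finset.single_le_sum (f := fun y => (inner ℝ (u y) (u x)) ^ 2)
      (fun y _ => sq_nonneg _) (Finset.mem_univ x)
  rw [real_inner_self_eq_norm_sq] at h1
  by_contra hc
  push Not at hc
  have h2 : 0 < ‖u x‖ := by linarith
  nlinarith [mul_pos h2 h2, pow_pos h2 2, pow_pos h2 3]

theorem gs_sum_norm (hu : ∀ w : HH r, ∑ x, (inner ℝ (u x) w) ^ 2 = ‖w‖ ^ 2) :
    ∑ x, ‖u x‖ ^ 2 = r := by
  have h1 : ∀ x, ‖u x‖ ^ 2 = ∑ l : Fin r, (inner ℝ (u x) (EuclideanSpace.single l (1:ℝ))) ^ 2 := by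
    intro x
    rw [EuclideanSpace.norm_sq_eq]
    apply Finset.sum_congr rfl
    intro l _
    rw [EuclideanSpace.inner_single_right]
    simp
  simp_rw [h1]
  rw [Finset.sum_comm]
  simp_rw [hu]
  simp

omit [Fintype ι] in
/-- Loop weights are at most `‖u x‖ ^ 2`. -/
theorem gs_loop_le (x : ι) (C : Op r) (hC : ‖C‖ ≤ 1) :
    |inner ℝ (u x) (C (u x))| ≤ ‖u x‖ ^ 2 := by
  calc |inner ℝ (u x) (C (u x))| ≤ ‖u x‖ * ‖C (u x)‖ := abs_real_inner_le_norm _ _
    _ ≤ ‖u x‖ * (‖C‖ * ‖u x‖) := by gcongr; exact C.le_opNorm _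
    _ ≤ ‖u x‖ * (1 * ‖u x‖) := by gcongr
    _ = ‖u x‖ ^ 2 := by ring

end Frame

section Signs

variable {ι : Type*} [Fintype ι]

theorem sgn_not (β : Bool) : sgn (!β) = - sgn β := by
  cases β <;> simp [sgn]

theorem sgn_mul_self (β : Bool) : sgn β * sgn β = 1 := by
  cases β <;> simp [sgn]

theorem abs_sgn (β : Bool) : |sgn β| = 1 := by
  cases β <;> simp [sgn]

theorem gs_sgn_ne {x y : ι} (h : x ≠ y) : ∑ z : ι → Bool, sgn (z x) * sgn (z y) = 0 := by
  have h1 : ∑ z : ι → Bool, sgn (z x) * sgn (z y) = ∑ z : ι → Bool, -(sgn (z x) * sgn (z y)) := by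
    apply Finset.sum_nbij' (fun z => Function.update z x (!(z x)))
      (fun z => Function.update z x (!(z x)))
    · intro z _; exact mem_univ _
    · intro z _; exact mem_univ _
    · intro z _; simp
    · intro z _; simp
    · intro z _
      rw [Function.update_self, Function.update_of_ne h.symm, sgn_not]
      ring
  rw [Finset.sum_neg_distrib] at h1
  linarith

theorem gs_sgn_prod (A B : ι → ℝ) :
    ∑ z : ι → Bool, (∑ x, sgn (z x) * A x) * (∑ y, sgn (z y) * B y) =
      (Fintype.card (ι → Bool) : ℝ) * ∑ x, A x * B x := by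
  have h1 : ∀ z : ι → Bool, (∑ x, sgn (z x) * A x) * (∑ y, sgn (z y) * B y) =
      ∑ x, ∑ y, (A x * B y) * (sgn (z x) * sgn (z y)) := by
    intro z
    rw [Finset.sum_mul_sum]
    apply Finset.sum_congr rfl; intro x _
    apply Finset.sum_congr rfl; intro y _
    ring
  simp_rw [h1]
  rw [Finset.sum_comm, Finset.mul_sum]
  apply Finset.sum_congr rfl
  intro x _
  rw [Finset.sum_comm]
  simp_rw [← Finset.mul_sum]
  rw [Finset.sum_eq_single x]
  · simp_rw [sgn_mul_self]
    simp
    ring
  · intro y _ hy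
    rw [gs_sgn_ne hy.symm, mul_zero]
  · intro h; exact absurd (mem_univ x) h

end Signs


section Elim

variable {ι : Type*} [Fintype ι] {r : ℕ} {u : ι → HH r}

/-- An edge on the vertices `Fin m`: two ends and an operator. -/
abbrev Edge (m r : ℕ) : Type := Fin m × Fin m × Op r

/-- The value of an edge. -/
noncomputable def ev (u : ι → HH r) {m : ℕ} (i : Fin m → ι) (e : Edge m r) : ℝ :=
  inner ℝ (u (i e.1)) (e.2.2 (u (i e.2.1)))

/-- The graph sum. -/
noncomputable def ES (u : ι → HH r) {m : ℕ} (L : List (Edge m r)) : ℝ :=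
  ∑ i : Fin m → ι, (L.map (ev u i)).prod

/-- The degree of a vertex. -/
def dg {m : ℕ} (L : List (Edge m r)) (v : Fin m) : ℕ :=
  (L.map (fun e => (if e.1 = v then 1 else 0) + (if e.2.1 = v then 1 else 0))).sum

/-- Two vertices joined by an edge of the list. -/
def Conn {m : ℕ} (L : List (Edge m r)) (a b : Fin m) : Prop :=
  ∃ e ∈ L, (e.1 = a ∧ e.2.1 = b) ∨ (e.1 = b ∧ e.2.1 = a)

/-- Number of ends at `v`. -/
def cnt {m : ℕ} (Le : List (Fin m × Op r)) (v : Fin m) : ℕ :=
  (Le.map (fun p => if p.1 = v then 1 else 0)).sum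

omit [Fintype ι] in
theorem gs_split (u : ι → HH r) {m : ℕ} (L : List (Edge (m + 1) r)) :
    ∃ (Lo : List (Op r)) (Le : List (Fin m × Op r)) (Lr : List (Edge m r)),
      (∀ (x : ι) (i : Fin m → ι), (L.map (ev u (Fin.cons x i : Fin (m + 1) → ι))).prod =
        (Lo.map (fun C => inner ℝ (u x) (C (u x)))).prod *
        (Le.map (fun p => inner ℝ (u (i p.1)) (p.2 (u x)))).prod * (Lr.map (ev u i)).prod) ∧
      (dg L 0 = 2 * Lo.length + Le.length) ∧
      (∀ v : Fin m, dg L v.succ = cnt Le v + dg Lr v) ∧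
      ((∀ e ∈ L, ‖e.2.2‖ ≤ 1) →
        (∀ C ∈ Lo, ‖C‖ ≤ 1) ∧ (∀ p ∈ Le, ‖p.2‖ ≤ 1) ∧ (∀ e ∈ Lr, ‖e.2.2‖ ≤ 1)) ∧
      (∀ v w : Fin m, Conn L v.succ w.succ → Conn Lr v w) ∧
      (∀ w : Fin m, Conn L 0 w.succ → Le ≠ []) := by
  induction L with
  | nil =>
    refine ⟨[], [], [], ?_, ?_, ?_, ?_, ?_, ?_⟩
    · intro x i; simp
    · simp [dg]
    · intro v; simp [dg, cnt]
    · intro _; simp
    · intro v w h; simp [Conn] at h
    · intro w h; simp [Conn] at h
  | cons e L ih =>
    obtain ⟨Lo, Le, Lr, h1, h2, h3, h4, h5, h6⟩ := ih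
    obtain ⟨a, b, C⟩ := e
    refine Fin.cases ?_ (fun a' => ?_) a
    · refine Fin.cases ?_ (fun b' => ?_) b
      · refine ⟨C :: Lo, Le, Lr, ?_, ?_, ?_, ?_, ?_, ?_⟩
        · intro x i
          rw [List.map_cons, List.prod_cons, h1 x i, List.map_cons, List.prod_cons]
          simp only [ev, Fin.cons_zero]
          ring
        · simp only [dg, List.map_cons, List.sum_cons, if_true, List.length_cons] at h2 ⊢
          omega
        · intro v
          have h3v := h3 v
          simp only [dg, List.map_cons, List.sum_cons, (Fin.succ_ne_zero v).symm, if_false] at h3v ⊢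
          omega
        · intro hn
          obtain ⟨h41, h42, h43⟩ := h4 (fun e he => hn e (List.mem_cons_of_mem _ he))
          refine ⟨?_, h42, h43⟩
          intro C' hC'
          rcases List.mem_cons.1 hC' with h | h
          · rw [h]; exact hn (0, 0, C) (List.mem_cons_self ..)
          · exact h41 C' h
        · rintro v w ⟨e, he, hvw⟩
          rcases List.mem_cons.1 he with h | h
          · subst h
            rcases hvw with ⟨h, _⟩ | ⟨h, _⟩
            · exact absurd h (Fin.succ_ne_zero v).symm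
            · exact absurd h (Fin.succ_ne_zero w).symm
          · exact h5 v w ⟨e, h, hvw⟩
        · rintro w ⟨e, he, hvw⟩
          rcases List.mem_cons.1 he with h | h
          · subst h
            rcases hvw with ⟨_, h⟩ | ⟨h, _⟩
            · exact absurd h (Fin.succ_ne_zero w).symm
            · exact absurd h (Fin.succ_ne_zero w).symm
          · exact h6 w ⟨e, h, hvw⟩
      · refine ⟨Lo, (b', ContinuousLinearMap.adjoint C) :: Le, Lr, ?_, ?_, ?_, ?_, ?_, ?_⟩
        · intro x i
          rw [List.map_cons, List.prod_cons, h1 x i, List.map_cons, List.prod_cons]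
          simp only [ev, Fin.cons_zero, Fin.cons_succ]
          rw [ContinuousLinearMap.adjoint_inner_right, real_inner_comm (u x)]
          ring
        · simp only [dg, List.map_cons, List.sum_cons, if_true, List.length_cons,
            Fin.succ_ne_zero b', if_false] at h2 ⊢
          omega
        · intro v
          have h3v := h3 v
          simp only [dg, cnt, List.map_cons, List.sum_cons, (Fin.succ_ne_zero v).symm, if_false,
            Fin.succ_inj] at h3v ⊢
          omega
        · intro hn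
          obtain ⟨h41, h42, h43⟩ := h4 (fun e he => hn e (List.mem_cons_of_mem _ he))
          refine ⟨h41, ?_, h43⟩
          intro p hp
          rcases List.mem_cons.1 hp with h | h
          · rw [h]
            simp only [LinearIsometryEquiv.norm_map]
            exact hn (0, b'.succ, C) (List.mem_cons_self ..)
          · exact h42 p h
        · rintro v w ⟨e, he, hvw⟩
          rcases List.mem_cons.1 he with h | h
          · subst h
            rcases hvw with ⟨h, _⟩ | ⟨h, _⟩
            · exact absurd h (Fin.succ_ne_zero v).symm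
            · exact absurd h (Fin.succ_ne_zero w).symm
          · exact h5 v w ⟨e, h, hvw⟩
        · intro w _
          exact List.cons_ne_nil _ _
    · refine Fin.cases ?_ (fun b' => ?_) b
      · refine ⟨Lo, (a', C) :: Le, Lr, ?_, ?_, ?_, ?_, ?_, ?_⟩
        · intro x i
          rw [List.map_cons, List.prod_cons, h1 x i, List.map_cons, List.prod_cons]
          simp only [ev, Fin.cons_zero, Fin.cons_succ]
          ring
        · simp only [dg, List.map_cons, List.sum_cons, if_true, List.length_cons,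
            Fin.succ_ne_zero a', if_false] at h2 ⊢
          omega
        · intro v
          have h3v := h3 v
          simp only [dg, cnt, List.map_cons, List.sum_cons, (Fin.succ_ne_zero v).symm, if_false,
            Fin.succ_inj] at h3v ⊢
          omega
        · intro hn
          obtain ⟨h41, h42, h43⟩ := h4 (fun e he => hn e (List.mem_cons_of_mem _ he))
          refine ⟨h41, ?_, h43⟩
          intro p hp
          rcases List.mem_cons.1 hp with h | h
          · rw [h]
            exact hn (a'.succ, 0, C) (List.mem_cons_self ..)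
          · exact h42 p h
        · rintro v w ⟨e, he, hvw⟩
          rcases List.mem_cons.1 he with h | h
          · subst h
            rcases hvw with ⟨_, h⟩ | ⟨_, h⟩
            · exact absurd h (Fin.succ_ne_zero w).symm
            · exact absurd h (Fin.succ_ne_zero v).symm
          · exact h5 v w ⟨e, h, hvw⟩
        · intro w _
          exact List.cons_ne_nil _ _
      · refine ⟨Lo, Le, (a', b', C) :: Lr, ?_, ?_, ?_, ?_, ?_, ?_⟩
        · intro x i
          rw [List.map_cons, List.prod_cons, h1 x i, List.map_cons, List.prod_cons]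
          simp only [ev, Fin.cons_succ]
          ring
        · simp only [dg, List.map_cons, List.sum_cons,
            Fin.succ_ne_zero a', Fin.succ_ne_zero b', if_false] at h2 ⊢
          omega
        · intro v
          have h3v := h3 v
          simp only [dg, cnt, List.map_cons, List.sum_cons, Fin.succ_inj] at h3v ⊢
          omega
        · intro hn
          obtain ⟨h41, h42, h43⟩ := h4 (fun e he => hn e (List.mem_cons_of_mem _ he))
          refine ⟨h41, h42, ?_⟩
          intro e he
          rcases List.mem_cons.1 he with h | h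
          · rw [h]
            exact hn (a'.succ, b'.succ, C) (List.mem_cons_self ..)
          · exact h43 e h
        · rintro v w ⟨e, he, hvw⟩
          rcases List.mem_cons.1 he with h | h
          · subst h
            refine ⟨(a', b', C), List.mem_cons_self .., ?_⟩
            simpa [Fin.succ_inj] using hvw
          · obtain ⟨e', he', h'⟩ := h5 v w ⟨e, h, hvw⟩
            exact ⟨e', List.mem_cons_of_mem _ he', h'⟩
        · rintro w ⟨e, he, hvw⟩
          rcases List.mem_cons.1 he with h | h
          · subst h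
            rcases hvw with ⟨h, _⟩ | ⟨_, h⟩
            · exact absurd h (Fin.succ_ne_zero a')
            · exact absurd h (Fin.succ_ne_zero b')
          · exact h6 w ⟨e, h, hvw⟩

theorem gs_elim (hu : ∀ w : HH r, ∑ x, (inner ℝ (u x) w) ^ 2 = ‖w‖ ^ 2) {m : ℕ} :
    ∀ (n : ℕ) (Le : List (Fin m × Op r)), Le.length = 2 * (n + 1) → (∀ p ∈ Le, ‖p.2‖ ≤ 1) →
      ∀ (D : ι → ℝ), (∀ x, |D x| ≤ 1) → ∀ Φ : (Fin m → ι) → ℝ,
      ∃ N : List (Edge m r), (∀ e ∈ N, ‖e.2.2‖ ≤ 1) ∧ (∀ v, dg N v = cnt Le v) ∧
        |∑ i, Φ i * ∑ x, D x * (Le.map (fun p => inner ℝ (u (i p.1)) (p.2 (u x)))).prod| ≤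
          |∑ i, Φ i * (N.map (ev u i)).prod| := by
  intro n
  induction n with
  | zero =>
    intro Le hlen hn D hD Φ
    obtain ⟨p₁, p₂, rfl⟩ := List.length_eq_two.1 hlen
    obtain ⟨C, hC, hC'⟩ := gs_pair hu D hD p₁.2 p₂.2 (hn p₁ (by simp)) (hn p₂ (by simp))
    refine ⟨[(p₁.1, p₂.1, C)], ?_, ?_, ?_⟩
    · intro e he
      rw [List.mem_singleton] at he
      rw [he]; exact hC
    · intro v
      simp [dg, cnt]
    · apply le_of_eq
      congr 1
      apply Finset.sum_congr rfl
      intro i _
      congr 1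
      simp only [List.map_cons, List.map_nil, List.prod_cons, List.prod_nil, mul_one, ev]
      exact hC' _ _
  | succ n ih =>
    intro Le hlen hn D hD Φ
    match Le, hlen, hn with
    | [], h, _ => simp at h
    | [_], h, _ => simp at h; omega
    | p₁ :: p₂ :: Le', hlen, hn =>
      have hlen' : Le'.length = 2 * (n + 1) := by
        simp only [List.length_cons] at hlen; omega
      have hn' : ∀ p ∈ Le', ‖p.2‖ ≤ 1 := fun p hp =>
        hn p (List.mem_cons_of_mem _ (List.mem_cons_of_mem _ hp))
      have hp1 : ‖p₁.2‖ ≤ 1 := hn p₁ (by simp)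
      have hp2 : ‖p₂.2‖ ≤ 1 := hn p₂ (by simp)
      have hDz : ∀ (z : ι → Bool) (x : ι), |D x * sgn (z x)| ≤ 1 := by
        intro z x
        rw [abs_mul, abs_sgn, mul_one]; exact hD x
      choose C hC hC' using fun z : ι → Bool =>
        gs_pair hu (fun x => D x * sgn (z x)) (hDz z) p₁.2 p₂.2 hp1 hp2
      set G : (Fin m → ι) → ι → ℝ := fun i x =>
        (Le'.map (fun p => inner ℝ (u (i p.1)) (p.2 (u x)))).prod with hG
      set A : (ι → Bool) → ℝ := fun z =>
        ∑ i, (Φ i * inner ℝ (u (i p₁.1)) (C z (u (i p₂.1)))) * ∑ x, sgn (z x) * G i x with hA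
      set T : ℝ := ∑ i, Φ i * ∑ x, D x *
        ((p₁ :: p₂ :: Le').map (fun p => inner ℝ (u (i p.1)) (p.2 (u x)))).prod with hT
      have hsum : ∑ z, A z = (Fintype.card (ι → Bool) : ℝ) * T := by
        simp only [hA, hT]
        rw [Finset.sum_comm, Finset.mul_sum]
        apply Finset.sum_congr rfl
        intro i _
        have h1 : ∀ z : ι → Bool, (Φ i * inner ℝ (u (i p₁.1)) (C z (u (i p₂.1)))) *
            ∑ x, sgn (z x) * G i x =
            Φ i * ((∑ x, sgn (z x) * (D x * (inner ℝ (u (i p₁.1)) (p₁.2 (u x)) *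
              inner ℝ (u (i p₂.1)) (p₂.2 (u x))))) * (∑ x, sgn (z x) * G i x)) := by
          intro z
          rw [← hC' z (u (i p₁.1)) (u (i p₂.1)), mul_assoc]
          congr 2
          apply Finset.sum_congr rfl
          intro x _
          ring
        simp_rw [h1]
        rw [← Finset.mul_sum, gs_sgn_prod]
        rw [mul_left_comm]
        congr 2
        apply Finset.sum_congr rfl
        intro x _
        rw [List.map_cons, List.map_cons, List.prod_cons, List.prod_cons]
        ring
      have hex : ∃ z, |T| ≤ |A z| := by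
        by_contra hcon
        push Not at hcon
        have hcard : (0 : ℝ) < Fintype.card (ι → Bool) := by
          exact_mod_cast Fintype.card_pos
        have h1 : |∑ z, A z| ≤ ∑ z, |A z| := Finset.abs_sum_le_sum_abs _ _
        have h2 : ∑ z, |A z| < ∑ _z : ι → Bool, |T| :=
          Finset.sum_lt_sum_of_nonempty Finset.univ_nonempty (fun z _ => hcon z)
        rw [hsum, abs_mul, abs_of_pos hcard] at h1
        rw [Finset.sum_const, nsmul_eq_mul, Finset.card_univ] at h2
        linarith
      obtain ⟨z, hz⟩ := hex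
      obtain ⟨N', hN1, hN2, hN3⟩ := ih Le' hlen' hn' (fun x => sgn (z x))
        (fun x => by rw [abs_sgn]) (fun i => Φ i * inner ℝ (u (i p₁.1)) (C z (u (i p₂.1))))
      refine ⟨(p₁.1, p₂.1, C z) :: N', ?_, ?_, ?_⟩
      · intro e he
        rcases List.mem_cons.1 he with h | h
        · rw [h]; exact hC z
        · exact hN1 e h
      · intro v
        have := hN2 v
        simp only [dg, cnt, List.map_cons, List.sum_cons] at this ⊢
        omega
      · refine hz.trans (hN3.trans (le_of_eq ?_))
        congr 1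
        apply Finset.sum_congr rfl
        intro i _
        rw [List.map_cons, List.prod_cons]
        simp only [ev]
        ring

/-- The number of vertices without later neighbour. -/
noncomputable def rootCount : (m : ℕ) → (Fin m → Fin m → Prop) → ℕ
  | 0, _ => 0
  | m + 1, A => rootCount m (fun i j => A i.succ j.succ) +
      (if ∃ w : Fin m, A 0 w.succ then 0 else 1)

theorem dg_append {m : ℕ} (L L' : List (Edge m r)) (v : Fin m) :
    dg (L ++ L') v = dg L v + dg L' v := by
  simp [dg]

theorem gs_loops_le (hu : ∀ w : HH r, ∑ x, (inner ℝ (u x) w) ^ 2 = ‖w‖ ^ 2) (x : ι)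
    (Lo : List (Op r)) (h : ∀ C ∈ Lo, ‖C‖ ≤ 1) :
    |(Lo.map (fun C => inner ℝ (u x) (C (u x)))).prod| ≤ 1 := by
  induction Lo with
  | nil => simp
  | cons C Lo ih =>
    rw [List.map_cons, List.prod_cons, abs_mul]
    have h1 := gs_loop_le (u := u) x C (h C (List.mem_cons_self ..))
    have h2 := gs_norm_le hu x
    have h3 : ‖u x‖ ^ 2 ≤ 1 := pow_le_one₀ (norm_nonneg _) h2
    exact mul_le_one₀ (h1.trans h3) (abs_nonneg _)
      (ih fun C hC => h C (List.mem_cons_of_mem _ hC))

theorem gs_loops_le' (hu : ∀ w : HH r, ∑ x, (inner ℝ (u x) w) ^ 2 = ‖w‖ ^ 2) (x : ι)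
    (Lo : List (Op r)) (h : ∀ C ∈ Lo, ‖C‖ ≤ 1) (hne : Lo ≠ []) :
    |(Lo.map (fun C => inner ℝ (u x) (C (u x)))).prod| ≤ ‖u x‖ ^ 2 := by
  cases Lo with
  | nil => exact absurd rfl hne
  | cons C Lo =>
    rw [List.map_cons, List.prod_cons, abs_mul]
    have h1 := gs_loop_le (u := u) x C (h C (List.mem_cons_self ..))
    have h2 := gs_loops_le hu x Lo fun C hC => h C (List.mem_cons_of_mem _ hC)
    calc _ ≤ ‖u x‖ ^ 2 * 1 := mul_le_mul h1 h2 (abs_nonneg _) (by positivity)
      _ = _ := mul_one _

theorem gs_main (hu : ∀ w : HH r, ∑ x, (inner ℝ (u x) w) ^ 2 = ‖w‖ ^ 2) (hr : 1 ≤ r) :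
    ∀ (m : ℕ) (L : List (Edge m r)) (A : Fin m → Fin m → Prop),
      (∀ v, Even (dg L v) ∧ 0 < dg L v) → (∀ e ∈ L, ‖e.2.2‖ ≤ 1) →
      (∀ v w, v < w → A v w → Conn L v w) → |ES u L| ≤ (r : ℝ) ^ rootCount m A := by
  have hr' : (1 : ℝ) ≤ r := by exact_mod_cast hr
  intro m
  induction m with
  | zero =>
    intro L A _ _ _
    have hL : L = [] := by
      rcases L with _ | ⟨e, L⟩
      · rfl
      · exact e.1.elim0
    subst hL
    simp [ES, rootCount]
  | succ m ih =>
    intro L A hdeg hn hA
    obtain ⟨Lo, Le, Lr, h1, h2, h3, h4, h5, h6⟩ := gs_split u L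
    obtain ⟨h41, h42, h43⟩ := h4 hn
    have hES : ES u L = ∑ i : Fin m → ι, (Lr.map (ev u i)).prod * ∑ x,
        (Lo.map (fun C => inner ℝ (u x) (C (u x)))).prod *
        (Le.map (fun p => inner ℝ (u (i p.1)) (p.2 (u x)))).prod := by
      rw [ES, ← (Fin.consEquiv (fun _ : Fin (m + 1) => ι)).sum_comp, Fintype.sum_prod_type,
        Finset.sum_comm]
      apply Finset.sum_congr rfl
      intro i _
      rw [Finset.mul_sum]
      apply Finset.sum_congr rfl
      intro x _
      have := h1 x i
      simp only [Fin.consEquiv, Equiv.coe_fn_mk]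
      rw [this]
      ring
    have hconn : ∀ v w : Fin m, v < w → A v.succ w.succ → Conn Lr v w := by
      intro v w hvw hAvw
      exact h5 v w (hA _ _ (Fin.succ_lt_succ_iff.2 hvw) hAvw)
    by_cases hLe : Le = []
    · -- the vertex has only loops
      subst hLe
      have hno : ¬ ∃ w : Fin m, A 0 w.succ := by
        rintro ⟨w, hw⟩
        exact h6 w (hA _ _ (Fin.succ_pos w) hw) rfl
      have hLo : Lo ≠ [] := by
        intro h
        have := (hdeg 0).2
        rw [h2, h] at this
        simp at this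
      have hES' : ES u L = (∑ x, (Lo.map (fun C => inner ℝ (u x) (C (u x)))).prod) * ES u Lr := by
        rw [hES, ES, Finset.mul_sum]
        apply Finset.sum_congr rfl
        intro i _
        simp
        ring
      have hfac : |∑ x, (Lo.map (fun C => inner ℝ (u x) (C (u x)))).prod| ≤ r := by
        calc _ ≤ ∑ x, |(Lo.map (fun C => inner ℝ (u x) (C (u x)))).prod| :=
              Finset.abs_sum_le_sum_abs _ _
          _ ≤ ∑ x, ‖u x‖ ^ 2 := Finset.sum_le_sum fun x _ => gs_loops_le' hu x Lo h41 hLo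
          _ = r := gs_sum_norm hu
      have hdeg' : ∀ v, Even (dg Lr v) ∧ 0 < dg Lr v := by
        intro v
        have := h3 v
        have h7 := hdeg v.succ
        rw [this] at h7
        simpa [cnt] using h7
      have := ih Lr (fun i j => A i.succ j.succ) hdeg' h43 hconn
      rw [hES', abs_mul, rootCount, if_neg hno, pow_succ, mul_comm]
      exact mul_le_mul this hfac (abs_nonneg _) (by positivity)
    · -- the vertex is eliminated
      obtain ⟨n, hn'⟩ : ∃ n, Le.length = 2 * (n + 1) := by
        have h7 := (hdeg 0).1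
        rw [h2] at h7
        have h8 : Even Le.length := by
          rcases h7 with ⟨k, hk⟩
          exact ⟨k - Lo.length, by omega⟩
        obtain ⟨k, hk⟩ := h8
        have h9 : 0 < Le.length := List.length_pos_iff.2 hLe
        exact ⟨k - 1, by omega⟩
      obtain ⟨N, hN1, hN2, hN3⟩ := gs_elim hu n Le hn' h42
        (fun x => (Lo.map (fun C => inner ℝ (u x) (C (u x)))).prod)
        (fun x => gs_loops_le hu x Lo h41) (fun i => (Lr.map (ev u i)).prod)
      have hdeg' : ∀ v, Even (dg (Lr ++ N) v) ∧ 0 < dg (Lr ++ N) v := by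
        intro v
        have h7 := hdeg v.succ
        rw [h3 v] at h7
        rw [dg_append, hN2 v, add_comm]
        exact h7
      have hn'' : ∀ e ∈ Lr ++ N, ‖e.2.2‖ ≤ 1 := by
        intro e he
        rcases List.mem_append.1 he with h | h
        · exact h43 e h
        · exact hN1 e h
      have hconn' : ∀ v w : Fin m, v < w → A v.succ w.succ → Conn (Lr ++ N) v w := by
        intro v w hvw hAvw
        obtain ⟨e, he, h⟩ := hconn v w hvw hAvw
        exact ⟨e, List.mem_append_left _ he, h⟩
      have h10 := ih (Lr ++ N) (fun i j => A i.succ j.succ) hdeg' hn'' hconn'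
      have h11 : ES u (Lr ++ N) = ∑ i : Fin m → ι, (Lr.map (ev u i)).prod *
          (N.map (ev u i)).prod := by
        rw [ES]
        apply Finset.sum_congr rfl
        intro i _
        rw [List.map_append, List.prod_append]
      rw [h11] at h10
      rw [hES, rootCount]
      refine (hN3.trans h10).trans (pow_le_pow_right₀ hr' (Nat.le_add_right _ _))

end Elim

section Good

variable {K : Type*} (adj : K → K → Prop)

/-- Good lists: every new vertex (at the head) has a neighbour in the list, or the list is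
closed under adjacency. -/
def Good : List K → Prop
  | [] => True
  | v :: l => v ∉ l ∧ Good l ∧ ((∃ w ∈ l, adj v w) ∨ (∀ x ∈ l, ∀ y, y ∉ l → ¬ adj x y))

/-- The number of vertices of the list without neighbour in their tail. -/
noncomputable def nRoots : List K → ℕ
  | [] => 0
  | v :: l => nRoots l + (if ∃ w ∈ l, adj v w then 0 else 1)

/-- The block number of a vertex of the list. -/
noncomputable def blk : List K → K → ℕ
  | [], _ => 0
  | v :: l, x => if x = v then nRoots adj (v :: l) else blk l x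

theorem good_nodup : ∀ l : List K, Good adj l → l.Nodup
  | [], _ => List.nodup_nil
  | _ :: l, h => List.nodup_cons.2 ⟨h.1, good_nodup l h.2.1⟩

theorem exists_good [Fintype K] (hsymm : ∀ v w, adj v w → adj w v) :
    ∀ k : ℕ, k ≤ Fintype.card K → ∃ l : List K, Good adj l ∧ l.length = k := by
  intro k
  induction k with
  | zero => intro _; exact ⟨[], trivial, rfl⟩
  | succ k ih =>
    intro hk
    obtain ⟨l, hl, hlen⟩ := ih (by omega)
    have hex : ∃ v, v ∉ l := by
      by_contra hcon
      push Not at hcon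
      have h1 : (univ : Finset K) ⊆ l.toFinset := fun v _ => List.mem_toFinset.2 (hcon v)
      have h2 := Finset.card_le_card h1
      rw [Finset.card_univ] at h2
      have h3 := l.toFinset_card_le
      omega
    by_cases h : ∃ v, v ∉ l ∧ ∃ w ∈ l, adj v w
    · obtain ⟨v, hv, hw⟩ := h
      exact ⟨v :: l, ⟨hv, hl, Or.inl hw⟩, by simp [hlen]⟩
    · obtain ⟨v, hv⟩ := hex
      push Not at h
      refine ⟨v :: l, ⟨hv, hl, Or.inr ?_⟩, by simp [hlen]⟩
      intro x hx y hy hxy
      exact h y hy x hx (hsymm _ _ hxy)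

theorem nRoots_pos : ∀ l : List K, l ≠ [] → 1 ≤ nRoots adj l
  | [], h => absurd rfl h
  | [v], _ => by simp [nRoots]
  | v :: w :: l, _ => by
    have := nRoots_pos (w :: l) (List.cons_ne_nil _ _)
    rw [nRoots]
    omega

theorem blk_pos : ∀ (l : List K) (x : K), x ∈ l → 1 ≤ blk adj l x
  | [], x, h => by simp at h
  | v :: l, x, h => by
    rw [blk]
    by_cases hx : x = v
    · rw [if_pos hx]; exact nRoots_pos adj _ (List.cons_ne_nil _ _)
    · rw [if_neg hx]
      exact blk_pos l x ((List.mem_cons.1 h).resolve_left hx)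

theorem blk_le : ∀ (l : List K) (x : K), x ∈ l → blk adj l x ≤ nRoots adj l
  | [], x, h => by simp at h
  | v :: l, x, h => by
    rw [blk]
    by_cases hx : x = v
    · rw [if_pos hx]
    · rw [if_neg hx]
      have := blk_le l x ((List.mem_cons.1 h).resolve_left hx)
      rw [nRoots]
      omega

theorem blk_closed : ∀ (l : List K), Good adj l → ∀ y ∈ l, blk adj l y < nRoots adj l →
    ∀ z, z ∉ l → ¬ adj y z
  | [], _, y, h, _, _, _ => by simp at h
  | v :: l, hg, y, hy, hlt, z, hz => by
    have hzl : z ∉ l := fun h => hz (List.mem_cons_of_mem _ h)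
    rw [blk] at hlt
    by_cases hyv : y = v
    · rw [if_pos hyv] at hlt
      exact absurd hlt (lt_irrefl _)
    · rw [if_neg hyv] at hlt
      have hyl : y ∈ l := (List.mem_cons.1 hy).resolve_left hyv
      rw [nRoots] at hlt
      by_cases hroot : ∃ w ∈ l, adj v w
      · rw [if_pos hroot] at hlt
        exact blk_closed l hg.2.1 y hyl hlt z hzl
      · rcases hg.2.2 with h | h
        · exact absurd h hroot
        · exact h y hyl z hzl

theorem blk_adj (hsymm : ∀ v w, adj v w → adj w v) : ∀ (l : List K), Good adj l →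
    ∀ x ∈ l, ∀ y ∈ l, adj x y → blk adj l x = blk adj l y
  | [], _, x, h, _, _, _ => by simp at h
  | v :: l, hg, x, hx, y, hy, hxy => by
    have key : ∀ y ∈ l, adj v y → nRoots adj (v :: l) = blk adj l y := by
      intro y hy hvy
      have h1 : nRoots adj (v :: l) = nRoots adj l := by
        rw [nRoots, if_pos ⟨y, hy, hvy⟩, add_zero]
      rw [h1]
      by_contra hne
      have h2 := blk_le adj l y hy
      exact blk_closed adj l hg.2.1 y hy (by omega) v hg.1 (hsymm _ _ hvy)
    simp only [blk]
    by_cases hxv : x = v <;> by_cases hyv : y = v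
    · rw [if_pos hxv, if_pos hyv]
    · rw [if_pos hxv, if_neg hyv]
      exact key y ((List.mem_cons.1 hy).resolve_left hyv) (hxv ▸ hxy)
    · rw [if_neg hxv, if_pos hyv]
      exact (key x ((List.mem_cons.1 hx).resolve_left hxv) (hsymm _ _ (hyv ▸ hxy))).symm
    · rw [if_neg hxv, if_neg hyv]
      exact blk_adj hsymm l hg.2.1 x ((List.mem_cons.1 hx).resolve_left hxv) y
        ((List.mem_cons.1 hy).resolve_left hyv) hxy

theorem blk_surj : ∀ (l : List K), Good adj l → ∀ t, t < nRoots adj l →
    ∃ x ∈ l, blk adj l x = t + 1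
  | [], _, t, ht => by simp [nRoots] at ht
  | v :: l, hg, t, ht => by
    by_cases h : t < nRoots adj l
    · obtain ⟨x, hx, hxt⟩ := blk_surj l hg.2.1 t h
      refine ⟨x, List.mem_cons_of_mem _ hx, ?_⟩
      rw [blk, if_neg (fun hxv : x = v => hg.1 (hxv ▸ hx)), hxt]
    · refine ⟨v, List.mem_cons_self .., ?_⟩
      rw [blk, if_pos rfl]
      rw [nRoots] at ht ⊢
      split_ifs at ht ⊢ <;> omega

theorem rootCount_get : ∀ (l : List K),
    rootCount l.length (fun i j => adj (l.get i) (l.get j)) = nRoots adj l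
  | [] => rfl
  | v :: l => by
    have ih := rootCount_get l
    show rootCount l.length (fun i j : Fin l.length => adj (l.get i) (l.get j)) +
      (if ∃ w : Fin l.length, adj v (l.get w) then 0 else 1) = _
    rw [ih, nRoots]
    congr 1
    have : (∃ w : Fin l.length, adj v (l.get w)) ↔ ∃ w ∈ l, adj v w := by
      constructor
      · rintro ⟨w, hw⟩
        exact ⟨_, List.get_mem _ _, hw⟩
      · rintro ⟨w, hw, h⟩
        obtain ⟨i, hi⟩ := List.get_of_mem hw
        exact ⟨i, hi ▸ h⟩
    simp only [this]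

end Good

/-- T1, the even graph sum bound. -/
theorem graph_sum_bound {ι : Type*} [Fintype ι] {r : ℕ} (u : ι → EuclideanSpace ℝ (Fin r))
    (hu : ∀ w : EuclideanSpace ℝ (Fin r), ∑ x, (inner ℝ (u x) w) ^ 2 = ‖w‖ ^ 2)
    {K E : Type*} [Fintype K] [DecidableEq K] [Fintype E] (e e' : E → K)
    (heven : ∀ v, Even ((univ.filter fun s => e s = v).card + (univ.filter fun s => e' s = v).card))
    (hpos : ∀ v, 0 < (univ.filter fun s => e s = v).card + (univ.filter fun s => e' s = v).card) :
    |∑ i : K → ι, ∏ s, inner ℝ (u (i (e s))) (u (i (e' s)))| ≤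
      (Fintype.card {j : K → Fin r // ∀ s, j (e s) = j (e' s)} : ℝ) := by
  rcases Nat.eq_zero_or_pos r with hr | hr
  · -- dimension zero
    subst hr
    rcases isEmpty_or_nonempty K with hK | ⟨⟨v⟩⟩
    · have hE : IsEmpty E := ⟨fun s => hK.elim (e s)⟩
      have h1 : (1 : ℝ) ≤ (Fintype.card {j : K → Fin 0 // ∀ s, j (e s) = j (e' s)} : ℝ) := by
        have : Nonempty {j : K → Fin 0 // ∀ s, j (e s) = j (e' s)} :=
          ⟨⟨fun k => hK.elim k, fun s => hE.elim s⟩⟩
        exact_mod_cast Nat.succ_le_of_lt Fintype.card_pos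
      refine le_trans ?_ h1
      simp
    · have hs : Nonempty E := by
        by_contra hcon
        rw [not_nonempty_iff] at hcon
        have := hpos v
        simp at this
      obtain ⟨s⟩ := hs
      have : ∑ i : K → ι, ∏ s, inner ℝ (u (i (e s))) (u (i (e' s))) = (0 : ℝ) := by
        apply Finset.sum_eq_zero
        intro i _
        apply Finset.prod_eq_zero (mem_univ s)
        rw [Subsingleton.elim (u (i (e s))) 0, inner_zero_left]
      rw [this, abs_zero]
      positivity
  · set adj : K → K → Prop := fun v w => ∃ s, (e s = v ∧ e' s = w) ∨ (e s = w ∧ e' s = v)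
      with hadj
    have hsymm : ∀ v w, adj v w → adj w v := by
      rintro v w ⟨s, h⟩
      exact ⟨s, h.symm⟩
    obtain ⟨l, hl, hlen⟩ := exists_good adj hsymm (Fintype.card K) le_rfl
    have hnd : l.Nodup := good_nodup adj l hl
    have hall : ∀ x, x ∈ l := by
      intro x
      have h1 : l.toFinset = univ := by
        apply Finset.eq_univ_of_card
        rw [List.toFinset_card_of_nodup hnd, hlen]
      rw [← List.mem_toFinset, h1]
      exact mem_univ x
    set φ : Fin l.length ≃ K := hnd.getEquivOfForallMemList l hall with hφ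
    have hφget : ∀ i, φ i = l.get i := fun i => rfl
    set L : List (Edge l.length r) :=
      (univ : Finset E).toList.map
        (fun s => (φ.symm (e s), φ.symm (e' s), ContinuousLinearMap.id ℝ (HH r))) with hL
    have hS : ∑ i : K → ι, ∏ s, inner ℝ (u (i (e s))) (u (i (e' s))) = ES u L := by
      rw [ES, ← (Equiv.arrowCongr φ (Equiv.refl ι)).sum_comp]
      apply Finset.sum_congr rfl
      intro i _
      rw [hL, List.map_map, ← Finset.prod_map_toList]
      rfl
    have hdg : ∀ v, dg L v = (univ.filter fun s => e s = φ v).card +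
        (univ.filter fun s => e' s = φ v).card := by
      intro v
      rw [dg, hL, List.map_map, Finset.sum_map_toList]
      simp only [Function.comp]
      rw [Finset.sum_add_distrib, Finset.card_filter, Finset.card_filter]
      congr 1 <;>
      · apply Finset.sum_congr rfl
        intro s _
        simp only [Equiv.symm_apply_eq]
    have hmain := gs_main (u := u) hu hr l.length L (fun i j => adj (l.get i) (l.get j))
      (fun v => by rw [hdg v]; exact ⟨heven _, hpos _⟩)
      (by
        intro e he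
        rw [hL, List.mem_map] at he
        obtain ⟨s, _, rfl⟩ := he
        exact ContinuousLinearMap.norm_id_le)
      (by
        rintro v w _ ⟨s, hs⟩
        refine ⟨(φ.symm (e s), φ.symm (e' s), ContinuousLinearMap.id ℝ (HH r)), ?_, ?_⟩
        · rw [hL, List.mem_map]
          exact ⟨s, by simp, rfl⟩
        · simp only [Equiv.symm_apply_eq, hφget]
          exact hs)
    rw [rootCount_get] at hmain
    rw [hS]
    refine hmain.trans ?_
    -- the injection
    have hcard : (r ^ nRoots adj l : ℕ) ≤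
        Fintype.card {j : K → Fin r // ∀ s, j (e s) = j (e' s)} := by
      have hb : ∀ x, blk adj l x - 1 < nRoots adj l := by
        intro x
        have h1 := blk_pos adj l x (hall x)
        have h2 := blk_le adj l x (hall x)
        omega
      have hc : Fintype.card (Fin (nRoots adj l) → Fin r) = r ^ nRoots adj l := by
        simp
      rw [← hc]
      apply Fintype.card_le_of_injective
        (fun g : Fin (nRoots adj l) → Fin r =>
          (⟨fun x => g ⟨blk adj l x - 1, hb x⟩, fun s => by
            have := blk_adj adj hsymm l hl (e s) (hall _) (e' s) (hall _) ⟨s, Or.inl ⟨rfl, rfl⟩⟩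
            simp only [this]⟩ : {j : K → Fin r // ∀ s, j (e s) = j (e' s)}))
      intro g g' hgg
      funext t
      obtain ⟨x, _, hx⟩ := blk_surj adj l hl t.1 t.2
      have h1 := congrFun (congrArg Subtype.val hgg) x
      simp only at h1
      have h2 : (⟨blk adj l x - 1, hb x⟩ : Fin (nRoots adj l)) = t := by
        apply Fin.ext
        simp [hx]
      rw [h2] at h1
      exact h1
    exact_mod_cast hcard

end Pool.Agent.NN
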