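import Mathlib
import Pool.Agent.Lib.MP_b8b239_pr.Basic

/-!
# Operator norm and trace
-/

namespace Pool.Agent.NN

open Finset Matrix
open scoped Classical Matrix.Norms.L2Operator

theorem nt_transpose_eq {m n : Type*} (A : Matrix m n ℝ) : Aᴴ = Aᵀ := by
  ext i j
  simp [Matrix.conjTranspose_apply]

/-- Operator norm squared at most the sum of the squares of the entries. -/
theorem nt_norm_sq_le {r : ℕ} (B : Matrix (Fin r) (Fin r) ℝ) :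
    ‖B‖ ^ 2 ≤ ∑ i, ∑ j, B i j ^ 2 := by
  have hS : 0 ≤ ∑ i, ∑ j, B i j ^ 2 :=
    Finset.sum_nonneg fun i _ => Finset.sum_nonneg fun j _ => sq_nonneg _
  have h1 : ‖B‖ ≤ Real.sqrt (∑ i, ∑ j, B i j ^ 2) := by
    rw [Matrix.cstar_norm_def]
    apply ContinuousLinearMap.opNorm_le_bound _ (Real.sqrt_nonneg _)
    intro x
    have h2 : ‖(Matrix.toEuclideanCLM (n := Fin r) (𝕜 := ℝ) B) x‖ ^ 2 ≤
        (∑ i, ∑ j, B i j ^ 2) * ‖x‖ ^ 2 := by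
      rw [EuclideanSpace.norm_sq_eq, EuclideanSpace.norm_sq_eq, Finset.sum_mul]
      apply Finset.sum_le_sum
      intro i _
      rw [Matrix.ofLp_toEuclideanCLM]
      simp only [Matrix.mulVec, dotProduct, Real.norm_eq_abs, sq_abs]
      exact Finset.sum_mul_sq_le_sq_mul_sq _ _ _
    rw [← Real.sqrt_sq (norm_nonneg x), ← Real.sqrt_mul hS]
    exact Real.le_sqrt_of_sq_le h2
  calc ‖B‖ ^ 2 ≤ (Real.sqrt (∑ i, ∑ j, B i j ^ 2)) ^ 2 :=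
        pow_le_pow_left₀ (norm_nonneg _) h1 2
    _ = _ := Real.sq_sqrt hS

open scoped MatrixOrder in
theorem nt_psd_eq {r : ℕ} (K : Matrix (Fin r) (Fin r) ℝ) (hK : K.PosSemidef) :
    ∃ B : Matrix (Fin r) (Fin r) ℝ, K = Bᴴ * B := by
  obtain ⟨B, hB⟩ := CStarAlgebra.nonneg_iff_eq_star_mul_self.mp hK.nonneg
  exact ⟨B, hB⟩

theorem nt_norm_le_trace {r : ℕ} (K : Matrix (Fin r) (Fin r) ℝ) (hK : K.PosSemidef) :
    ‖K‖ ≤ K.trace := by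
  obtain ⟨B, hB⟩ := nt_psd_eq K hK
  rw [hB, Matrix.l2_opNorm_conjTranspose_mul_self, ← pow_two]
  refine (nt_norm_sq_le B).trans (le_of_eq ?_)
  rw [Matrix.trace, Finset.sum_comm]
  apply Finset.sum_congr rfl
  intro i _
  rw [Matrix.diag_apply, Matrix.mul_apply]
  apply Finset.sum_congr rfl
  intro j _
  simp [Matrix.conjTranspose_apply, pow_two]

theorem nt_norm_pow {r : ℕ} (H : Matrix (Fin r) (Fin r) ℝ) (hH : IsSelfAdjoint H) (p : ℕ)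
    (hp : 0 < p) : ‖H‖ ^ p ≤ ‖H ^ p‖ := by
  rcases (norm_nonneg H).eq_or_lt with h0 | h0
  · rw [← h0, zero_pow hp.ne']
    exact norm_nonneg _
  · obtain ⟨m, hm⟩ : ∃ m, p ≤ 2 ^ m := ⟨p, Nat.lt_two_pow_self.le⟩
    have h1 : ‖H ^ 2 ^ m‖ = ‖H‖ ^ 2 ^ m := hH.norm_pow_two_pow m
    have h2 : ‖H ^ 2 ^ m‖ ≤ ‖H ^ p‖ * ‖H‖ ^ (2 ^ m - p) := by
      rcases Nat.eq_zero_or_pos (2 ^ m - p) with h | h
      · have : 2 ^ m = p := by omega
        rw [h, this, pow_zero, mul_one]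
      · calc ‖H ^ 2 ^ m‖ = ‖H ^ p * H ^ (2 ^ m - p)‖ := by
              rw [← pow_add, Nat.add_sub_cancel' hm]
          _ ≤ ‖H ^ p‖ * ‖H ^ (2 ^ m - p)‖ := norm_mul_le _ _
          _ ≤ ‖H ^ p‖ * ‖H‖ ^ (2 ^ m - p) := by
              gcongr
              exact norm_pow_le' _ h
    rw [h1] at h2
    have h3 : ‖H‖ ^ 2 ^ m = ‖H‖ ^ p * ‖H‖ ^ (2 ^ m - p) := by
      rw [← pow_add, Nat.add_sub_cancel' hm]
    rw [h3] at h2
    exact le_of_mul_le_mul_right h2 (pow_pos h0 _)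

/-- The `2p`-th power of the operator norm is at most the trace of `(Z Zᵀ) ^ p`. -/
theorem nt_main {r : ℕ} (Z : Matrix (Fin r) (Fin r) ℝ) (p : ℕ) (hp : 0 < p) :
    ‖Z‖ ^ (2 * p) ≤ ((Z * Zᵀ) ^ p).trace := by
  have hpsd : (Z * Zᵀ).PosSemidef := by
    rw [← nt_transpose_eq]; exact Matrix.posSemidef_self_mul_conjTranspose Z
  have hsa : IsSelfAdjoint (Z * Zᵀ) := hpsd.isHermitian
  have h1 : ‖Z * Zᵀ‖ = ‖Z‖ ^ 2 := by
    rw [← nt_transpose_eq, pow_two]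
    have := Matrix.l2_opNorm_conjTranspose_mul_self (Zᴴ)
    rw [Matrix.conjTranspose_conjTranspose, Matrix.l2_opNorm_conjTranspose] at this
    exact this
  calc ‖Z‖ ^ (2 * p) = ‖Z * Zᵀ‖ ^ p := by rw [h1, pow_mul]
    _ ≤ ‖(Z * Zᵀ) ^ p‖ := nt_norm_pow _ hsa p hp
    _ ≤ _ := nt_norm_le_trace _ (hpsd.pow p)

end Pool.Agent.NN
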