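import Mathlib
import Pool.Agent.Lib.MP_b8b239_pr.Basic

namespace Pool.Agent.NN

open Finset Matrix

/-- Entries of powers as sums over paths. -/
lemma te_pow_apply {ι : Type*} [Fintype ι] [DecidableEq ι] (N : Matrix ι ι ℝ) (m : ℕ) :
    ∀ a b : ι, (N ^ (m + 1)) a b = ∑ x : Fin m → ι,
      ∏ s : Fin (m + 1), N ((Fin.cons a x : Fin (m + 1) → ι) s)
        ((Fin.snoc x b : Fin (m + 1) → ι) s) := by
  induction m with
  | zero =>
    intro a b
    simp [Fin.snoc]
  | succ m ih =>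
    intro a b
    rw [pow_succ', Matrix.mul_apply]
    simp only [ih, Finset.mul_sum]
    rw [← Fintype.sum_prod_type']
    refine Fintype.sum_equiv (Fin.consEquiv (fun _ : Fin (m + 1) => ι)) _ _ ?_
    rintro ⟨c, x⟩
    change N a c * _ = ∏ s : Fin (m + 1 + 1), N ((Fin.cons a (Fin.cons c x : Fin (m + 1) → ι) :
      Fin (m + 1 + 1) → ι) s) ((Fin.snoc (Fin.cons c x : Fin (m + 1) → ι) b :
      Fin (m + 1 + 1) → ι) s)
    have h : (Fin.snoc (Fin.cons c x : Fin (m + 1) → ι) b : Fin (m + 1 + 1) → ι) =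
        Fin.cons c (Fin.snoc x b : Fin (m + 1) → ι) :=
      (Fin.cons_snoc_eq_snoc_cons c x b).symm
    rw [h, Fin.prod_univ_succ (fun s : Fin (m + 1 + 1) => _)]
    simp only [Fin.cons_zero, Fin.cons_succ]

/-- The trace of a power as a sum over closed paths. -/
lemma te_trace_pow {ι : Type*} [Fintype ι] [DecidableEq ι] (p : ℕ) [NeZero p]
    (N : Matrix ι ι ℝ) :
    Matrix.trace (N ^ p) = ∑ x : Fin p → ι, ∏ s : Fin p, N (x s) (x (s + 1)) := by
  obtain ⟨m, rfl⟩ : ∃ m, p = m + 1 := Nat.exists_eq_succ_of_ne_zero (NeZero.ne p)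
  rw [Matrix.trace]
  simp only [Matrix.diag_apply, te_pow_apply]
  rw [← Fintype.sum_prod_type']
  refine Fintype.sum_equiv (Fin.consEquiv (fun _ : Fin (m + 1) => ι)) _ _ ?_
  rintro ⟨c, x⟩
  refine Finset.prod_congr rfl fun s _ => ?_
  change N ((Fin.cons c x : Fin (m + 1) → ι) s) ((Fin.snoc x c : Fin (m + 1) → ι) s) =
    N ((Fin.cons c x : Fin (m + 1) → ι) s) ((Fin.cons c x : Fin (m + 1) → ι) (s + 1))
  congr 1
  refine Fin.lastCases ?_ (fun k => ?_) s
  · rw [Fin.snoc_last, Fin.last_add_one, Fin.cons_zero]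
  · rw [Fin.snoc_castSucc]
    have : (k.castSucc : Fin (m + 1)) + 1 = k.succ := Fin.coeSucc_eq_succ
    rw [this, Fin.cons_succ]

/-- Functions on the positions are pairs of functions. -/
def te_split (p : ℕ) (α : Type*) : ((Fin p → α) × (Fin p → α)) ≃ (Pos p → α) where
  toFun u := fun q => if q.2 then u.2 q.1 else u.1 q.1
  invFun i := (fun s => i (s, false), fun s => i (s, true))
  left_inv u := by ext <;> simp
  right_inv i := by
    funext ⟨s, b⟩
    cases b <;> simp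

lemma te_sum_split {p : ℕ} {α : Type*} [Fintype α] (F : (Pos p → α) → ℝ) :
    ∑ i : Pos p → α, F i = ∑ i0 : Fin p → α, ∑ i1 : Fin p → α, F (te_split p α (i0, i1)) := by
  rw [← Fintype.sum_prod_type']
  exact (Equiv.sum_comp (te_split p α) F).symm

lemma te_split_false {p : ℕ} {α : Type*} (i0 i1 : Fin p → α) (s : Fin p) :
    te_split p α (i0, i1) (s, false) = i0 s := by simp [te_split]

lemma te_split_true {p : ℕ} {α : Type*} (i0 i1 : Fin p → α) (s : Fin p) :
    te_split p α (i0, i1) (s, true) = i1 s := by simp [te_split]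

lemma te_prod_pos {p : ℕ} (g : Pos p → ℝ) :
    ∏ q, g q = ∏ s : Fin p, g (s, true) * g (s, false) := by
  rw [Fintype.prod_prod_type]
  simp

lemma te_entry {ι κ : Type*} [Fintype ι] [DecidableEq ι] [Fintype κ]
    (P : Matrix ι ι ℝ) (X X' : Matrix ι κ ℝ) (x y : ι) :
    (P * X * X'ᵀ * P * X' * Xᵀ) x y =
      ∑ y0 : ι, ∑ al : κ, ∑ z : ι, ∑ w : ι, ∑ be : κ,
        P x y0 * X y0 al * X' z al * P z w * X' w be * X y be := by
  have h : P * X * X'ᵀ * P * X' * Xᵀ = P * (X * (X'ᵀ * (P * (X' * Xᵀ)))) := by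
    simp only [Matrix.mul_assoc]
  rw [h]
  simp only [Matrix.mul_apply, Matrix.transpose_apply, Finset.mul_sum]
  refine Finset.sum_congr rfl fun y0 _ => ?_
  refine Finset.sum_congr rfl fun al _ => ?_
  refine Finset.sum_congr rfl fun z _ => ?_
  refine Finset.sum_congr rfl fun w _ => ?_
  refine Finset.sum_congr rfl fun be _ => ?_
  ring

lemma te_prod_sum {p : ℕ} {α : Type*} [Fintype α] (F : Fin p → α → ℝ) :
    ∏ s, ∑ c, F s c = ∑ f : Fin p → α, ∏ s, F s (f s) := by
  rw [Finset.prod_univ_sum, Fintype.piFinset_univ]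

/-- The trace as an explicit sum over functions on `Fin p`. -/
lemma te_lhs {ι κ : Type*} [Fintype ι] [DecidableEq ι] [Fintype κ] (p : ℕ) [NeZero p]
    (P : Matrix ι ι ℝ) (X X' : Matrix ι κ ℝ) :
    Matrix.trace ((P * X * X'ᵀ * P * X' * Xᵀ) ^ p) =
      ∑ x : Fin p → ι, ∑ y0 : Fin p → ι, ∑ al : Fin p → κ, ∑ z : Fin p → ι,
        ∑ w : Fin p → ι, ∑ be : Fin p → κ, ∏ s : Fin p,
          P (x s) (y0 s) * X (y0 s) (al s) * X' (z s) (al s) * P (z s) (w s) * X' (w s) (be s) *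
            X (x (s + 1)) (be s) := by
  rw [te_trace_pow]
  refine Finset.sum_congr rfl fun x _ => ?_
  simp only [te_entry]
  rw [te_prod_sum]
  refine Finset.sum_congr rfl fun y0 _ => ?_
  rw [te_prod_sum]
  refine Finset.sum_congr rfl fun al _ => ?_
  rw [te_prod_sum]
  refine Finset.sum_congr rfl fun z _ => ?_
  rw [te_prod_sum]
  refine Finset.sum_congr rfl fun w _ => ?_
  rw [te_prod_sum]

/-- The shift of functions on `Fin p`. -/
lemma te_shift {ι : Type*} [Fintype ι] (p : ℕ) [NeZero p] (H : (Fin p → ι) → ℝ) :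
    ∑ i1 : Fin p → ι, H i1 = ∑ x : Fin p → ι, H (fun s => x (s + 1)) := by
  refine (Equiv.sum_comp ((Equiv.addRight (1 : Fin p)).symm.arrowCongr (Equiv.refl ι)) H).symm.trans
    ?_
  refine Finset.sum_congr rfl fun x _ => ?_
  congr 1

/-- TASK TraceExpand. -/
theorem trace_expand {ι κ : Type*} [Fintype ι] [DecidableEq ι] [Fintype κ] (p : ℕ) [NeZero p]
    (P : Matrix ι ι ℝ) (X X' : Matrix ι κ ℝ) :
    Matrix.trace ((P * X * X'ᵀ * P * X' * Xᵀ) ^ p) =
      ∑ i : Pos p → ι, ∑ a : Pos p → κ, ∑ i' : Pos p → ι,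
        (∏ s : Fin p, P (i (s, true)) (i (s + 1, false))) *
        (∏ s : Fin p, P (i' (s, false)) (i' (s, true))) *
        ((∏ q, X (i q) (a q)) * ∏ q, X' (i' q) (a q)) := by
  rw [te_lhs]
  symm
  rw [te_sum_split, Finset.sum_comm, te_shift]
  refine Finset.sum_congr rfl fun x _ => ?_
  refine Finset.sum_congr rfl fun y0 _ => ?_
  rw [te_sum_split]
  refine Finset.sum_congr rfl fun al _ => ?_
  simp only [te_sum_split (α := ι)]
  rw [Finset.sum_comm (s := (Finset.univ : Finset (Fin p → κ)))]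
  refine Finset.sum_congr rfl fun z _ => ?_
  rw [Finset.sum_comm (s := (Finset.univ : Finset (Fin p → κ)))]
  refine Finset.sum_congr rfl fun w _ => ?_
  refine Finset.sum_congr rfl fun be _ => ?_
  simp only [te_prod_pos, te_split_false, te_split_true]
  have h1 : ∏ s : Fin p, P (x (s + 1)) (y0 (s + 1)) = ∏ s : Fin p, P (x s) (y0 s) :=
    Equiv.prod_comp (Equiv.addRight (1 : Fin p)) (fun s => P (x s) (y0 s))
  rw [h1]
  simp only [← Finset.prod_mul_distrib]
  refine Finset.prod_congr rfl fun s _ => ?_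
  ring

end Pool.Agent.NN
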