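import Mathlib
import Pool.Agent.Lib.MP_b8b239_pr.Basic
import Pool.Agent.Lib.MP_b8b239_pr.GraphSum
import Pool.Agent.Lib.MP_b8b239_pr.NormTrace
import Pool.Agent.Lib.MP_b8b239_pr.TraceExpand
import Pool.Agent.Lib.MP_b8b239_pr.AvgProd
import Pool.Agent.Lib.MP_b8b239_pr.GfunLe
import Pool.Agent.Lib.MP_b8b239_pr.DimRed

/-!
# The moment bound
-/

namespace Pool.Agent.NN

open Finset Matrix
open scoped Classical Matrix.Norms.L2Operator

/-- `i` is constant on the fibres of `f`. -/
def CF {Q M C : Type*} (f : Q → M) (i : Q → C) : Prop := ∀ q q', f q = f q' → i q = i q'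

/-- Sums over the functions constant on the fibres of `f` are sums over functions on the range. -/
theorem ex_sum_cf {Q M C : Type*} [Fintype Q] [DecidableEq Q] [DecidableEq M] [Fintype C] (f : Q → M) (F : (Q → C) → ℝ) :
    ∑ i : Q → C, (if CF f i then F i else 0) =
      ∑ g : Set.range f → C, F (fun q => g (Set.rangeFactorization f q)) := by
  rw [← Finset.sum_filter]
  symm
  apply Finset.sum_bij (fun (g : Set.range f → C) _ => fun q => g (Set.rangeFactorization f q))
  · intro g _
    rw [Finset.mem_filter]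
    refine ⟨mem_univ _, ?_⟩
    intro q q' h
    have : Set.rangeFactorization f q = Set.rangeFactorization f q' := Subtype.ext h
    simp only [this]
  · intro g _ g' _ h
    funext x
    obtain ⟨m, q, rfl⟩ := x
    exact congrFun h q
  · intro i hi
    rw [Finset.mem_filter] at hi
    refine ⟨fun x => i x.2.choose, mem_univ _, ?_⟩
    funext q
    exact hi.2 _ _ (Exists.choose_spec (p := fun y => f y = f q) _)
  · intro g _
    rfl

theorem ex_pair_bound {n r p M : ℕ} (U : Matrix (Fin n) (Fin r) ℝ) (hU : Uᵀ * U = 1)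
    (P : Matrix (Fin n) (Fin n) ℝ) (hPU : P = U * Uᵀ)
    (e e' : Fin p → Pos p) (hee : ∀ g : Pos p → ℕ, ∑ q, g q = ∑ s, g (e s) + ∑ s, g (e' s))
    (f : Pos p → Fin M) (hf : EvenFib f) :
    |∑ i : Pos p → Fin n, (if CF f i then ∏ s, P (i (e s)) (i (e' s)) else 0)| ≤
      ∑ j : Pos p → Fin r, (if CF f j then (if ∀ s, j (e s) = j (e' s) then (1 : ℝ) else 0)
        else 0) := by
  rw [ex_sum_cf f (fun i : Pos p → Fin n => ∏ s, P (i (e s)) (i (e' s))),
    ex_sum_cf f (fun j : Pos p → Fin r => if ∀ s, j (e s) = j (e' s) then (1 : ℝ) else 0)]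
  set u : Fin n → EuclideanSpace ℝ (Fin r) := fun x => WithLp.toLp 2 (U x) with hu
  have hP : ∀ x y, P x y = inner ℝ (u x) (u y) := by
    intro x y
    rw [hPU, Matrix.mul_apply, hu]
    simp only [EuclideanSpace.inner_eq_star_dotProduct, dotProduct, Matrix.transpose_apply,
      star_trivial]
    apply Finset.sum_congr rfl
    intro l _
    ring
  have hpars : ∀ w : EuclideanSpace ℝ (Fin r), ∑ x, (inner ℝ (u x) w) ^ 2 = ‖w‖ ^ 2 := by
    intro w
    have h1 : ∀ x, inner ℝ (u x) w = (U *ᵥ w.ofLp) x := by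
      intro x
      simp only [hu, EuclideanSpace.inner_eq_star_dotProduct, star_trivial, Matrix.mulVec,
        dotProduct]
      apply Finset.sum_congr rfl
      intro l _
      ring
    simp_rw [h1]
    have h2 : ∑ x, (U *ᵥ w.ofLp) x ^ 2 = (U *ᵥ w.ofLp) ⬝ᵥ (U *ᵥ w.ofLp) := by
      simp [dotProduct, pow_two]
    rw [h2, Matrix.dotProduct_mulVec, Matrix.vecMul_mulVec, hU, Matrix.vecMul_one,
      EuclideanSpace.norm_sq_eq]
    simp [dotProduct, pow_two]
  have hdeg : ∀ v : Set.range f,
      (univ.filter fun s => Set.rangeFactorization f (e s) = v).card +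
      (univ.filter fun s => Set.rangeFactorization f (e' s) = v).card =
      (univ.filter fun q => f q = v.1).card := by
    intro v
    rw [Finset.card_filter, Finset.card_filter, Finset.card_filter,
      hee (fun q => if f q = v.1 then 1 else 0)]
    congr 1 <;>
    · apply Finset.sum_congr rfl
      intro s _
      simp only [Subtype.ext_iff, Set.rangeFactorization_coe]
  have := graph_sum_bound u hpars (K := Set.range f) (E := Fin p)
    (fun s => Set.rangeFactorization f (e s)) (fun s => Set.rangeFactorization f (e' s))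
    (by
      intro v
      rw [hdeg v]
      convert hf v.1)
    (by
      intro v
      rw [hdeg v]
      obtain ⟨m, q, hq⟩ := v
      apply Finset.card_pos.2
      exact ⟨q, by simp [hq]⟩)
  simp_rw [hP]
  refine this.trans (le_of_eq ?_)
  rw [Fintype.card_subtype, Finset.card_filter]
  push_cast
  rfl

theorem Gfun_eq {Q C : Type*} [Fintype Q] [DecidableEq Q] (M N : ℕ) (x : Q → C) :
    Gfun M N x = ∑ f : Q → Fin M, (if EvenFib f ∧ CF f x then ((N : ℝ)⁻¹) ^ numVals f else 0) := by
  unfold Gfun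
  have hu : ∀ (i1 i2 : Fintype (Q → Fin M)), @Finset.univ _ i1 = @Finset.univ _ i2 := by
    intro i1 i2
    rw [Subsingleton.elim i1 i2]
  refine Finset.sum_congr (hu _ _) fun f _ => ?_
  by_cases h : EvenFib f ∧ ∀ q q', f q = f q' → x q = x q'
  · rw [if_pos h, if_pos (show EvenFib f ∧ CF f x from h)]
  · rw [if_neg h, if_neg (show ¬ (EvenFib f ∧ CF f x) from h)]

/-- Reordering the sum over the free index functions. -/
theorem ex_sum_G {p M N : ℕ} {ι κ : Type*} [Fintype ι] [Fintype κ] (α : (Pos p → ι) → ℝ)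
    (a : Pos p → κ) :
    ∑ i : Pos p → ι, α i * Gfun M N (fun q => (i q, a q)) =
      ∑ f : Pos p → Fin M, (if EvenFib f ∧ CF f a then ((N : ℝ)⁻¹) ^ numVals f else 0) *
        ∑ i : Pos p → ι, (if CF f i then α i else 0) := by
  have h1 : ∀ i : Pos p → ι, Gfun M N (fun q => (i q, a q)) =
      ∑ f : Pos p → Fin M, (if EvenFib f ∧ CF f a then ((N : ℝ)⁻¹) ^ numVals f else 0) *
        (if CF f i then 1 else 0) := by
    intro i
    rw [Gfun_eq]
    apply Finset.sum_congr rfl
    intro f _
    have hiff : CF f (fun q => (i q, a q)) ↔ (CF f i ∧ CF f a) := by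
      constructor
      · intro h
        exact ⟨fun q q' hq => (Prod.ext_iff.1 (h q q' hq)).1,
          fun q q' hq => (Prod.ext_iff.1 (h q q' hq)).2⟩
      · rintro ⟨h1, h2⟩ q q' hq
        exact Prod.ext (h1 q q' hq) (h2 q q' hq)
    by_cases he : EvenFib f <;> by_cases hi : CF f i <;> by_cases ha : CF f a <;>
      simp [he, hi, ha, hiff]
  simp_rw [h1, Finset.mul_sum]
  rw [Finset.sum_comm]
  apply Finset.sum_congr rfl
  intro f _
  apply Finset.sum_congr rfl
  intro i _
  split_ifs <;> ring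

theorem ex_abs_le {n r p M N : ℕ} {κ : Type*} [Fintype κ] (U : Matrix (Fin n) (Fin r) ℝ)
    (hU : Uᵀ * U = 1) (P : Matrix (Fin n) (Fin n) ℝ) (hPU : P = U * Uᵀ)
    (e e' : Fin p → Pos p) (hee : ∀ g : Pos p → ℕ, ∑ q, g q = ∑ s, g (e s) + ∑ s, g (e' s))
    (a : Pos p → κ) :
    |∑ i : Pos p → Fin n, (∏ s, P (i (e s)) (i (e' s))) * Gfun M N (fun q => (i q, a q))| ≤
      ∑ j : Pos p → Fin r, (if ∀ s, j (e s) = j (e' s) then (1 : ℝ) else 0) *
        Gfun M N (fun q => (j q, a q)) := by
  rw [ex_sum_G, ex_sum_G]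
  refine (Finset.abs_sum_le_sum_abs _ _).trans (Finset.sum_le_sum fun f _ => ?_)
  rw [abs_mul]
  by_cases h : EvenFib f ∧ CF f a
  · rw [if_pos h]
    have h0 : (0 : ℝ) ≤ ((N : ℝ)⁻¹) ^ numVals f := by positivity
    rw [abs_of_nonneg h0]
    exact mul_le_mul_of_nonneg_left (ex_pair_bound U hU P hPU e e' hee f h.1) h0
  · rw [if_neg h]
    simp

/-- The average of the trace is at most the coordinate sum. -/
theorem ex_trace_avg {n r p M : ℕ} [NeZero p] {κ : Type*} [Fintype κ]
    (U : Matrix (Fin n) (Fin r) ℝ) (hU : Uᵀ * U = 1) (P : Matrix (Fin n) (Fin n) ℝ)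
    (hPU : P = U * Uᵀ) (hN : 0 < n * Fintype.card κ) :
    (∑ y : Fin M → (Fin n × κ) × Bool, ∑ y' : Fin M → (Fin n × κ) × Bool,
        Matrix.trace ((P * ptMat y * (ptMat y')ᵀ * P * ptMat y' * (ptMat y)ᵀ) ^ p)) /
        (Fintype.card (Fin M → (Fin n × κ) × Bool) : ℝ) ^ 2 ≤
      ∑ j : Pos p → Fin r, ∑ a : Pos p → κ, ∑ j' : Pos p → Fin r,
        (if Tau j ∧ Tau' j' then Gfun M (n * Fintype.card κ) (fun q => (j q, a q)) *
          Gfun M (n * Fintype.card κ) (fun q => (j' q, a q)) else 0) := by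
  set N := n * Fintype.card κ with hNdef
  set Y : ℝ := (Fintype.card (Fin M → (Fin n × κ) × Bool) : ℝ) with hY
  have hYpos : 0 < Y := by
    rw [hY]
    have : Nonempty (Fin n × κ) := by
      rw [← Fintype.card_pos_iff, Fintype.card_prod, Fintype.card_fin]
      exact hN
    exact_mod_cast Fintype.card_pos
  have havg : ∀ (i : Pos p → Fin n) (a : Pos p → κ),
      ∑ y : Fin M → (Fin n × κ) × Bool, ∏ q, ptMat y (i q) (a q) =
        Y * Gfun M N (fun q => (i q, a q)) := by
    intro i a
    have h := avg_prod_ptMat (ι := Fin n) (κ := κ) M (by rw [Fintype.card_fin]; exact hN) i a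
    rw [Fintype.card_fin] at h
    rw [← h, hY, mul_div_cancel₀]
    exact hYpos.ne'
  have hexp : (∑ y : Fin M → (Fin n × κ) × Bool, ∑ y' : Fin M → (Fin n × κ) × Bool,
        Matrix.trace ((P * ptMat y * (ptMat y')ᵀ * P * ptMat y' * (ptMat y)ᵀ) ^ p)) =
      Y ^ 2 * ∑ a : Pos p → κ,
        (∑ i : Pos p → Fin n, (∏ s : Fin p, P (i (s, true)) (i (s + 1, false))) *
          Gfun M N (fun q => (i q, a q))) *
        (∑ i : Pos p → Fin n, (∏ s : Fin p, P (i (s, false)) (i (s, true))) *
          Gfun M N (fun q => (i q, a q))) := by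
    have h1 : ∀ (y y' : Fin M → (Fin n × κ) × Bool),
        Matrix.trace ((P * ptMat y * (ptMat y')ᵀ * P * ptMat y' * (ptMat y)ᵀ) ^ p) =
        ∑ a : Pos p → κ, (∑ i : Pos p → Fin n,
          (∏ s : Fin p, P (i (s, true)) (i (s + 1, false))) * ∏ q, ptMat y (i q) (a q)) *
          (∑ i : Pos p → Fin n, (∏ s : Fin p, P (i (s, false)) (i (s, true))) *
            ∏ q, ptMat y' (i q) (a q)) := by
      intro y y'
      rw [trace_expand, Finset.sum_comm]
      apply Finset.sum_congr rfl
      intro a _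
      rw [Finset.sum_mul_sum]
      apply Finset.sum_congr rfl
      intro i _
      apply Finset.sum_congr rfl
      intro i' _
      ring
    simp_rw [h1]
    have h2 : ∀ y : Fin M → (Fin n × κ) × Bool,
        (∑ y' : Fin M → (Fin n × κ) × Bool, ∑ a : Pos p → κ, (∑ i : Pos p → Fin n,
          (∏ s : Fin p, P (i (s, true)) (i (s + 1, false))) * ∏ q, ptMat y (i q) (a q)) *
          (∑ i : Pos p → Fin n, (∏ s : Fin p, P (i (s, false)) (i (s, true))) *
            ∏ q, ptMat y' (i q) (a q))) =
        ∑ a : Pos p → κ, (∑ i : Pos p → Fin n,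
          (∏ s : Fin p, P (i (s, true)) (i (s + 1, false))) * ∏ q, ptMat y (i q) (a q)) *
          (Y * ∑ i : Pos p → Fin n, (∏ s : Fin p, P (i (s, false)) (i (s, true))) *
            Gfun M N (fun q => (i q, a q))) := by
      intro y
      rw [Finset.sum_comm]
      apply Finset.sum_congr rfl
      intro a _
      rw [← Finset.mul_sum, Finset.sum_comm]
      congr 1
      rw [Finset.mul_sum]
      apply Finset.sum_congr rfl
      intro i _
      rw [← Finset.mul_sum, havg]
      ring
    simp_rw [h2]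
    rw [Finset.sum_comm, Finset.mul_sum]
    apply Finset.sum_congr rfl
    intro a _
    rw [← Finset.sum_mul, Finset.sum_comm]
    have h3 : ∑ i : Pos p → Fin n, ∑ y : Fin M → (Fin n × κ) × Bool,
        (∏ s : Fin p, P (i (s, true)) (i (s + 1, false))) * ∏ q, ptMat y (i q) (a q) =
        Y * ∑ i : Pos p → Fin n, (∏ s : Fin p, P (i (s, true)) (i (s + 1, false))) *
          Gfun M N (fun q => (i q, a q)) := by
      rw [Finset.mul_sum]
      apply Finset.sum_congr rfl
      intro i _
      rw [← Finset.mul_sum, havg]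
      ring
    rw [h3]
    ring
  rw [hexp, mul_comm, mul_div_assoc, div_self (pow_ne_zero 2 hYpos.ne'), mul_one]
  have hrhs : ∑ j : Pos p → Fin r, ∑ a : Pos p → κ, ∑ j' : Pos p → Fin r,
        (if Tau j ∧ Tau' j' then Gfun M N (fun q => (j q, a q)) *
          Gfun M N (fun q => (j' q, a q)) else 0) =
      ∑ a : Pos p → κ,
        (∑ j : Pos p → Fin r, (if ∀ s : Fin p, j (s, true) = j (s + 1, false)
          then (1 : ℝ) else 0) * Gfun M N (fun q => (j q, a q))) *
        (∑ j : Pos p → Fin r, (if ∀ s : Fin p, j (s, false) = j (s, true)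
          then (1 : ℝ) else 0) * Gfun M N (fun q => (j q, a q))) := by
    rw [Finset.sum_comm]
    apply Finset.sum_congr rfl
    intro a _
    rw [Finset.sum_mul_sum]
    apply Finset.sum_congr rfl
    intro j _
    apply Finset.sum_congr rfl
    intro j' _
    by_cases h1 : ∀ s : Fin p, j (s, true) = j (s + 1, false) <;>
      by_cases h2 : ∀ s : Fin p, j' (s, false) = j' (s, true)
    · rw [if_pos (show Tau j ∧ Tau' j' from ⟨h1, h2⟩), if_pos h1, if_pos h2]; ring
    · rw [if_neg (fun h : Tau j ∧ Tau' j' => h2 h.2), if_neg h2]; ring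
    · rw [if_neg (fun h : Tau j ∧ Tau' j' => h1 h.1), if_neg h1]; ring
    · rw [if_neg (fun h : Tau j ∧ Tau' j' => h1 h.1), if_neg h1]; ring
  rw [hrhs]
  apply Finset.sum_le_sum
  intro a _
  refine (le_abs_self _).trans ?_
  rw [abs_mul]
  refine mul_le_mul ?_ ?_ (abs_nonneg _) ?_
  · exact ex_abs_le U hU P hPU (fun s => (s, true)) (fun s => (s + 1, false))
      (fun g => by
        rw [Fintype.sum_prod_type]
        simp only [Fintype.sum_bool, Finset.sum_add_distrib]
        congr 1
        exact (Equiv.sum_comp (Equiv.addRight (1 : Fin p)) (fun s => g (s, false))).symm) a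
  · exact ex_abs_le U hU P hPU (fun s => (s, false)) (fun s => (s, true))
      (fun g => by
        rw [Fintype.sum_prod_type]
        simp only [Fintype.sum_bool, Finset.sum_add_distrib]
        ring) a
  · exact (abs_nonneg _).trans (ex_abs_le U hU P hPU (fun s => (s, true)) (fun s => (s + 1, false))
      (fun g => by
        rw [Fintype.sum_prod_type]
        simp only [Fintype.sum_bool, Finset.sum_add_distrib]
        congr 1
        exact (Equiv.sum_comp (Equiv.addRight (1 : Fin p)) (fun s => g (s, false))).symm) a)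

end Pool.Agent.NN
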