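import Mathlib
import Pool.Agent.Lib.MP_b8b239_pr.Basic

namespace Pool.Agent.NN

open Finset Matrix
open scoped Classical

/-- The matrix with a single entry `± 1` in block `B`, at position `v.1`, with sign `v.2`. -/
noncomputable def poi_en {n ζ b : ℕ} (B : Fin n × Fin ζ) (v : Fin b × Bool) :
    Matrix (Fin n) (Fin ζ × Fin b) ℝ :=
  fun x c => if B.1 = x ∧ B.2 = c.1 ∧ v.1 = c.2 then sgn v.2 else 0

lemma poi_en_flip {n ζ b : ℕ} (B : Fin n × Fin ζ) (v : Fin b × Bool) :
    poi_en B (v.1, !v.2) = - poi_en B v := by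
  ext x c
  rw [Matrix.neg_apply]
  unfold poi_en
  by_cases h : B.1 = x ∧ B.2 = c.1 ∧ v.1 = c.2
  · rw [if_pos h, if_pos h]
    unfold sgn
    cases v.2 <;> simp
  · rw [if_neg h, if_neg h, neg_zero]

lemma poi_stack {n ζ b : ℕ} (ω : Fin n → Fin ζ → Fin b × Bool) :
    stack ω = ∑ B : Fin n × Fin ζ, poi_en B (ω B.1 B.2) := by
  ext x c
  rw [Matrix.sum_apply, Finset.sum_eq_single (x, c.1)]
  · unfold stack poi_en
    simp
  · rintro ⟨i, j⟩ _ hne
    unfold poi_en
    rw [if_neg]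
    rintro ⟨h1, h2, -⟩
    exact hne (Prod.ext h1 h2)
  · intro h
    exact absurd (Finset.mem_univ _) h

/-- Splitting a marked cell into its block and its position and sign. -/
def poi_split (n ζ b : ℕ) :
    ((Fin n × (Fin ζ × Fin b)) × Bool) ≃ ((Fin n × Fin ζ) × (Fin b × Bool)) where
  toFun y := ((y.1.1, y.1.2.1), (y.1.2.2, y.2))
  invFun z := ((z.1.1, (z.1.2, z.2.1)), z.2.2)
  left_inv _ := rfl
  right_inv _ := rfl

lemma poi_ptMat {n ζ b M : ℕ} (y : Fin M → (Fin n × (Fin ζ × Fin b)) × Bool) :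
    ptMat y = ∑ m, poi_en (poi_split n ζ b (y m)).1 (poi_split n ζ b (y m)).2 := by
  ext x c
  rw [Matrix.sum_apply]
  unfold ptMat poi_en poi_split
  refine Finset.sum_congr rfl fun m _ => ?_
  simp only [Equiv.coe_fn_mk]
  by_cases h : (y m).1 = (x, c)
  · rw [if_pos h, if_pos]
    rw [h]
    exact ⟨rfl, rfl, rfl⟩
  · rw [if_neg h, if_neg]
    rintro ⟨h1, h2, h3⟩
    exact h (Prod.ext h1 (Prod.ext h2 h3))

/-- Extending a section of `l` to a bijection. -/
lemma poi_equiv {A B : Type*} [Fintype A] [Fintype B] [DecidableEq B] (hc : Fintype.card B = Fintype.card A)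
    (l : A → B) : ∃ φ : B ≃ A, ∀ x ∈ univ.image l, l (φ x) = x := by
  have h1 : ∀ x : B, ∃ a : A, x ∈ univ.image l → l a = x := by
    intro x
    by_cases hx : x ∈ univ.image l
    · obtain ⟨a, -, ha⟩ := Finset.mem_image.1 hx
      exact ⟨a, fun _ => ha⟩
    · have : 0 < Fintype.card A := by
        rw [← hc]
        exact Fintype.card_pos_iff.2 ⟨x⟩
      obtain ⟨a⟩ := Fintype.card_pos_iff.1 this
      exact ⟨a, fun h => absurd h hx⟩
  choose f hf using h1
  obtain ⟨g, hg⟩ := Finset.exists_equiv_extend_of_card_eq (α := B) (β := A) (t := univ)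
    (by rw [hc]; rfl) (s := univ.image l) (f := f) (Finset.subset_univ _)
    (by
      intro x hx y hy hxy
      rw [← hf x hx, ← hf y hy, hxy])
  let e : {a // a ∈ (univ : Finset A)} ≃ A := Equiv.subtypeUnivEquiv (fun a => Finset.mem_univ a)
  refine ⟨g.trans e, fun x hx => ?_⟩
  have h2 : (g.trans e) x = f x := hg x hx
  rw [h2]
  exact hf x hx

/-- For a fixed assignment of blocks. -/
lemma poi_fixed {n ζ b : ℕ} (g : Seminorm ℝ (Matrix (Fin n) (Fin ζ × Fin b) ℝ))
    (l : Fin (n * ζ) → Fin n × Fin ζ) :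
    ∑ w : Fin n × Fin ζ → Fin b × Bool, g (∑ B ∈ univ.image l, poi_en B (w B)) ≤
      ∑ v : Fin (n * ζ) → Fin b × Bool, g (∑ m, poi_en (l m) (v m)) := by
  obtain ⟨φ, hφ⟩ := poi_equiv (by simp) l
  -- the points used by `φ`
  let R : Finset (Fin (n * ζ)) := (univ.image l).image φ
  let fl : (Fin (n * ζ) → Fin b × Bool) → (Fin (n * ζ) → Fin b × Bool) :=
    fun v m => if m ∈ R then v m else ((v m).1, !(v m).2)
  have hfl : Function.Involutive fl := by
    intro v
    funext m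
    change (if m ∈ R then fl v m else ((fl v m).1, !(fl v m).2)) = v m
    by_cases hm : m ∈ R
    · rw [if_pos hm]
      change (if m ∈ R then v m else _) = v m
      rw [if_pos hm]
    · rw [if_neg hm]
      have : fl v m = ((v m).1, !(v m).2) := by
        change (if m ∈ R then v m else _) = _
        rw [if_neg hm]
      rw [this]
      simp
  have hsplit : ∀ v : Fin (n * ζ) → Fin b × Bool, ∑ m, poi_en (l m) (v m) =
      ∑ m ∈ R, poi_en (l m) (v m) + ∑ m ∈ Rᶜ, poi_en (l m) (v m) := fun v =>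
    (Finset.sum_add_sum_compl R _).symm
  have hfl1 : ∀ v : Fin (n * ζ) → Fin b × Bool, ∑ m ∈ R, poi_en (l m) (fl v m) =
      ∑ m ∈ R, poi_en (l m) (v m) := by
    intro v
    refine Finset.sum_congr rfl fun m hm => ?_
    change poi_en (l m) (if m ∈ R then v m else _) = _
    rw [if_pos hm]
  have hfl2 : ∀ v : Fin (n * ζ) → Fin b × Bool, ∑ m ∈ Rᶜ, poi_en (l m) (fl v m) =
      - ∑ m ∈ Rᶜ, poi_en (l m) (v m) := by
    intro v
    rw [← Finset.sum_neg_distrib]
    refine Finset.sum_congr rfl fun m hm => ?_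
    change poi_en (l m) (if m ∈ R then v m else _) = _
    rw [if_neg (Finset.mem_compl.1 hm), poi_en_flip]
  have hR : ∀ v : Fin (n * ζ) → Fin b × Bool, ∑ m ∈ R, poi_en (l m) (v m) =
      ∑ B ∈ univ.image l, poi_en B (v (φ B)) := by
    intro v
    rw [Finset.sum_image (fun x _ y _ h => φ.injective h)]
    refine Finset.sum_congr rfl fun B hB => ?_
    rw [hφ B hB]
  have hL : ∑ w : Fin n × Fin ζ → Fin b × Bool, g (∑ B ∈ univ.image l, poi_en B (w B)) =
      ∑ v : Fin (n * ζ) → Fin b × Bool, g (∑ m ∈ R, poi_en (l m) (v m)) := by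
    rw [← Equiv.sum_comp (Equiv.arrowCongr φ.symm (Equiv.refl (Fin b × Bool)))
      (fun w : Fin n × Fin ζ → Fin b × Bool => g (∑ B ∈ univ.image l, poi_en B (w B)))]
    refine Finset.sum_congr rfl fun v _ => ?_
    rw [hR]
    rfl
  have hflip : ∑ v : Fin (n * ζ) → Fin b × Bool, g (∑ m, poi_en (l m) (v m)) =
      ∑ v : Fin (n * ζ) → Fin b × Bool, g (∑ m, poi_en (l m) (fl v m)) :=
    (Equiv.sum_comp (hfl.toPerm fl) (fun v => g (∑ m, poi_en (l m) (v m)))).symm
  have h2 : 2 * ∑ v : Fin (n * ζ) → Fin b × Bool, g (∑ m ∈ R, poi_en (l m) (v m)) ≤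
      ∑ v : Fin (n * ζ) → Fin b × Bool, g (∑ m, poi_en (l m) (v m)) +
      ∑ v : Fin (n * ζ) → Fin b × Bool, g (∑ m, poi_en (l m) (fl v m)) := by
    rw [Finset.mul_sum, ← Finset.sum_add_distrib]
    refine Finset.sum_le_sum fun v _ => ?_
    rw [hsplit v, hsplit (fl v), hfl1, hfl2]
    set a := ∑ m ∈ R, poi_en (l m) (v m)
    set h := ∑ m ∈ Rᶜ, poi_en (l m) (v m)
    calc 2 * g a = g ((2 : ℝ) • a) := by rw [map_smul_eq_mul]; norm_num
      _ = g ((a + h) + (a + -h)) := by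
        congr 1
        rw [two_smul]
        abel
      _ ≤ g (a + h) + g (a + -h) := map_add_le_add g _ _
  rw [hL]
  linarith

/-- The number of maps hitting a given value. -/
lemma poi_count {B : Type*} [Fintype B] [DecidableEq B] {M : ℕ} (x : B) :
    ((univ.filter (fun l : Fin M → B => x ∈ univ.image l)).card : ℝ) =
      (Fintype.card B : ℝ) ^ M - ((Fintype.card B : ℝ) - 1) ^ M := by
  have h1 : (univ.filter (fun l : Fin M → B => ¬ x ∈ univ.image l)) =
      Fintype.piFinset (fun _ : Fin M => univ.erase x) := by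
    ext l
    simp only [Finset.mem_filter, Finset.mem_univ, true_and, Finset.mem_image, not_exists,
      Fintype.mem_piFinset, Finset.mem_erase, and_true]
  have h2 := Finset.card_filter_add_card_filter_not (s := (univ : Finset (Fin M → B)))
    (fun l => x ∈ univ.image l)
  rw [h1, Fintype.card_piFinset] at h2
  simp only [Finset.prod_const, Finset.card_univ, Fintype.card_fin, Fintype.card_pi,
    Finset.card_erase_of_mem (Finset.mem_univ x)] at h2
  have h3 : 1 ≤ Fintype.card B := Fintype.card_pos_iff.2 ⟨x⟩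
  have h4 : ((Fintype.card B - 1 : ℕ) : ℝ) = (Fintype.card B : ℝ) - 1 := by
    rw [Nat.cast_sub h3, Nat.cast_one]
  have h5 : ((univ.filter (fun l : Fin M → B => x ∈ univ.image l)).card : ℝ) +
      ((Fintype.card B - 1 : ℕ) : ℝ) ^ M = (Fintype.card B : ℝ) ^ M := by
    exact_mod_cast h2
  rw [← h4]
  linarith

lemma poi_bernoulli (N : ℕ) (hN : 0 < N) : 2 * ((N : ℝ) - 1) ^ N ≤ (N : ℝ) ^ N := by
  obtain ⟨k, rfl⟩ : ∃ k, N = k + 1 := ⟨N - 1, by omega⟩
  have h0 : (((k + 1 : ℕ) : ℝ) - 1) = k := by push_cast; ring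
  rw [h0]
  rcases Nat.eq_zero_or_pos k with rfl | hk
  · simp
  have hk' : (0 : ℝ) < k := by exact_mod_cast hk
  have h1 : 1 + ((k + 1 : ℕ) : ℝ) * (1 / (k : ℝ)) ≤ (1 + 1 / (k : ℝ)) ^ (k + 1) :=
    one_add_mul_le_pow (by
      have : (0 : ℝ) ≤ 1 / (k : ℝ) := by positivity
      linarith) _
  have h2 : (2 : ℝ) ≤ 1 + ((k + 1 : ℕ) : ℝ) * (1 / (k : ℝ)) := by
    have : ((k + 1 : ℕ) : ℝ) * (1 / (k : ℝ)) = 1 + 1 / (k : ℝ) := by
      push_cast
      field_simp
    rw [this]
    have : (0 : ℝ) ≤ 1 / (k : ℝ) := by positivity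
    linarith
  have h3 : (((k + 1 : ℕ) : ℝ)) ^ (k + 1) = (1 + 1 / (k : ℝ)) ^ (k + 1) * (k : ℝ) ^ (k + 1) := by
    rw [← mul_pow]
    congr 1
    push_cast
    field_simp
  rw [h3]
  have h4 : (0 : ℝ) ≤ (k : ℝ) ^ (k + 1) := by positivity
  nlinarith [h1, h2, h4]

/-- TASK Poissonize. -/
theorem poissonize {n ζ b : ℕ} (hn : 0 < n) (hζ : 0 < ζ) (hb : 0 < b)
    (g : Seminorm ℝ (Matrix (Fin n) (Fin ζ × Fin b) ℝ)) :
    (∑ ω : Fin n → Fin ζ → Fin b × Bool, g (stack ω)) /
        (Fintype.card (Fin n → Fin ζ → Fin b × Bool) : ℝ) ≤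
      2 * ((∑ y : Fin (n * ζ) → (Fin n × (Fin ζ × Fin b)) × Bool, g (ptMat y)) /
        (Fintype.card (Fin (n * ζ) → (Fin n × (Fin ζ × Fin b)) × Bool) : ℝ)) := by
  set N := n * ζ with hN
  have hNpos : 0 < N := Nat.mul_pos hn hζ
  have hcB : Fintype.card (Fin n × Fin ζ) = N := by simp [hN]
  -- the sum over outcomes
  have hΩ : ∑ ω : Fin n → Fin ζ → Fin b × Bool, g (stack ω) =
      ∑ w : Fin n × Fin ζ → Fin b × Bool, g (∑ B, poi_en B (w B)) := by
    rw [← Equiv.sum_comp (Equiv.curry (Fin n) (Fin ζ) (Fin b × Bool))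
      (fun ω : Fin n → Fin ζ → Fin b × Bool => g (stack ω))]
    refine Finset.sum_congr rfl fun w _ => ?_
    rw [poi_stack]
    rfl
  -- the sum over the points
  have hY : ∑ y : Fin N → (Fin n × (Fin ζ × Fin b)) × Bool, g (ptMat y) =
      ∑ l : Fin N → Fin n × Fin ζ, ∑ v : Fin N → Fin b × Bool,
        g (∑ m, poi_en (l m) (v m)) := by
    rw [← Fintype.sum_prod_type' (f := fun (l : Fin N → Fin n × Fin ζ)
      (v : Fin N → Fin b × Bool) => g (∑ m, poi_en (l m) (v m)))]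
    let e : (Fin N → (Fin n × (Fin ζ × Fin b)) × Bool) ≃
        (Fin N → Fin n × Fin ζ) × (Fin N → Fin b × Bool) :=
      (Equiv.arrowCongr (Equiv.refl (Fin N)) (poi_split n ζ b)).trans
        (Equiv.arrowProdEquivProdArrow _ _ _)
    rw [← Equiv.sum_comp e]
    refine Finset.sum_congr rfl fun y _ => ?_
    rw [poi_ptMat]
    rfl
  set K : ℝ := (N : ℝ) ^ N - ((N : ℝ) - 1) ^ N with hK
  have hKge : (N : ℝ) ^ N ≤ 2 * K := by
    have := poi_bernoulli N hNpos
    rw [hK]
    linarith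
  have hK0 : 0 ≤ K := by
    have : (0 : ℝ) ≤ (N : ℝ) ^ N := by positivity
    linarith
  have hkey : K * ∑ w : Fin n × Fin ζ → Fin b × Bool, g (∑ B, poi_en B (w B)) ≤
      ∑ y : Fin N → (Fin n × (Fin ζ × Fin b)) × Bool, g (ptMat y) := by
    rw [hY]
    calc K * ∑ w : Fin n × Fin ζ → Fin b × Bool, g (∑ B, poi_en B (w B))
        = ∑ w : Fin n × Fin ζ → Fin b × Bool,
            g (∑ l : Fin N → Fin n × Fin ζ, ∑ B ∈ univ.image l, poi_en B (w B)) := by
          rw [Finset.mul_sum]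
          refine Finset.sum_congr rfl fun w _ => ?_
          have h1 : ∑ l : Fin N → Fin n × Fin ζ, ∑ B ∈ univ.image l, poi_en B (w B) =
              K • ∑ B, poi_en B (w B) := by
            have h2 : ∀ l : Fin N → Fin n × Fin ζ, ∑ B ∈ univ.image l, poi_en B (w B) =
                ∑ B, if B ∈ univ.image l then poi_en B (w B) else 0 := by
              intro l
              rw [Finset.sum_ite_mem, Finset.univ_inter]
            simp only [h2]
            rw [Finset.sum_comm, Finset.smul_sum]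
            refine Finset.sum_congr rfl fun B _ => ?_
            rw [← Finset.sum_filter, Finset.sum_const, ← Nat.cast_smul_eq_nsmul ℝ, poi_count,
              hcB]
          rw [h1, map_smul_eq_mul, Real.norm_of_nonneg hK0]
      _ ≤ ∑ w : Fin n × Fin ζ → Fin b × Bool,
            ∑ l : Fin N → Fin n × Fin ζ, g (∑ B ∈ univ.image l, poi_en B (w B)) := by
          refine Finset.sum_le_sum fun w _ => ?_
          exact Finset.le_sum_of_subadditive g (map_zero g).le (fun x y => map_add_le_add g x y) _ _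
      _ = ∑ l : Fin N → Fin n × Fin ζ, ∑ w : Fin n × Fin ζ → Fin b × Bool,
            g (∑ B ∈ univ.image l, poi_en B (w B)) := Finset.sum_comm
      _ ≤ _ := Finset.sum_le_sum fun l _ => poi_fixed g l
  have hcΩ : (Fintype.card (Fin n → Fin ζ → Fin b × Bool) : ℝ) = (((b * 2 : ℕ) : ℝ)) ^ N := by
    have : Fintype.card (Fin n → Fin ζ → Fin b × Bool) = (b * 2) ^ N := by
      simp only [Fintype.card_pi, Finset.prod_const, Finset.card_univ, Fintype.card_fin,
        Fintype.card_prod, Fintype.card_bool]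
      rw [← pow_mul, hN, mul_comm ζ n]
    rw [this]
    push_cast
    ring
  have hcY : (Fintype.card (Fin N → (Fin n × (Fin ζ × Fin b)) × Bool) : ℝ) =
      (N : ℝ) ^ N * (((b * 2 : ℕ) : ℝ)) ^ N := by
    have : Fintype.card (Fin N → (Fin n × (Fin ζ × Fin b)) × Bool) = (N * (b * 2)) ^ N := by
      simp only [Fintype.card_pi, Finset.prod_const, Finset.card_univ, Fintype.card_fin,
        Fintype.card_prod, Fintype.card_bool]
      congr 1
      rw [hN]
      ring
    rw [this]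
    push_cast
    ring
  rw [hΩ, hcΩ, hcY]
  have hNr : (0 : ℝ) < (N : ℝ) ^ N := by
    have : (0 : ℝ) < N := by exact_mod_cast hNpos
    positivity
  have hbr : (0 : ℝ) < (((b * 2 : ℕ) : ℝ)) ^ N := by
    have : (0 : ℝ) < ((b * 2 : ℕ) : ℝ) := by exact_mod_cast (by omega : 0 < b * 2)
    positivity
  have hS0 : 0 ≤ ∑ w : Fin n × Fin ζ → Fin b × Bool, g (∑ B, poi_en B (w B)) :=
    Finset.sum_nonneg fun w _ => apply_nonneg g _
  rw [← mul_div_assoc, div_le_div_iff₀ hbr (mul_pos hNr hbr)]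
  set S := ∑ w : Fin n × Fin ζ → Fin b × Bool, g (∑ B, poi_en B (w B))
  set T := ∑ y : Fin N → (Fin n × (Fin ζ × Fin b)) × Bool, g (ptMat y)
  have h1 : S * (N : ℝ) ^ N ≤ 2 * T := by nlinarith [hkey, hKge, hS0]
  calc S * ((N : ℝ) ^ N * (((b * 2 : ℕ) : ℝ)) ^ N)
      = (S * (N : ℝ) ^ N) * (((b * 2 : ℕ) : ℝ)) ^ N := by ring
    _ ≤ 2 * T * (((b * 2 : ℕ) : ℝ)) ^ N := mul_le_mul_of_nonneg_right h1 hbr.le

end Pool.Agent.NN
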