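import Mathlib
import Pool.Agent.Lib.MP_b8b239_pr.Basic
import Pool.Agent.Lib.MP_b8b239_pr.TraceExpand

namespace Pool.Agent.NN

open Finset Matrix
open scoped Classical Matrix.Norms.L2Operator

theorem sc_prod_even {Q C : Type*} [Fintype Q] (R : C → Bool) (x : Q → C)
    (hx : EvenFib x) : ∏ q, sgn (R (x q)) = 1 := by
  rw [Finset.prod_comp (fun c => sgn (R c)) x]
  refine Finset.prod_eq_one fun c _ => ?_
  have h := hx c
  obtain ⟨k, hk⟩ := h
  have h1 : sgn (R c) ^ 2 = 1 := by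
    cases R c <;> simp [sgn]
  rw [hk, ← two_mul, pow_mul, h1, one_pow]

theorem sc_sum_odd {Q C : Type*} [Fintype Q] [Fintype C] [DecidableEq C] (x : Q → C)
    (hx : ¬ EvenFib x) : ∑ R : C → Bool, ∏ q, sgn (R (x q)) = 0 := by
  obtain ⟨c, hc⟩ := not_forall.1 hx
  rw [Nat.not_even_iff_odd] at hc
  let T : (C → Bool) → (C → Bool) := fun R y => xor (R y) (decide (y = c))
  have hT : Function.Involutive T := by
    intro R
    funext y
    simp [T]
  have h1 : ∀ R : C → Bool, ∏ q, sgn (T R (x q)) = - ∏ q, sgn (R (x q)) := by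
    intro R
    have h2 : ∀ q, sgn (T R (x q)) = (if x q = c then (-1 : ℝ) else 1) * sgn (R (x q)) := by
      intro q
      by_cases h : x q = c
      · simp only [T, h, decide_true, Bool.xor_true, if_true]
        cases R c <;> simp [sgn]
      · simp [T, h]
    have h3 : ∏ q, (if x q = c then (-1 : ℝ) else 1) = -1 := by
      rw [Finset.prod_ite, Finset.prod_const, Finset.prod_const_one, mul_one]
      convert hc.neg_one_pow
    rw [Finset.prod_congr rfl (fun q _ => h2 q), Finset.prod_mul_distrib, h3, neg_one_mul]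
  have h3 : ∑ R : C → Bool, ∏ q, sgn (R (x q)) = ∑ R : C → Bool, ∏ q, sgn (T R (x q)) :=
    (Fintype.sum_equiv hT.toPerm _ _ (fun R => rfl)).symm
  rw [Finset.sum_congr rfl (fun R _ => h1 R), Finset.sum_neg_distrib] at h3
  linarith

theorem sc_sum {Q : Type*} [Fintype Q] {d : ℕ} (i a : Q → Fin d) :
    ∑ R : Fin d → Fin d → Bool, ∏ q, signMat R (i q) (a q) =
      if EvenFib (fun q => (i q, a q)) then
        (Fintype.card (Fin d → Fin d → Bool) : ℝ) else 0 := by
  have h1 : ∑ R : Fin d → Fin d → Bool, ∏ q, signMat R (i q) (a q) =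
      ∑ R : Fin d × Fin d → Bool, ∏ q, sgn (R ((fun q => (i q, a q)) q)) :=
    Fintype.sum_equiv (Equiv.curry (Fin d) (Fin d) Bool).symm _ _ (fun R => rfl)
  rw [h1]
  split_ifs with h
  · rw [Finset.sum_congr rfl (fun R _ => sc_prod_even R _ h)]
    simp only [Finset.sum_const, Finset.card_univ, nsmul_eq_mul, mul_one]
    rw [Fintype.card_congr (Equiv.curry (Fin d) (Fin d) Bool).symm]
  · exact sc_sum_odd _ h

theorem sc_entry_aux {d : ℕ} (M : Matrix (Fin d) (Fin d) ℝ) (v : EuclideanSpace ℝ (Fin d))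
    (i : Fin d) : ‖(M *ᵥ v.ofLp) i‖ ≤ ‖M‖ * ‖v‖ := by
  have h := Matrix.l2_opNorm_mulVec M v
  refine le_trans ?_ h
  exact PiLp.norm_apply_le ((EuclideanSpace.equiv (Fin d) ℝ).symm (M *ᵥ v.ofLp)) i

theorem sc_entry_le {d : ℕ} (M : Matrix (Fin d) (Fin d) ℝ) (i : Fin d) : M i i ≤ ‖M‖ := by
  have h := sc_entry_aux M (EuclideanSpace.single i (1 : ℝ)) i
  rw [PiLp.norm_single, norm_one, mul_one] at h
  refine le_trans ?_ h
  refine le_trans (le_of_eq ?_) (le_abs_self _)
  simp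

theorem sc_trace_le {d : ℕ} (M : Matrix (Fin d) (Fin d) ℝ) : Matrix.trace M ≤ d * ‖M‖ := by
  unfold Matrix.trace
  calc ∑ i, M.diag i ≤ ∑ _i : Fin d, ‖M‖ := Finset.sum_le_sum fun i _ => sc_entry_le M i
    _ = d * ‖M‖ := by simp

theorem sc_norm_le (p d : ℕ) [NeZero p] (R R' : Matrix (Fin d) (Fin d) ℝ) :
    ‖((1 : Matrix (Fin d) (Fin d) ℝ) * R * R'ᵀ * 1 * R' * Rᵀ) ^ p‖ ≤
      ‖R‖ ^ (2 * p) * ‖R'‖ ^ (2 * p) := by
  have ht : ∀ A : Matrix (Fin d) (Fin d) ℝ, ‖Aᵀ‖ = ‖A‖ := by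
    intro A
    rw [← Matrix.conjTranspose_eq_transpose_of_trivial, Matrix.l2_opNorm_conjTranspose]
  refine (norm_pow_le' _ (Nat.pos_of_ne_zero (NeZero.ne p))).trans ?_
  rw [Matrix.one_mul, Matrix.mul_one, pow_mul, pow_mul, ← mul_pow]
  refine pow_le_pow_left₀ (norm_nonneg _) ?_ _
  calc ‖R * R'ᵀ * R' * Rᵀ‖ ≤ ‖R‖ * ‖R'ᵀ‖ * ‖R'‖ * ‖Rᵀ‖ := by
        refine (norm_mul_le _ _).trans (mul_le_mul_of_nonneg_right ?_ (norm_nonneg _))
        refine (norm_mul_le _ _).trans (mul_le_mul_of_nonneg_right ?_ (norm_nonneg _))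
        exact norm_mul_le _ _
    _ = ‖R‖ ^ 2 * ‖R'‖ ^ 2 := by
        rw [ht, ht]
        ring

/-- TASK SignCount. -/
theorem evenCount_le (p d : ℕ) [NeZero p] :
    (evenCount p d : ℝ) ≤ d * ((∑ R : Fin d → Fin d → Bool, ‖signMat R‖ ^ (2 * p)) /
      (Fintype.card (Fin d → Fin d → Bool) : ℝ)) ^ 2 := by
  set N : ℝ := (Fintype.card (Fin d → Fin d → Bool) : ℝ) with hN
  have hNpos : 0 < N := by
    rw [hN]
    exact_mod_cast Fintype.card_pos
  have hT1 : ∀ i : Pos p → Fin d, ∏ s : Fin p,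
      (1 : Matrix (Fin d) (Fin d) ℝ) (i (s, true)) (i (s + 1, false)) =
        if Tau i then 1 else 0 := by
    intro i
    by_cases h : Tau i
    · rw [if_pos h]
      refine Finset.prod_eq_one fun s _ => ?_
      rw [h s, Matrix.one_apply_eq]
    · rw [if_neg h]
      obtain ⟨s, hs⟩ := not_forall.1 h
      exact Finset.prod_eq_zero (Finset.mem_univ s) (Matrix.one_apply_ne hs)
  have hT2 : ∀ i : Pos p → Fin d, ∏ s : Fin p,
      (1 : Matrix (Fin d) (Fin d) ℝ) (i (s, false)) (i (s, true)) =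
        if Tau' i then 1 else 0 := by
    intro i
    by_cases h : Tau' i
    · rw [if_pos h]
      refine Finset.prod_eq_one fun s _ => ?_
      rw [h s, Matrix.one_apply_eq]
    · rw [if_neg h]
      obtain ⟨s, hs⟩ := not_forall.1 h
      exact Finset.prod_eq_zero (Finset.mem_univ s) (Matrix.one_apply_ne hs)
  have key : ∑ R : Fin d → Fin d → Bool, ∑ R' : Fin d → Fin d → Bool,
      Matrix.trace (((1 : Matrix (Fin d) (Fin d) ℝ) * signMat R * (signMat R')ᵀ * 1 *
        signMat R' * (signMat R)ᵀ) ^ p) = N ^ 2 * evenCount p d := by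
    simp only [trace_expand, hT1, hT2]
    have e1 : ∀ (F : (Fin d → Fin d → Bool) → (Fin d → Fin d → Bool) → (Pos p → Fin d) →
        (Pos p → Fin d) → (Pos p → Fin d) → ℝ),
        ∑ R, ∑ R', ∑ i, ∑ a, ∑ i', F R R' i a i' = ∑ i, ∑ a, ∑ i', ∑ R, ∑ R', F R R' i a i' := by
      intro F
      rw [Finset.sum_congr rfl (fun R _ => Finset.sum_comm), Finset.sum_comm]
      refine Finset.sum_congr rfl fun i _ => ?_
      rw [Finset.sum_congr rfl (fun R _ => Finset.sum_comm), Finset.sum_comm]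
      refine Finset.sum_congr rfl fun a _ => ?_
      rw [Finset.sum_congr rfl (fun R _ => Finset.sum_comm), Finset.sum_comm]
    rw [e1]
    have e2 : ∀ i a i' : Pos p → Fin d, ∑ R : Fin d → Fin d → Bool,
        ∑ R' : Fin d → Fin d → Bool, (if Tau i then (1 : ℝ) else 0) *
          (if Tau' i' then (1 : ℝ) else 0) *
          ((∏ q, signMat R (i q) (a q)) * ∏ q, signMat R' (i' q) (a q)) =
        N ^ 2 * (if Tau i ∧ Tau' i' ∧ EvenFib (fun q => (i q, a q)) ∧
          EvenFib (fun q => (i' q, a q)) then 1 else 0) := by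
      intro i a i'
      simp only [← Finset.mul_sum, ← Finset.sum_mul, sc_sum]
      rw [← hN]
      by_cases h1 : Tau i <;> by_cases h2 : Tau' i' <;>
        by_cases h3 : EvenFib (fun q => (i q, a q)) <;>
        by_cases h4 : EvenFib (fun q => (i' q, a q)) <;> simp [h1, h2, h3, h4, sq]
    rw [Finset.sum_congr rfl (fun i _ => Finset.sum_congr rfl (fun a _ =>
      Finset.sum_congr rfl (fun i' _ => e2 i a i')))]
    simp only [← Finset.mul_sum]
    congr 1
    unfold evenCount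
    rw [Finset.card_filter, Nat.cast_sum, Fintype.sum_prod_type]
    refine Finset.sum_congr rfl fun i _ => ?_
    rw [Fintype.sum_prod_type]
    refine Finset.sum_congr rfl fun a _ => ?_
    refine Finset.sum_congr rfl fun i' _ => ?_
    push_cast
    rfl
  have hle : ∑ R : Fin d → Fin d → Bool, ∑ R' : Fin d → Fin d → Bool,
      Matrix.trace (((1 : Matrix (Fin d) (Fin d) ℝ) * signMat R * (signMat R')ᵀ * 1 *
        signMat R' * (signMat R)ᵀ) ^ p) ≤
      d * (∑ R : Fin d → Fin d → Bool, ‖signMat R‖ ^ (2 * p)) ^ 2 := by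
    calc _ ≤ ∑ R : Fin d → Fin d → Bool, ∑ R' : Fin d → Fin d → Bool,
          d * (‖signMat R‖ ^ (2 * p) * ‖signMat R'‖ ^ (2 * p)) := by
          refine Finset.sum_le_sum fun R _ => Finset.sum_le_sum fun R' _ => ?_
          refine (sc_trace_le _).trans (mul_le_mul_of_nonneg_left ?_ (Nat.cast_nonneg d))
          exact sc_norm_le p d _ _
      _ = _ := by
          simp only [← Finset.mul_sum, ← Finset.sum_mul]
          rw [sq]
  rw [key] at hle
  rw [div_pow, mul_div_assoc', le_div_iff₀ (by positivity)]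
  linarith

end Pool.Agent.NN
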