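import Mathlib
import Pool.Agent.Lib.MP_b8b239_pr.Basic

namespace Pool.Agent.NN

open Finset Matrix
open scoped Classical Matrix.Norms.L2Operator

/-- Index set of the net. -/
abbrev SnIdx (d : ℕ) : Type := Fin d → Fin (4 * d + 1) × Fin (4 * d + 1)

/-- The point of the net. -/
noncomputable def snPt {d : ℕ} (c : SnIdx d) : EuclideanSpace ℝ (Fin d) :=
  WithLp.toLp 2 (fun i => (((c i).1 : ℕ) - ((c i).2 : ℕ) : ℝ) / (4 * Real.sqrt d))

/-- The weight of an index. -/
def snWt {d : ℕ} (c : SnIdx d) : ℕ := ∑ i, (((c i).1 : ℕ) + ((c i).2 : ℕ))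

/-- The net. -/
noncomputable def snNet (d : ℕ) : Finset (SnIdx d) :=
  univ.filter (fun c => snWt c ≤ 4 * d ∧ ‖snPt c‖ ≤ 1)

theorem sn_card (d : ℕ) : ((snNet d).card : ℝ) ≤ 64 ^ d := by
  have h1 : ((snNet d).card : ℝ) ≤ ∑ c : SnIdx d, (2 : ℝ) ^ (4 * d) * (1 / 2) ^ (snWt c) := by
    rw [Finset.card_eq_sum_ones]
    push_cast
    calc ∑ c ∈ snNet d, (1 : ℝ) ≤ ∑ c ∈ snNet d, (2 : ℝ) ^ (4 * d) * (1 / 2) ^ (snWt c) := by
          apply Finset.sum_le_sum
          intro c hc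
          have hc' : snWt c ≤ 4 * d := (Finset.mem_filter.mp hc).2.1
          have h2 : (2 : ℝ) ^ (snWt c) ≤ 2 ^ (4 * d) := pow_le_pow_right₀ (by norm_num) hc'
          have h3 : (0 : ℝ) < 2 ^ (snWt c) := by positivity
          rw [one_div, inv_pow, ← div_eq_mul_inv, le_div_iff₀ h3]
          linarith
      _ ≤ _ := Finset.sum_le_univ_sum_of_nonneg (fun c => by positivity)
  refine h1.trans ?_
  rw [← Finset.mul_sum]
  have h2 : ∑ c : SnIdx d, (1 / 2 : ℝ) ^ (snWt c) =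
      ∏ _i : Fin d, ∑ t : Fin (4 * d + 1) × Fin (4 * d + 1),
        (1 / 2 : ℝ) ^ ((t.1 : ℕ) + (t.2 : ℕ)) := by
    rw [Finset.prod_univ_sum]
    simp only [Fintype.piFinset_univ]
    apply Finset.sum_congr rfl
    intro c _
    rw [snWt, Finset.prod_pow_eq_pow_sum]
  rw [h2]
  have h3 : ∑ t : Fin (4 * d + 1) × Fin (4 * d + 1), (1 / 2 : ℝ) ^ ((t.1 : ℕ) + (t.2 : ℕ)) ≤ 4 := by
    have h4 : ∑ t : Fin (4 * d + 1), (1 / 2 : ℝ) ^ (t : ℕ) ≤ 2 := by
      rw [Fin.sum_univ_eq_sum_range (fun i => (1 / 2 : ℝ) ^ i)]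
      exact sum_geometric_two_le _
    have h4' : 0 ≤ ∑ t : Fin (4 * d + 1), (1 / 2 : ℝ) ^ (t : ℕ) := by positivity
    rw [Fintype.sum_prod_type]
    simp only [pow_add]
    simp only [← Finset.mul_sum, ← Finset.sum_mul]
    nlinarith
  calc (2 : ℝ) ^ (4 * d) * ∏ _i : Fin d, ∑ t : Fin (4 * d + 1) × Fin (4 * d + 1),
        (1 / 2 : ℝ) ^ ((t.1 : ℕ) + (t.2 : ℕ)) ≤ (2 : ℝ) ^ (4 * d) * ∏ _i : Fin d, 4 := by
        apply mul_le_mul_of_nonneg_left _ (by positivity)
        exact Finset.prod_le_prod (fun i _ => by positivity) (fun i _ => h3)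
    _ = 64 ^ d := by
        rw [Finset.prod_const, Finset.card_univ, Fintype.card_fin, pow_mul, ← mul_pow]
        norm_num

theorem sn_approx (d : ℕ) (hd : 0 < d) (u : EuclideanSpace ℝ (Fin d)) (hu : ‖u‖ = 1) :
    ∃ c ∈ snNet d, ‖u - snPt c‖ ≤ 1 / 4 := by
  have hd' : (0 : ℝ) < d := by exact_mod_cast hd
  set s : ℝ := Real.sqrt d with hs
  have hs0 : 0 < s := Real.sqrt_pos.mpr hd'
  have hss : s * s = d := Real.mul_self_sqrt hd'.le
  have hs1 : s ≤ d := by
    have : (1 : ℝ) ≤ d := by exact_mod_cast hd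
    nlinarith
  have hsum : ∑ i, (u i) ^ 2 = 1 := by
    have := EuclideanSpace.norm_eq u
    rw [hu] at this
    have h2 : (1 : ℝ) = ∑ i, ‖u i‖ ^ 2 := by
      have h3 := congrArg (fun t => t ^ 2) this
      simp only at h3
      rw [Real.sq_sqrt (by positivity)] at h3
      simpa using h3
    rw [h2]
    simp
  have hui : ∀ i, |u i| ≤ 1 := by
    intro i
    have h1 : (u i) ^ 2 ≤ ∑ i, (u i) ^ 2 :=
      Finset.single_le_sum (f := fun i => (u i) ^ 2) (fun j _ => sq_nonneg _) (Finset.mem_univ i)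
    rw [hsum] at h1
    exact abs_le_one_iff_mul_self_le_one.mpr (by nlinarith)
  have hf1 : ∀ i, (⌊4 * s * u i⌋₊ : ℝ) ≤ 4 * s * |u i| := by
    intro i
    rcases le_or_gt 0 (u i) with h | h
    · rw [abs_of_nonneg h]
      exact Nat.floor_le (by positivity)
    · have : ⌊4 * s * u i⌋₊ = 0 := Nat.floor_of_nonpos (by nlinarith)
      rw [this, Nat.cast_zero]
      positivity
  have hf2 : ∀ i, (⌊4 * s * (- u i)⌋₊ : ℝ) ≤ 4 * s * |u i| := by
    intro i
    rcases le_or_gt 0 (u i) with h | h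
    · have : ⌊4 * s * (- u i)⌋₊ = 0 := Nat.floor_of_nonpos (by nlinarith)
      rw [this, Nat.cast_zero]
      positivity
    · rw [abs_of_neg h]
      exact Nat.floor_le (by nlinarith)
  have hb1 : ∀ i, ⌊4 * s * u i⌋₊ < 4 * d + 1 := by
    intro i
    have h1 := hf1 i
    have h2 : 4 * s * |u i| ≤ 4 * d := by
      have := hui i
      have h0 : 0 ≤ |u i| := abs_nonneg _
      nlinarith
    have h3 : (⌊4 * s * u i⌋₊ : ℝ) ≤ ((4 * d : ℕ) : ℝ) := by push_cast; linarith
    have h4 : ⌊4 * s * u i⌋₊ ≤ 4 * d := by exact_mod_cast h3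
    omega
  have hb2 : ∀ i, ⌊4 * s * (- u i)⌋₊ < 4 * d + 1 := by
    intro i
    have h1 := hf2 i
    have h2 : 4 * s * |u i| ≤ 4 * d := by
      have := hui i
      have h0 : 0 ≤ |u i| := abs_nonneg _
      nlinarith
    have h3 : (⌊4 * s * (- u i)⌋₊ : ℝ) ≤ ((4 * d : ℕ) : ℝ) := by push_cast; linarith
    have h4 : ⌊4 * s * (- u i)⌋₊ ≤ 4 * d := by exact_mod_cast h3
    omega
  let c : SnIdx d := fun i => (⟨⌊4 * s * u i⌋₊, hb1 i⟩, ⟨⌊4 * s * (- u i)⌋₊, hb2 i⟩)
  have hci : ∀ i, snPt c i = ((⌊4 * s * u i⌋₊ : ℝ) - (⌊4 * s * (- u i)⌋₊ : ℝ)) / (4 * s) := by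
    intro i
    rfl
  -- the sum of the two floors
  have hsumf : ∀ i, (⌊4 * s * u i⌋₊ : ℝ) + (⌊4 * s * (- u i)⌋₊ : ℝ) ≤ 4 * s * |u i| := by
    intro i
    rcases le_or_gt 0 (u i) with h | h
    · have : ⌊4 * s * (- u i)⌋₊ = 0 := Nat.floor_of_nonpos (by nlinarith)
      rw [this]
      have := hf1 i
      simpa using this
    · have : ⌊4 * s * (u i)⌋₊ = 0 := Nat.floor_of_nonpos (by nlinarith)
      rw [this]
      have := hf2 i
      simpa using this
  have hdiff : ∀ i, |4 * s * u i - ((⌊4 * s * u i⌋₊ : ℝ) - (⌊4 * s * (- u i)⌋₊ : ℝ))| ≤ 1 := by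
    intro i
    rcases le_or_gt 0 (u i) with h | h
    · have h0 : ⌊4 * s * (- u i)⌋₊ = 0 := Nat.floor_of_nonpos (by nlinarith)
      have h1 : (⌊4 * s * u i⌋₊ : ℝ) ≤ 4 * s * u i := Nat.floor_le (by positivity)
      have h2 := Nat.lt_floor_add_one (4 * s * u i)
      rw [h0, abs_le]
      push_cast
      constructor <;> linarith
    · have h0 : ⌊4 * s * (u i)⌋₊ = 0 := Nat.floor_of_nonpos (by nlinarith)
      have h1 : (⌊4 * s * (- u i)⌋₊ : ℝ) ≤ 4 * s * (- u i) := Nat.floor_le (by nlinarith)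
      have h2 := Nat.lt_floor_add_one (4 * s * (- u i))
      rw [h0, abs_le]
      push_cast
      constructor <;> linarith
  have h4s : 0 < 4 * s := by positivity
  refine ⟨c, ?_, ?_⟩
  · rw [snNet, Finset.mem_filter]
    refine ⟨Finset.mem_univ _, ?_, ?_⟩
    · have h1 : (snWt c : ℝ) ≤ 4 * s * ∑ i, |u i| := by
        rw [snWt, Finset.mul_sum]
        push_cast
        exact Finset.sum_le_sum (fun i _ => hsumf i)
      have h2 : (∑ i, |u i|) ^ 2 ≤ d := by
        have := sq_sum_le_card_mul_sum_sq (s := (univ : Finset (Fin d))) (f := fun i => |u i|)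
        simp only [sq_abs, Finset.card_univ, Fintype.card_fin, hsum, mul_one] at this
        exact this
      have h3 : ∑ i, |u i| ≤ s := Real.le_sqrt_of_sq_le h2
      have h4 : (snWt c : ℝ) ≤ ((4 * d : ℕ) : ℝ) := by
        push_cast
        calc (snWt c : ℝ) ≤ 4 * s * ∑ i, |u i| := h1
          _ ≤ 4 * s * s := by apply mul_le_mul_of_nonneg_left h3 h4s.le
          _ = 4 * d := by rw [mul_assoc, hss]
      exact_mod_cast h4
    · rw [EuclideanSpace.norm_eq]
      rw [Real.sqrt_le_one]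
      rw [← hsum]
      apply Finset.sum_le_sum
      intro i _
      rw [hci i, Real.norm_eq_abs, sq_abs, ← sq_abs (u i), ← sq_abs (_ / _)]
      apply pow_le_pow_left₀ (abs_nonneg _)
      rw [abs_div, abs_of_pos h4s, div_le_iff₀ h4s]
      calc |(⌊4 * s * u i⌋₊ : ℝ) - (⌊4 * s * (- u i)⌋₊ : ℝ)|
          ≤ (⌊4 * s * u i⌋₊ : ℝ) + (⌊4 * s * (- u i)⌋₊ : ℝ) := by
            rw [abs_le]
            constructor <;> linarith [Nat.cast_nonneg (α := ℝ) ⌊4 * s * u i⌋₊,
              Nat.cast_nonneg (α := ℝ) ⌊4 * s * (- u i)⌋₊]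
        _ ≤ 4 * s * |u i| := hsumf i
        _ = |u i| * (4 * s) := by ring
  · rw [EuclideanSpace.norm_eq]
    apply Real.sqrt_le_iff.mpr
    refine ⟨by norm_num, ?_⟩
    have h1 : ∀ i, ‖(u - snPt c) i‖ ^ 2 ≤ (1 / (4 * s)) ^ 2 := by
      intro i
      rw [Real.norm_eq_abs]
      apply pow_le_pow_left₀ (abs_nonneg _)
      have h2 : (u - snPt c) i = (4 * s * u i - ((⌊4 * s * u i⌋₊ : ℝ) - (⌊4 * s * (- u i)⌋₊ : ℝ))) / (4 * s) := by
        rw [PiLp.sub_apply, hci i]
        field_simp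
      rw [h2, abs_div, abs_of_pos h4s]
      exact div_le_div_of_nonneg_right (hdiff i) h4s.le
    calc ∑ i, ‖(u - snPt c) i‖ ^ 2 ≤ ∑ _i : Fin d, (1 / (4 * s)) ^ 2 :=
          Finset.sum_le_sum (fun i _ => h1 i)
      _ = d * (1 / (4 * s)) ^ 2 := by
          rw [Finset.sum_const, Finset.card_univ, Fintype.card_fin, nsmul_eq_mul]
      _ = (1 / 4) ^ 2 := by
          rw [← hss]
          field_simp
      _ ≤ _ := le_refl _

/-- The bilinear form. -/
noncomputable def snForm {d : ℕ} (R : Fin d → Fin d → Bool) (x y : EuclideanSpace ℝ (Fin d)) : ℝ :=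
  ∑ i, ∑ j, x i * y j * sgn (R i j)

theorem sn_form_inner {d : ℕ} (R : Fin d → Fin d → Bool) (x y : EuclideanSpace ℝ (Fin d)) :
    inner ℝ x ((Matrix.toEuclideanLin (𝕜 := ℝ) ≪≫ₗ LinearMap.toContinuousLinearMap) (signMat R) y)
      = snForm R x y := by
  rw [snForm, PiLp.inner_apply]
  apply Finset.sum_congr rfl
  intro i _
  simp [Matrix.toEuclideanLin, signMat, Matrix.mulVec, dotProduct, Finset.sum_mul]
  apply Finset.sum_congr rfl
  intro j _
  ring

/-- The exponential moment. -/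
theorem sn_exp_moment {d : ℕ} (x y : EuclideanSpace ℝ (Fin d)) (hx : ‖x‖ ≤ 1) (hy : ‖y‖ ≤ 1)
    (l : ℝ) :
    ∑ R : Fin d → Fin d → Bool, Real.exp (l * snForm R x y) ≤
      (Fintype.card (Fin d → Fin d → Bool) : ℝ) * Real.exp (l ^ 2 / 2) := by
  have h1 : ∑ R : Fin d → Fin d → Bool, Real.exp (l * snForm R x y) =
      ∏ i : Fin d, ∏ j : Fin d, ∑ β : Bool, Real.exp (l * (x i * y j * sgn β)) := by
    have h2 : ∀ i : Fin d, ∏ j : Fin d, ∑ β : Bool, Real.exp (l * (x i * y j * sgn β)) =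
        ∑ r : Fin d → Bool, ∏ j : Fin d, Real.exp (l * (x i * y j * sgn (r j))) := by
      intro i
      rw [Finset.prod_univ_sum]
      simp only [Fintype.piFinset_univ]
    simp_rw [h2]
    rw [Finset.prod_univ_sum]
    simp only [Fintype.piFinset_univ]
    apply Finset.sum_congr rfl
    intro R _
    rw [snForm, Finset.mul_sum, Real.exp_sum]
    apply Finset.prod_congr rfl
    intro i _
    rw [Finset.mul_sum, Real.exp_sum]
  rw [h1]
  have h3 : ∀ i j : Fin d, ∑ β : Bool, Real.exp (l * (x i * y j * sgn β)) ≤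
      2 * Real.exp ((l ^ 2 / 2) * ((x i) ^ 2 * (y j) ^ 2)) := by
    intro i j
    have h4 : ∑ β : Bool, Real.exp (l * (x i * y j * sgn β)) = 2 * Real.cosh (l * (x i * y j)) := by
      rw [Fintype.sum_bool, Real.cosh_eq]
      simp [sgn]
      ring
    rw [h4]
    have h5 := Real.cosh_le_exp_half_sq (l * (x i * y j))
    have h6 : (l * (x i * y j)) ^ 2 / 2 = (l ^ 2 / 2) * ((x i) ^ 2 * (y j) ^ 2) := by ring
    rw [h6] at h5
    linarith
  calc ∏ i : Fin d, ∏ j : Fin d, ∑ β : Bool, Real.exp (l * (x i * y j * sgn β))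
      ≤ ∏ i : Fin d, ∏ j : Fin d, (2 * Real.exp ((l ^ 2 / 2) * ((x i) ^ 2 * (y j) ^ 2))) := by
        apply Finset.prod_le_prod
        · intro i _
          exact Finset.prod_nonneg (fun j _ => Finset.sum_nonneg (fun β _ => (Real.exp_pos _).le))
        · intro i _
          apply Finset.prod_le_prod
          · intro j _
            exact Finset.sum_nonneg (fun β _ => (Real.exp_pos _).le)
          · intro j _
            exact h3 i j
    _ = (Fintype.card (Fin d → Fin d → Bool) : ℝ) *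
          Real.exp ((l ^ 2 / 2) * ((∑ i, (x i) ^ 2) * (∑ j, (y j) ^ 2))) := by
        simp only [Finset.prod_mul_distrib, Finset.prod_const, Finset.card_univ, Fintype.card_fin,
          ← Real.exp_sum, ← Finset.mul_sum, Fintype.card_fun, Fintype.card_bool,
          ← Finset.sum_mul]
        push_cast
        ring
    _ ≤ (Fintype.card (Fin d → Fin d → Bool) : ℝ) * Real.exp (l ^ 2 / 2) := by
        apply mul_le_mul_of_nonneg_left _ (by positivity)
        apply Real.exp_le_exp.mpr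
        have hx2 : ∑ i, (x i) ^ 2 ≤ 1 := by
          have := EuclideanSpace.norm_eq x
          rw [this] at hx
          rw [Real.sqrt_le_one] at hx
          simpa using hx
        have hy2 : ∑ i, (y i) ^ 2 ≤ 1 := by
          have := EuclideanSpace.norm_eq y
          rw [this] at hy
          rw [Real.sqrt_le_one] at hy
          simpa using hy
        have hx0 : 0 ≤ ∑ i, (x i) ^ 2 := by positivity
        have hy0 : 0 ≤ ∑ i, (y i) ^ 2 := by positivity
        have h7 : (∑ i, (x i) ^ 2) * (∑ j, (y j) ^ 2) ≤ 1 := by nlinarith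
        have h8 : 0 ≤ l ^ 2 / 2 := by positivity
        nlinarith

/-- The moment of the bilinear form. -/
theorem sn_moment {d : ℕ} (x y : EuclideanSpace ℝ (Fin d)) (hx : ‖x‖ ≤ 1) (hy : ‖y‖ ≤ 1)
    (p : ℕ) (hp : 0 < p) :
    ∑ R : Fin d → Fin d → Bool, (snForm R x y) ^ (2 * p) ≤
      (Fintype.card (Fin d → Fin d → Bool) : ℝ) * (2 * (2 * p * Real.exp 1) ^ p) := by
  have hp' : (0 : ℝ) < p := by exact_mod_cast hp
  set l : ℝ := Real.sqrt (2 * p) with hl
  have hl0 : 0 < l := Real.sqrt_pos.mpr (by positivity)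
  have hl2 : l ^ 2 = 2 * p := Real.sq_sqrt (by positivity)
  have hl2p : l ^ (2 * p) = (2 * p : ℝ) ^ p := by rw [pow_mul, hl2]
  have key : ∀ t : ℝ, t ^ (2 * p) ≤
      (2 * p : ℝ) ^ p * (Real.exp (l * t) + Real.exp ((-l) * t)) := by
    intro t
    have h1 : |l * t| ^ (2 * p) / (Nat.factorial (2 * p) : ℝ) ≤ Real.exp |l * t| :=
      Real.pow_div_factorial_le_exp _ (abs_nonneg _) _
    have h2 : Real.exp |l * t| ≤ Real.exp (l * t) + Real.exp ((-l) * t) := by
      rcases le_or_gt 0 (l * t) with h | h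
      · rw [abs_of_nonneg h]
        linarith [Real.exp_pos ((-l) * t)]
      · rw [abs_of_neg h]
        have : -(l * t) = (-l) * t := by ring
        rw [this]
        linarith [Real.exp_pos (l * t)]
    have h3 : |l * t| ^ (2 * p) = (2 * p : ℝ) ^ p * t ^ (2 * p) := by
      rw [Even.pow_abs ⟨p, by ring⟩, mul_pow, hl2p]
    have h4 : (Nat.factorial (2 * p) : ℝ) ≤ (2 * p : ℝ) ^ p * (2 * p : ℝ) ^ p := by
      have h5 : Nat.factorial (2 * p) ≤ (2 * p) ^ (2 * p) := Nat.factorial_le_pow _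
      have h6 : (Nat.factorial (2 * p) : ℝ) ≤ ((2 * p : ℕ) : ℝ) ^ (2 * p) := by exact_mod_cast h5
      rw [← pow_add, ← two_mul]
      push_cast at h6
      exact h6
    have hf0 : (0 : ℝ) < (Nat.factorial (2 * p) : ℝ) := by positivity
    rw [h3, div_le_iff₀ hf0] at h1
    have hq : (0 : ℝ) < (2 * p : ℝ) ^ p := by positivity
    have h7 : (2 * p : ℝ) ^ p * t ^ (2 * p) ≤
        (2 * p : ℝ) ^ p * ((2 * p : ℝ) ^ p * (Real.exp (l * t) + Real.exp ((-l) * t))) := by
      calc (2 * p : ℝ) ^ p * t ^ (2 * p) ≤ Real.exp |l * t| * (Nat.factorial (2 * p) : ℝ) := h1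
        _ ≤ (Real.exp (l * t) + Real.exp ((-l) * t)) * ((2 * p : ℝ) ^ p * (2 * p : ℝ) ^ p) := by
          apply mul_le_mul h2 h4 hf0.le
          positivity
        _ = _ := by ring
    exact le_of_mul_le_mul_left h7 hq
  calc ∑ R : Fin d → Fin d → Bool, (snForm R x y) ^ (2 * p)
      ≤ ∑ R : Fin d → Fin d → Bool, (2 * p : ℝ) ^ p *
          (Real.exp (l * snForm R x y) + Real.exp ((-l) * snForm R x y)) :=
        Finset.sum_le_sum (fun R _ => key _)
    _ = (2 * p : ℝ) ^ p * (∑ R : Fin d → Fin d → Bool, Real.exp (l * snForm R x y) +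
          ∑ R : Fin d → Fin d → Bool, Real.exp ((-l) * snForm R x y)) := by
        rw [← Finset.mul_sum, Finset.sum_add_distrib]
    _ ≤ (2 * p : ℝ) ^ p * ((Fintype.card (Fin d → Fin d → Bool) : ℝ) * Real.exp (l ^ 2 / 2) +
          (Fintype.card (Fin d → Fin d → Bool) : ℝ) * Real.exp ((-l) ^ 2 / 2)) := by
        apply mul_le_mul_of_nonneg_left _ (by positivity)
        exact add_le_add (sn_exp_moment x y hx hy l) (sn_exp_moment x y hx hy (-l))
    _ = _ := by
        have h1 : l ^ 2 / 2 = p := by rw [hl2]; ring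
        have h2 : (-l) ^ 2 / 2 = p := by rw [neg_sq, hl2]; ring
        rw [h1, h2, ← Real.exp_one_pow p]
        simp only [mul_pow]
        ring

/-- The norm is controlled by the net. -/
theorem sn_norm_le {d : ℕ} (hd : 0 < d) (R : Fin d → Fin d → Bool) (m : ℝ) (hm : 0 ≤ m)
    (h : ∀ c ∈ snNet d, ∀ c' ∈ snNet d, |snForm R (snPt c) (snPt c')| ≤ m) :
    ‖signMat R‖ ≤ 2 * m := by
  rw [Matrix.l2_opNorm_def]
  set T := (Matrix.toEuclideanLin (𝕜 := ℝ) ≪≫ₗ LinearMap.toContinuousLinearMap) (signMat R)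
    with hT
  have key : ‖T‖ ≤ m + ‖T‖ / 2 := by
    apply ContinuousLinearMap.opNorm_le_of_unit_norm (by positivity)
    intro u hu
    rcases eq_or_ne (T u) 0 with h0 | h0
    · rw [h0, norm_zero]
      positivity
    · set w : EuclideanSpace ℝ (Fin d) := (‖T u‖)⁻¹ • T u with hw
      have hTu : 0 < ‖T u‖ := norm_pos_iff.mpr h0
      have hw1 : ‖w‖ = 1 := by
        rw [hw, norm_smul, norm_inv, norm_norm, inv_mul_cancel₀ hTu.ne']
      have hin : inner ℝ w (T u) = ‖T u‖ := by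
        rw [hw, real_inner_smul_left, real_inner_self_eq_norm_sq]
        field_simp
      obtain ⟨c, hc, hc'⟩ := sn_approx d hd u hu
      obtain ⟨e, he, he'⟩ := sn_approx d hd w hw1
      have hsplit : inner ℝ w (T u) = inner ℝ (snPt e) (T (snPt c)) +
          inner ℝ (snPt e) (T (u - snPt c)) + inner ℝ (w - snPt e) (T u) := by
        rw [map_sub, inner_sub_left, inner_sub_right]
        ring
      have b1 : inner ℝ (snPt e) (T (snPt c)) ≤ m := by
        rw [hT, sn_form_inner]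
        exact (le_abs_self _).trans (h e he c hc)
      have hen : ‖snPt e‖ ≤ 1 := (Finset.mem_filter.mp he).2.2
      have b2 : inner ℝ (snPt e) (T (u - snPt c)) ≤ ‖T‖ / 4 := by
        calc inner ℝ (snPt e) (T (u - snPt c)) ≤ ‖snPt e‖ * ‖T (u - snPt c)‖ :=
              real_inner_le_norm _ _
          _ ≤ 1 * (‖T‖ * (1 / 4)) := by
              apply mul_le_mul hen _ (norm_nonneg _) (by norm_num)
              exact (T.le_opNorm _).trans (mul_le_mul_of_nonneg_left hc' (norm_nonneg _))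
          _ = ‖T‖ / 4 := by ring
      have b3 : inner ℝ (w - snPt e) (T u) ≤ ‖T‖ / 4 := by
        calc inner ℝ (w - snPt e) (T u) ≤ ‖w - snPt e‖ * ‖T u‖ :=
              real_inner_le_norm _ _
          _ ≤ (1 / 4) * (‖T‖ * 1) := by
              apply mul_le_mul he' _ (norm_nonneg _) (by norm_num)
              rw [← hu]
              exact T.le_opNorm _
          _ = ‖T‖ / 4 := by ring
      rw [← hin, hsplit]
      linarith
  linarith

/-- TASK SignNorm. -/
theorem sign_norm : ∃ K : ℝ, 0 < K ∧ ∀ p : ℕ, 0 < p →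
    (∑ R : Fin (4 * p) → Fin (4 * p) → Bool, ‖signMat R‖ ^ (2 * p)) /
      (Fintype.card (Fin (4 * p) → Fin (4 * p) → Bool) : ℝ) ≤ (K * p) ^ p := by
  refine ⟨4 * 64 ^ 8 * 2 * (2 * Real.exp 1), by positivity, ?_⟩
  intro p hp
  have hp' : (0 : ℝ) < p := by exact_mod_cast hp
  have hcard : (0 : ℝ) < (Fintype.card (Fin (4 * p) → Fin (4 * p) → Bool) : ℝ) := by
    exact_mod_cast Fintype.card_pos
  rw [div_le_iff₀ hcard]
  have h1 : ∀ R : Fin (4 * p) → Fin (4 * p) → Bool, ‖signMat R‖ ^ (2 * p) ≤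
      4 ^ p * ∑ c ∈ snNet (4 * p), ∑ c' ∈ snNet (4 * p), (snForm R (snPt c) (snPt c')) ^ (2 * p) := by
    intro R
    set S := ∑ c ∈ snNet (4 * p), ∑ c' ∈ snNet (4 * p), (snForm R (snPt c) (snPt c')) ^ (2 * p)
      with hS
    have hnn : ∀ c c' : SnIdx (4 * p), 0 ≤ (snForm R (snPt c) (snPt c')) ^ (2 * p) := by
      intro c c'
      rw [pow_mul]
      positivity
    have hS0 : 0 ≤ S := Finset.sum_nonneg (fun c _ => Finset.sum_nonneg (fun c' _ => hnn c c'))
    have h2p : 2 * p ≠ 0 := by omega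
    set m : ℝ := S ^ (((2 * p : ℕ) : ℝ)⁻¹) with hm
    have hm0 : 0 ≤ m := Real.rpow_nonneg hS0 _
    have hmS : m ^ (2 * p) = S := by
      rw [hm]
      exact Real.rpow_inv_natCast_pow hS0 h2p
    have h2 : ‖signMat R‖ ≤ 2 * m := by
      apply sn_norm_le (by omega) R m hm0
      intro c hc c' hc'
      apply le_of_pow_le_pow_left₀ h2p hm0
      rw [hmS, Even.pow_abs ⟨p, by ring⟩]
      calc (snForm R (snPt c) (snPt c')) ^ (2 * p)
          ≤ ∑ c' ∈ snNet (4 * p), (snForm R (snPt c) (snPt c')) ^ (2 * p) :=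
            Finset.single_le_sum (f := fun c' => (snForm R (snPt c) (snPt c')) ^ (2 * p))
              (fun c' _ => hnn c c') hc'
        _ ≤ S :=
            Finset.single_le_sum
              (f := fun c => ∑ c' ∈ snNet (4 * p), (snForm R (snPt c) (snPt c')) ^ (2 * p))
              (fun c _ => Finset.sum_nonneg (fun c' _ => hnn c c')) hc
    calc ‖signMat R‖ ^ (2 * p) ≤ (2 * m) ^ (2 * p) := pow_le_pow_left₀ (norm_nonneg _) h2 _
      _ = 4 ^ p * S := by
          rw [mul_pow, hmS, pow_mul]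
          norm_num
  calc ∑ R : Fin (4 * p) → Fin (4 * p) → Bool, ‖signMat R‖ ^ (2 * p)
      ≤ ∑ R : Fin (4 * p) → Fin (4 * p) → Bool, 4 ^ p * ∑ c ∈ snNet (4 * p),
          ∑ c' ∈ snNet (4 * p), (snForm R (snPt c) (snPt c')) ^ (2 * p) :=
        Finset.sum_le_sum (fun R _ => h1 R)
    _ = 4 ^ p * ∑ c ∈ snNet (4 * p), ∑ c' ∈ snNet (4 * p),
          ∑ R : Fin (4 * p) → Fin (4 * p) → Bool, (snForm R (snPt c) (snPt c')) ^ (2 * p) := by
        rw [← Finset.mul_sum, Finset.sum_comm]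
        congr 1
        apply Finset.sum_congr rfl
        intro c _
        rw [Finset.sum_comm]
    _ ≤ 4 ^ p * ∑ c ∈ snNet (4 * p), ∑ c' ∈ snNet (4 * p),
          ((Fintype.card (Fin (4 * p) → Fin (4 * p) → Bool) : ℝ) *
            (2 * (2 * p * Real.exp 1) ^ p)) := by
        apply mul_le_mul_of_nonneg_left _ (by positivity)
        apply Finset.sum_le_sum
        intro c hc
        apply Finset.sum_le_sum
        intro c' hc'
        exact sn_moment _ _ (Finset.mem_filter.mp hc).2.2 (Finset.mem_filter.mp hc').2.2 p hp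
    _ = 4 ^ p * (((snNet (4 * p)).card : ℝ) * (((snNet (4 * p)).card : ℝ) *
          ((Fintype.card (Fin (4 * p) → Fin (4 * p) → Bool) : ℝ) *
            (2 * (2 * p * Real.exp 1) ^ p)))) := by
        rw [Finset.sum_const, Finset.sum_const, nsmul_eq_mul, nsmul_eq_mul]
    _ ≤ 4 ^ p * ((64 ^ (4 * p)) * ((64 ^ (4 * p)) *
          ((Fintype.card (Fin (4 * p) → Fin (4 * p) → Bool) : ℝ) *
            (2 ^ p * (2 * p * Real.exp 1) ^ p)))) := by
        have hc := sn_card (4 * p)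
        have h2 : (2 : ℝ) ≤ 2 ^ p := by
          calc (2 : ℝ) = 2 ^ 1 := by norm_num
            _ ≤ 2 ^ p := pow_le_pow_right₀ (by norm_num) hp
        gcongr
    _ = _ := by
        have e1 : (64 : ℝ) ^ (4 * p) * 64 ^ (4 * p) = (64 ^ 8) ^ p := by
          rw [← pow_add, ← pow_mul]
          congr 1
          ring
        calc (4 : ℝ) ^ p * ((64 ^ (4 * p)) * ((64 ^ (4 * p)) *
              ((Fintype.card (Fin (4 * p) → Fin (4 * p) → Bool) : ℝ) *
                (2 ^ p * (2 * p * Real.exp 1) ^ p)))) =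
            4 ^ p * ((64 : ℝ) ^ (4 * p) * 64 ^ (4 * p)) * 2 ^ p * (2 * p * Real.exp 1) ^ p *
              (Fintype.card (Fin (4 * p) → Fin (4 * p) → Bool) : ℝ) := by ring
          _ = (4 * 64 ^ 8 * 2 * (2 * p * Real.exp 1)) ^ p *
              (Fintype.card (Fin (4 * p) → Fin (4 * p) → Bool) : ℝ) := by
            rw [e1, ← mul_pow, ← mul_pow, ← mul_pow]
          _ = _ := by
            congr 2
            ring

end Pool.Agent.NN
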