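import Mathlib
import Pool.Agent.Lib.MP_b8b239_pr.Basic
import Pool.Agent.Lib.MP_b8b239_pr.Expect
import Pool.Agent.Lib.MP_b8b239_pr.SignNorm
import Pool.Agent.Lib.MP_b8b239_pr.SignCount
import Pool.Agent.Lib.MP_b8b239_pr.Decouple
import Pool.Agent.Lib.MP_b8b239_pr.Poissonize

/-!
# The expected deviation of the sketch
-/

namespace Pool.Agent.NN

open Finset Matrix
open scoped Classical Matrix.Norms.L2Operator

theorem fi_pow_comm {m n : Type*} [Fintype m] [DecidableEq m] [Fintype n] [DecidableEq n]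
    (X : Matrix m n ℝ) (Y : Matrix n m ℝ) (k : ℕ) :
    (X * Y) ^ (k + 1) = X * (Y * X) ^ k * Y := by
  induction k with
  | zero => simp
  | succ k ih =>
    rw [pow_succ, ih, pow_succ]
    simp only [Matrix.mul_assoc]

theorem fi_trace_comm {m n : Type*} [Fintype m] [DecidableEq m] [Fintype n] [DecidableEq n]
    (X : Matrix m n ℝ) (Y : Matrix n m ℝ) (p : ℕ) (hp : 0 < p) :
    ((X * Y) ^ p).trace = ((Y * X) ^ p).trace := by
  obtain ⟨k, rfl⟩ : ∃ k, p = k + 1 := ⟨p - 1, by omega⟩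
  rw [fi_pow_comm, Matrix.trace_mul_comm, ← Matrix.mul_assoc, ← pow_succ']

theorem fi_trace_eq {n r : ℕ} {κ : Type*} [Fintype κ] (U : Matrix (Fin n) (Fin r) ℝ)
    (P : Matrix (Fin n) (Fin n) ℝ) (hPU : P = U * Uᵀ) (A A' : Matrix (Fin n) κ ℝ) (p : ℕ)
    (hp : 0 < p) :
    (((Uᵀ * A * A'ᵀ * U) * (Uᵀ * A * A'ᵀ * U)ᵀ) ^ p).trace =
      ((P * A * A'ᵀ * P * A' * Aᵀ) ^ p).trace := by
  have h1 : (Uᵀ * A * A'ᵀ * U) * (Uᵀ * A * A'ᵀ * U)ᵀ = Uᵀ * (A * A'ᵀ * P * A' * Aᵀ * U) := by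
    rw [hPU]
    simp only [Matrix.transpose_mul, Matrix.transpose_transpose, Matrix.mul_assoc]
  have h2 : P * A * A'ᵀ * P * A' * Aᵀ = P * (A * A'ᵀ * P * A' * Aᵀ) := by
    simp only [Matrix.mul_assoc]
  have h3 : A * A'ᵀ * P * A' * Aᵀ * U * Uᵀ = (A * A'ᵀ * P * A' * Aᵀ) * P := by
    rw [Matrix.mul_assoc (A * A'ᵀ * P * A' * Aᵀ) U Uᵀ, ← hPU]
  rw [h1, fi_trace_comm _ _ p hp, h2, h3, fi_trace_comm _ _ p hp]

/-- The moment bound for the Poissonised product. -/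
theorem fi_moment {n r ζ b p : ℕ} [NeZero p] (hn : 0 < n) (hζ : 0 < ζ) (hb : 0 < b)
    (U : Matrix (Fin n) (Fin r) ℝ) (hU : Uᵀ * U = 1) (h4 : 4 ^ p ≤ b)
    (hrk : (r : ℝ) ≤ ζ * b) (hpr : 2 * p ≤ r)
    (hp : (2 * p : ℝ) ^ 2 * (ζ * b) ≤ (ζ : ℝ) ^ 2 * r) :
    ((∑ y : Fin (n * ζ) → (Fin n × (Fin ζ × Fin b)) × Bool,
      ∑ y' : Fin (n * ζ) → (Fin n × (Fin ζ × Fin b)) × Bool,
        ‖Uᵀ * ptMat y * (ptMat y')ᵀ * U‖) /
        (Fintype.card (Fin (n * ζ) → (Fin n × (Fin ζ × Fin b)) × Bool) : ℝ) ^ 2) ^ (2 * p) ≤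
      4 ^ p * (ζ : ℝ) ^ (2 * p) * r * ((r : ℝ) / (ζ * b)) ^ p / (2 * p : ℝ) ^ (2 * p + 1) *
        evenCount p (4 * p) := by
  have hp0 : 0 < p := Nat.pos_of_ne_zero (NeZero.ne p)
  have hκ : Fintype.card (Fin ζ × Fin b) = ζ * b := by simp
  set P : Matrix (Fin n) (Fin n) ℝ := U * Uᵀ with hP
  set Y : ℝ := (Fintype.card (Fin (n * ζ) → (Fin n × (Fin ζ × Fin b)) × Bool) : ℝ) with hY
  have hYpos : 0 < Y := by
    rw [hY]
    have : Nonempty (Fin n × (Fin ζ × Fin b)) :=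
      ⟨⟨⟨0, hn⟩, ⟨0, hζ⟩, ⟨0, hb⟩⟩⟩
    exact_mod_cast Fintype.card_pos
  -- power mean
  have h1 : ((∑ y : Fin (n * ζ) → (Fin n × (Fin ζ × Fin b)) × Bool,
      ∑ y' : Fin (n * ζ) → (Fin n × (Fin ζ × Fin b)) × Bool,
        ‖Uᵀ * ptMat y * (ptMat y')ᵀ * U‖) / Y ^ 2) ^ (2 * p) ≤
      (∑ y : Fin (n * ζ) → (Fin n × (Fin ζ × Fin b)) × Bool,
      ∑ y' : Fin (n * ζ) → (Fin n × (Fin ζ × Fin b)) × Bool,
        ‖Uᵀ * ptMat y * (ptMat y')ᵀ * U‖ ^ (2 * p)) / Y ^ 2 := by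
    have h := Real.pow_arith_mean_le_arith_mean_pow
      (univ : Finset ((Fin (n * ζ) → (Fin n × (Fin ζ × Fin b)) × Bool) ×
        (Fin (n * ζ) → (Fin n × (Fin ζ × Fin b)) × Bool)))
      (fun _ => (Y ^ 2)⁻¹) (fun z => ‖Uᵀ * ptMat z.1 * (ptMat z.2)ᵀ * U‖)
      (fun _ _ => by positivity)
      (by
        rw [Finset.sum_const, Finset.card_univ, Fintype.card_prod, nsmul_eq_mul]
        push_cast
        rw [← hY, ← pow_two, mul_inv_cancel₀ (pow_ne_zero 2 hYpos.ne')])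
      (fun _ _ => norm_nonneg _) (2 * p)
    rw [Fintype.sum_prod_type, Fintype.sum_prod_type] at h
    simp only [← Finset.mul_sum] at h
    rw [inv_mul_eq_div, inv_mul_eq_div] at h
    exact h
  refine h1.trans ?_
  -- trace
  have h2 : (∑ y : Fin (n * ζ) → (Fin n × (Fin ζ × Fin b)) × Bool,
      ∑ y' : Fin (n * ζ) → (Fin n × (Fin ζ × Fin b)) × Bool,
        ‖Uᵀ * ptMat y * (ptMat y')ᵀ * U‖ ^ (2 * p)) / Y ^ 2 ≤
      (∑ y : Fin (n * ζ) → (Fin n × (Fin ζ × Fin b)) × Bool,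
      ∑ y' : Fin (n * ζ) → (Fin n × (Fin ζ × Fin b)) × Bool,
        Matrix.trace ((P * ptMat y * (ptMat y')ᵀ * P * ptMat y' * (ptMat y)ᵀ) ^ p)) / Y ^ 2 := by
    apply div_le_div_of_nonneg_right _ (by positivity)
    apply Finset.sum_le_sum
    intro y _
    apply Finset.sum_le_sum
    intro y' _
    rw [← fi_trace_eq U P hP (ptMat y) (ptMat y') p hp0]
    exact nt_main _ p hp0
  refine h2.trans ?_
  refine (ex_trace_avg U hU P hP (by rw [hκ]; positivity)).trans ?_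
  have hG : ∀ x : Pos p → Fin r × (Fin ζ × Fin b),
      Gfun (n * ζ) (n * Fintype.card (Fin ζ × Fin b)) x ≤
        if EvenFib x then (2 / (b : ℝ)) ^ numVals x else 0 := by
    intro x
    apply Gfun_le
    · have : Fintype.card (Pos p) = 2 * p := by simp [Pos, mul_comm]
      rw [this, pow_mul]
      norm_num
      exact_mod_cast h4
    · rw [hκ]
      push_cast
      field_simp
  have hG0 : ∀ x : Pos p → Fin r × (Fin ζ × Fin b),
      0 ≤ Gfun (n * ζ) (n * Fintype.card (Fin ζ × Fin b)) x := by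
    intro x
    unfold Gfun
    apply Finset.sum_nonneg
    intro f _
    split_ifs
    · positivity
    · exact le_rfl
  refine le_trans ?_ (dim_red p r (κ := Fin ζ × Fin b) (ζ : ℝ) (b : ℝ) (by exact_mod_cast hζ)
    (by exact_mod_cast hb) (by rw [hκ]; push_cast; ring) hrk hpr hp)
  apply Finset.sum_le_sum
  intro j _
  apply Finset.sum_le_sum
  intro a _
  apply Finset.sum_le_sum
  intro j' _
  by_cases ht : Tau j ∧ Tau' j'
  · rw [if_pos ht]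
    have ha := hG (fun q => (j q, a q))
    have hb' := hG (fun q => (j' q, a q))
    by_cases he1 : EvenFib (fun q => (j q, a q)) <;> by_cases he2 : EvenFib (fun q => (j' q, a q))
    · rw [if_pos he1] at ha
      rw [if_pos he2] at hb'
      rw [if_pos ⟨ht.1, ht.2, he1, he2⟩, pow_add]
      exact mul_le_mul ha hb' (hG0 _) (by positivity)
    · rw [if_neg he2] at hb'
      rw [if_neg (fun h => he2 h.2.2.2)]
      have : Gfun (n * ζ) (n * Fintype.card (Fin ζ × Fin b)) (fun q => (j' q, a q)) = 0 :=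
        le_antisymm hb' (hG0 _)
      rw [this, mul_zero]
    · rw [if_neg he1] at ha
      rw [if_neg (fun h => he1 h.2.2.1)]
      have : Gfun (n * ζ) (n * Fintype.card (Fin ζ × Fin b)) (fun q => (j q, a q)) = 0 :=
        le_antisymm ha (hG0 _)
      rw [this, zero_mul]
    · rw [if_neg he1] at ha
      rw [if_neg (fun h => he1 h.2.2.1)]
      have : Gfun (n * ζ) (n * Fintype.card (Fin ζ × Fin b)) (fun q => (j q, a q)) = 0 :=
        le_antisymm ha (hG0 _)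
      rw [this, zero_mul]
  · rw [if_neg ht, if_neg (fun h => ht ⟨h.1, h.2.1⟩)]

/-- The seminorm `A ↦ ‖Uᵀ * A * C‖`. -/
noncomputable def semiL {n r : ℕ} {κ : Type*} [Fintype κ] (U : Matrix (Fin n) (Fin r) ℝ)
    (C : Matrix κ (Fin r) ℝ) : Seminorm ℝ (Matrix (Fin n) κ ℝ) :=
  Seminorm.of (fun A => ‖Uᵀ * A * C‖)
    (fun A B => by
      show ‖Uᵀ * (A + B) * C‖ ≤ ‖Uᵀ * A * C‖ + ‖Uᵀ * B * C‖
      rw [Matrix.mul_add, Matrix.add_mul]
      exact norm_add_le _ _)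
    (fun c A => by
      show ‖Uᵀ * (c • A) * C‖ = ‖c‖ * ‖Uᵀ * A * C‖
      rw [Matrix.mul_smul, Matrix.smul_mul, norm_smul])

/-- The seminorm `A ↦ ‖Uᵀ * B * Aᵀ * U‖`. -/
noncomputable def semiR {n r : ℕ} {κ : Type*} [Fintype κ] (U : Matrix (Fin n) (Fin r) ℝ)
    (B : Matrix (Fin n) κ ℝ) : Seminorm ℝ (Matrix (Fin n) κ ℝ) :=
  Seminorm.of (fun A => ‖Uᵀ * B * Aᵀ * U‖)
    (fun A A' => by
      show ‖Uᵀ * B * (A + A')ᵀ * U‖ ≤ ‖Uᵀ * B * Aᵀ * U‖ + ‖Uᵀ * B * A'ᵀ * U‖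
      rw [Matrix.transpose_add, Matrix.mul_add, Matrix.add_mul]
      exact norm_add_le _ _)
    (fun c A => by
      show ‖Uᵀ * B * (c • A)ᵀ * U‖ = ‖c‖ * ‖Uᵀ * B * Aᵀ * U‖
      rw [Matrix.transpose_smul, Matrix.mul_smul, Matrix.smul_mul, norm_smul])

theorem semiL_apply {n r : ℕ} {κ : Type*} [Fintype κ] (U : Matrix (Fin n) (Fin r) ℝ)
    (C : Matrix κ (Fin r) ℝ) (A : Matrix (Fin n) κ ℝ) : semiL U C A = ‖Uᵀ * A * C‖ := rfl

theorem semiR_apply {n r : ℕ} {κ : Type*} [Fintype κ] (U : Matrix (Fin n) (Fin r) ℝ)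
    (B : Matrix (Fin n) κ ℝ) (A : Matrix (Fin n) κ ℝ) :
    semiR U B A = ‖Uᵀ * B * Aᵀ * U‖ := rfl

/-- From SparseStack to the Poissonised product. -/
theorem fi_compare {n r ζ b : ℕ} (hn : 0 < n) (hζ : 0 < ζ) (hb : 0 < b)
    (U : Matrix (Fin n) (Fin r) ℝ) :
    (∑ ω : Fin n → Fin ζ → Fin b × Bool, ∑ ω' : Fin n → Fin ζ → Fin b × Bool,
        ‖Uᵀ * stack ω * (stack ω')ᵀ * U‖) /
        (Fintype.card (Fin n → Fin ζ → Fin b × Bool) : ℝ) ^ 2 ≤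
      4 * ((∑ y : Fin (n * ζ) → (Fin n × (Fin ζ × Fin b)) × Bool,
      ∑ y' : Fin (n * ζ) → (Fin n × (Fin ζ × Fin b)) × Bool,
        ‖Uᵀ * ptMat y * (ptMat y')ᵀ * U‖) /
        (Fintype.card (Fin (n * ζ) → (Fin n × (Fin ζ × Fin b)) × Bool) : ℝ) ^ 2) := by
  set Ω : ℝ := (Fintype.card (Fin n → Fin ζ → Fin b × Bool) : ℝ) with hΩ
  set Y : ℝ := (Fintype.card (Fin (n * ζ) → (Fin n × (Fin ζ × Fin b)) × Bool) : ℝ) with hY
  have hΩpos : 0 < Ω := by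
    have : Nonempty (Fin b × Bool) := ⟨⟨⟨0, hb⟩, true⟩⟩
    rw [hΩ]; exact_mod_cast Fintype.card_pos
  have hYpos : 0 < Y := by
    have : Nonempty ((Fin n × (Fin ζ × Fin b)) × Bool) :=
      ⟨⟨⟨⟨0, hn⟩, ⟨0, hζ⟩, ⟨0, hb⟩⟩, true⟩⟩
    rw [hY]; exact_mod_cast Fintype.card_pos
  have h1 : ∀ ω' : Fin n → Fin ζ → Fin b × Bool,
      (∑ ω : Fin n → Fin ζ → Fin b × Bool, ‖Uᵀ * stack ω * (stack ω')ᵀ * U‖) / Ω ≤
      2 * ((∑ y : Fin (n * ζ) → (Fin n × (Fin ζ × Fin b)) × Bool,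
        ‖Uᵀ * ptMat y * (stack ω')ᵀ * U‖) / Y) := by
    intro ω'
    have h := poissonize hn hζ hb (semiL U ((stack ω')ᵀ * U))
    simp only [semiL_apply, ← Matrix.mul_assoc] at h
    exact h
  have h2 : ∀ y : Fin (n * ζ) → (Fin n × (Fin ζ × Fin b)) × Bool,
      (∑ ω' : Fin n → Fin ζ → Fin b × Bool, ‖Uᵀ * ptMat y * (stack ω')ᵀ * U‖) / Ω ≤
      2 * ((∑ y' : Fin (n * ζ) → (Fin n × (Fin ζ × Fin b)) × Bool,
        ‖Uᵀ * ptMat y * (ptMat y')ᵀ * U‖) / Y) := by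
    intro y
    have h := poissonize hn hζ hb (semiR U (ptMat y))
    simp only [semiR_apply] at h
    exact h
  calc (∑ ω : Fin n → Fin ζ → Fin b × Bool, ∑ ω' : Fin n → Fin ζ → Fin b × Bool,
        ‖Uᵀ * stack ω * (stack ω')ᵀ * U‖) / Ω ^ 2
      = (∑ ω' : Fin n → Fin ζ → Fin b × Bool,
          (∑ ω : Fin n → Fin ζ → Fin b × Bool, ‖Uᵀ * stack ω * (stack ω')ᵀ * U‖) / Ω) / Ω := by
        rw [Finset.sum_comm, ← Finset.sum_div, div_div, pow_two]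
    _ ≤ (∑ ω' : Fin n → Fin ζ → Fin b × Bool,
          2 * ((∑ y : Fin (n * ζ) → (Fin n × (Fin ζ × Fin b)) × Bool,
            ‖Uᵀ * ptMat y * (stack ω')ᵀ * U‖) / Y)) / Ω := by
        apply div_le_div_of_nonneg_right _ hΩpos.le
        exact Finset.sum_le_sum fun ω' _ => h1 ω'
    _ = 2 * ((∑ y : Fin (n * ζ) → (Fin n × (Fin ζ × Fin b)) × Bool,
          (∑ ω' : Fin n → Fin ζ → Fin b × Bool, ‖Uᵀ * ptMat y * (stack ω')ᵀ * U‖) / Ω) / Y) := by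
        rw [← Finset.mul_sum, ← Finset.sum_div, Finset.sum_comm, ← Finset.sum_div]
        field_simp
    _ ≤ 2 * ((∑ y : Fin (n * ζ) → (Fin n × (Fin ζ × Fin b)) × Bool,
          2 * ((∑ y' : Fin (n * ζ) → (Fin n × (Fin ζ × Fin b)) × Bool,
            ‖Uᵀ * ptMat y * (ptMat y')ᵀ * U‖) / Y)) / Y) := by
        gcongr with y _
        exact h2 y
    _ = _ := by
        rw [← Finset.mul_sum, ← Finset.sum_div]
        field_simp
        ring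

/-- The expected deviation, for the chosen parameters. -/
theorem fi_dev {n r ζ b p : ℕ} [NeZero p] (K D ε : ℝ) (hK : 0 < K)
    (hKp : (evenCount p (4 * p) : ℝ) ≤ 4 * p * (K * p) ^ (2 * p)) (hD : 0 < D) (hε : 0 < ε)
    (hn : 0 < n) (hζ : 0 < ζ) (hb : 0 < b)
    (U : Matrix (Fin n) (Fin r) ℝ) (hU : Uᵀ * U = 1) (h4 : 4 ^ p ≤ b)
    (hrk : (r : ℝ) ≤ ζ * b) (hpr : 2 * p ≤ r)
    (hp : (2 * p : ℝ) ^ 2 * (ζ * b) ≤ (ζ : ℝ) ^ 2 * r) (h16 : r ≤ 16 ^ p)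
    (hk : D ^ 2 * r / ε ^ 2 ≤ ζ * b) :
    (∑ ω : Fin n → Fin ζ → Fin b × Bool,
        ‖(ζ : ℝ)⁻¹ • (Uᵀ * stack ω * (stack ω)ᵀ * U) - 1‖) /
        (Fintype.card (Fin n → Fin ζ → Fin b × Bool) : ℝ) ≤ 128 * K * ε / D := by
  have hp0 : 0 < p := Nat.pos_of_ne_zero (NeZero.ne p)
  have hpR : (0 : ℝ) < p := by exact_mod_cast hp0
  have hζR : (0 : ℝ) < ζ := by exact_mod_cast hζ
  have hbR : (0 : ℝ) < b := by exact_mod_cast hb
  have hrpos : 0 < r := by omega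
  have hrR : (0 : ℝ) < r := by exact_mod_cast hrpos
  set B : ℝ := (∑ y : Fin (n * ζ) → (Fin n × (Fin ζ × Fin b)) × Bool,
      ∑ y' : Fin (n * ζ) → (Fin n × (Fin ζ × Fin b)) × Bool,
        ‖Uᵀ * ptMat y * (ptMat y')ᵀ * U‖) /
        (Fintype.card (Fin (n * ζ) → (Fin n × (Fin ζ × Fin b)) × Bool) : ℝ) ^ 2 with hB
  have hB0 : 0 ≤ B := by
    rw [hB]
    apply div_nonneg _ (by positivity)
    exact Finset.sum_nonneg fun _ _ => Finset.sum_nonneg fun _ _ => norm_nonneg _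
  have h1 : B ^ (2 * p) ≤ 4 ^ p * (ζ : ℝ) ^ (2 * p) * r * ((r : ℝ) / (ζ * b)) ^ p /
      (2 * p : ℝ) ^ (2 * p + 1) * evenCount p (4 * p) :=
    fi_moment hn hζ hb U hU h4 hrk hpr hp
  have hratio : (r : ℝ) / (ζ * b) ≤ ε ^ 2 / D ^ 2 := by
    rw [div_le_div_iff₀ (by positivity) (by positivity)]
    rw [div_le_iff₀ (by positivity)] at hk
    nlinarith
  have h2 : B ^ (2 * p) ≤ (8 * K * ζ * ε / D) ^ (2 * p) := by
    refine h1.trans ?_
    have h16' : (r : ℝ) ≤ 16 ^ p := by exact_mod_cast h16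
    calc 4 ^ p * (ζ : ℝ) ^ (2 * p) * r * ((r : ℝ) / (ζ * b)) ^ p /
      (2 * p : ℝ) ^ (2 * p + 1) * evenCount p (4 * p)
        ≤ 4 ^ p * (ζ : ℝ) ^ (2 * p) * 16 ^ p * (ε ^ 2 / D ^ 2) ^ p /
      (2 * p : ℝ) ^ (2 * p + 1) * (4 * p * (K * p) ^ (2 * p)) := by gcongr
      _ = 2 * 16 ^ p * (K * ζ * ε / D) ^ (2 * p) := by
          have e1 : (4 : ℝ) ^ p = 2 ^ (2 * p) := by rw [pow_mul]; norm_num
          have e2 : (ε ^ 2 / D ^ 2) ^ p = (ε / D) ^ (2 * p) := by rw [← div_pow, ← pow_mul]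
          have e3 : (2 * p : ℝ) ^ (2 * p + 1) = 2 ^ (2 * p) * (p : ℝ) ^ (2 * p) * (2 * p) := by
            rw [pow_succ, mul_pow]
          have e4 : (K * p : ℝ) ^ (2 * p) = K ^ (2 * p) * (p : ℝ) ^ (2 * p) := mul_pow _ _ _
          have e5 : (K * ζ * ε / D) ^ (2 * p) = K ^ (2 * p) * (ζ : ℝ) ^ (2 * p) *
              (ε / D) ^ (2 * p) := by
            rw [← mul_pow, ← mul_pow]; congr 1; ring
          rw [e1, e2, e3, e4, e5]
          have f1 : (2 : ℝ) ^ (2 * p) ≠ 0 := by positivity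
          have f2 : (p : ℝ) ^ (2 * p) ≠ 0 := by positivity
          generalize (ε / D) ^ (2 * p) = X
          generalize (K : ℝ) ^ (2 * p) = Z
          generalize (ζ : ℝ) ^ (2 * p) = W
          field_simp
          ring
      _ ≤ 64 ^ p * (K * ζ * ε / D) ^ (2 * p) := by
          have : (2 : ℝ) * 16 ^ p ≤ 64 ^ p := by
            have h4p : (2 : ℝ) ≤ 4 ^ p := by
              calc (2 : ℝ) ≤ 4 ^ 1 := by norm_num
                _ ≤ 4 ^ p := pow_le_pow_right₀ (by norm_num) hp0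
            calc (2 : ℝ) * 16 ^ p ≤ 4 ^ p * 16 ^ p := by gcongr
              _ = 64 ^ p := by rw [← mul_pow]; norm_num
          gcongr
      _ = (8 * K * ζ * ε / D) ^ (2 * p) := by
          have : (64 : ℝ) ^ p = 8 ^ (2 * p) := by rw [pow_mul]; norm_num
          rw [this, ← mul_pow]
          congr 1
          ring
  have h3 : B ≤ 8 * K * ζ * ε / D :=
    le_of_pow_le_pow_left₀ (by omega) (by positivity) h2
  calc (∑ ω : Fin n → Fin ζ → Fin b × Bool,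
        ‖(ζ : ℝ)⁻¹ • (Uᵀ * stack ω * (stack ω)ᵀ * U) - 1‖) /
        (Fintype.card (Fin n → Fin ζ → Fin b × Bool) : ℝ)
      ≤ 4 * (ζ : ℝ)⁻¹ * ((∑ ω : Fin n → Fin ζ → Fin b × Bool,
          ∑ ω' : Fin n → Fin ζ → Fin b × Bool, ‖Uᵀ * stack ω * (stack ω')ᵀ * U‖) /
        (Fintype.card (Fin n → Fin ζ → Fin b × Bool) : ℝ) ^ 2) := decoupling hζ hb U hU
    _ ≤ 4 * (ζ : ℝ)⁻¹ * (4 * B) := by
        gcongr
        exact fi_compare hn hζ hb U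
    _ ≤ 4 * (ζ : ℝ)⁻¹ * (4 * (8 * K * ζ * ε / D)) := by gcongr
    _ = 128 * K * ε / D := by
        field_simp
        ring

end Pool.Agent.NN
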