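import Mathlib
import Pool.Agent.Lib.MP_b8b239_pr.Basic
import Pool.Agent.Lib.MP_b8b239_pr.Final

/-!
# Choice of the parameters
-/

namespace Pool.Agent.NN

open Finset Matrix
open scoped Classical Matrix.Norms.L2Operator

theorem pa_log (r : ℕ) (hr : 2 ≤ r) : ((Nat.log 16 r + 1 : ℕ) : ℝ) ≤ 3 * Real.log r := by
  have hr0 : r ≠ 0 := by omega
  have h1 : (16 : ℝ) ^ Nat.log 16 r ≤ r := by exact_mod_cast Nat.pow_log_le_self 16 hr0
  have h2 : (Nat.log 16 r : ℝ) * Real.log 16 ≤ Real.log r := by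
    rw [← Real.log_pow]
    exact Real.log_le_log (by positivity) h1
  have h3 : (1 : ℝ) ≤ Real.log 16 := by
    rw [Real.le_log_iff_exp_le (by norm_num)]
    linarith [Real.exp_one_lt_d9]
  have h4 : (1 : ℝ) / 2 ≤ Real.log r := by
    have : Real.log 2 ≤ Real.log r := Real.log_le_log (by norm_num) (by exact_mod_cast hr)
    linarith [Real.log_two_gt_d9]
  have h5 : (0 : ℝ) ≤ Nat.log 16 r := by positivity
  push_cast
  nlinarith

/-- For every `δ` there is a constant `C` such that suitable parameters exist for which the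
expected deviation is at most `δ * ε`. -/
theorem pa_main (δ : ℝ) (hδ : 0 < δ) : ∃ C : ℝ, 0 < C ∧ ∀ n r : ℕ, 2 ≤ r → r ≤ n →
    ∀ ε : ℝ, 0 < ε → ε < 1 → ∃ ζ b : ℕ, 1 ≤ ζ ∧ 1 ≤ b ∧ (ζ : ℝ) ≤ C * Real.log r / ε ∧
      ((b * ζ : ℕ) : ℝ) ≤ C * r / ε ^ 2 ∧
      ∀ U : Matrix (Fin n) (Fin r) ℝ, Uᵀ * U = 1 →
        (∑ ω : Fin n → Fin ζ → Fin b × Bool,
          ‖(ζ : ℝ)⁻¹ • (Uᵀ * stack ω * (stack ω)ᵀ * U) - 1‖) /
          (Fintype.card (Fin n → Fin ζ → Fin b × Bool) : ℝ) ≤ δ * ε := by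
  obtain ⟨K, hK, hsn⟩ := sign_norm
  have hKp : ∀ (p : ℕ) [NeZero p], (evenCount p (4 * p) : ℝ) ≤ 4 * p * (K * p) ^ (2 * p) := by
    intro p _
    have h1 := evenCount_le p (4 * p)
    have h2 := hsn p (Nat.pos_of_ne_zero (NeZero.ne p))
    have h0 : 0 ≤ (∑ R : Fin (4 * p) → Fin (4 * p) → Bool, ‖signMat R‖ ^ (2 * p)) /
      (Fintype.card (Fin (4 * p) → Fin (4 * p) → Bool) : ℝ) := by
      apply div_nonneg _ (by positivity)
      exact Finset.sum_nonneg fun _ _ => by positivity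
    refine h1.trans ?_
    push_cast
    have h3 := pow_le_pow_left₀ h0 h2 2
    rw [← pow_mul, mul_comm p 2] at h3
    exact mul_le_mul_of_nonneg_left h3 (by positivity)
  obtain ⟨Dn, hDn⟩ := exists_nat_ge (max 20 (128 * K / δ))
  set D : ℝ := (Dn : ℝ) with hD
  have hD20 : 20 ≤ D := (le_max_left _ _).trans hDn
  have hDK : 128 * K / δ ≤ D := (le_max_right _ _).trans hDn
  have hDpos : 0 < D := by linarith
  refine ⟨2 * D ^ 2 + 15 * D, by positivity, ?_⟩
  intro n r hr hrn ε hε hε1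
  set p : ℕ := Nat.log 16 r + 1 with hp
  have : NeZero p := ⟨by omega⟩
  have hp1 : 1 ≤ p := by omega
  have hpR : (1 : ℝ) ≤ p := by exact_mod_cast hp1
  have hr0 : r ≠ 0 := by omega
  have h16a : 16 ^ (p - 1) ≤ r := by
    have := Nat.pow_log_le_self 16 hr0
    simpa [hp] using this
  have h16b : r ≤ 16 ^ p := (Nat.lt_pow_succ_log_self (by norm_num) r).le
  have hrR : (2 : ℝ) ≤ r := by exact_mod_cast hr
  -- 2 p ≤ r
  have hpr : 2 * p ≤ r := by
    rcases Nat.lt_or_ge 1 p with h | h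
    · have h1 : 2 * p ≤ 16 ^ (p - 1) := by
        obtain ⟨q, hq⟩ : ∃ q, p = q + 2 := ⟨p - 2, by omega⟩
        rw [hq]
        have : ∀ q : ℕ, 2 * (q + 2) ≤ 16 ^ (q + 1) := by
          intro q
          induction q with
          | zero => norm_num
          | succ q ih =>
            rw [pow_succ]
            omega
        simpa using this q
      omega
    · have : p = 1 := by omega
      rw [this]; omega
  have hprR : (2 * p : ℝ) ≤ r := by exact_mod_cast hpr
  set ζ : ℕ := ⌈4 * p * D / ε⌉₊ with hζ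
  have hζlow : 4 * p * D / ε ≤ ζ := Nat.le_ceil _
  have hζupp : (ζ : ℝ) ≤ 4 * p * D / ε + 1 := (Nat.ceil_lt_add_one (by positivity)).le
  have hζR : (0 : ℝ) < ζ := lt_of_lt_of_le (by positivity) hζlow
  have hζ1 : 1 ≤ ζ := by exact_mod_cast hζR
  set b : ℕ := ⌈D ^ 2 * r / (ε ^ 2 * ζ)⌉₊ with hb
  have hblow : D ^ 2 * r / (ε ^ 2 * ζ) ≤ b := Nat.le_ceil _
  have hbupp : (b : ℝ) ≤ D ^ 2 * r / (ε ^ 2 * ζ) + 1 := (Nat.ceil_lt_add_one (by positivity)).le
  have hbR : (0 : ℝ) < b := lt_of_lt_of_le (by positivity) hblow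
  have hb1 : 1 ≤ b := by exact_mod_cast hbR
  -- k ≥ D² r / ε²
  have hk : D ^ 2 * r / ε ^ 2 ≤ ζ * b := by
    have : D ^ 2 * r / ε ^ 2 = ζ * (D ^ 2 * r / (ε ^ 2 * ζ)) := by field_simp
    rw [this]
    gcongr
  -- 1 ≤ p D / ε
  have h1pD : 1 ≤ p * D / ε := by
    rw [le_div_iff₀ hε]
    nlinarith
  have hζ5 : (ζ : ℝ) ≤ 5 * p * D / ε := by
    have : 5 * p * D / ε = 4 * p * D / ε + p * D / ε := by ring
    linarith
  -- k ≤ 2 D² r / ε²
  have hk2 : (ζ : ℝ) * b ≤ 2 * D ^ 2 * r / ε ^ 2 := by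
    have h1 : (ζ : ℝ) * b ≤ D ^ 2 * r / ε ^ 2 + ζ := by
      calc (ζ : ℝ) * b ≤ ζ * (D ^ 2 * r / (ε ^ 2 * ζ) + 1) := by gcongr
        _ = D ^ 2 * r / ε ^ 2 + ζ := by field_simp
    have h2 : (ζ : ℝ) ≤ D ^ 2 * r / ε ^ 2 := by
      refine hζ5.trans ?_
      rw [div_le_div_iff₀ hε (by positivity)]
      have h3 : 5 * p * D ≤ D ^ 2 * r := by
        have hpr' : (p : ℝ) ≤ r := by linarith
        calc 5 * p * D ≤ 5 * r * D := by gcongr
          _ ≤ D * r * D := by gcongr; linarith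
          _ = D ^ 2 * r := by ring
      calc 5 * p * D * ε ^ 2 ≤ (D ^ 2 * r) * ε ^ 2 := by gcongr
        _ ≤ (D ^ 2 * r) * ε := by
          apply mul_le_mul_of_nonneg_left _ (by positivity)
          nlinarith
    have h4 : 2 * D ^ 2 * r / ε ^ 2 = D ^ 2 * r / ε ^ 2 + D ^ 2 * r / ε ^ 2 := by ring
    linarith
  refine ⟨ζ, b, hζ1, hb1, ?_, ?_, ?_⟩
  · -- sparsity
    refine hζ5.trans ?_
    apply div_le_div_of_nonneg_right _ hε.le
    have h1 := pa_log r hr
    rw [← hp] at h1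
    have h2 : 0 ≤ Real.log r := Real.log_nonneg (by linarith)
    nlinarith [mul_nonneg (sq_nonneg D) h2, mul_nonneg hDpos.le h2]
  · push_cast
    rw [mul_comm]
    refine hk2.trans ?_
    apply div_le_div_of_nonneg_right _ (by positivity)
    nlinarith [mul_nonneg hDpos.le (show (0:ℝ) ≤ r by linarith)]
  · intro U hU
    have hdev := fi_dev (n := n) (r := r) (ζ := ζ) (b := b) (p := p) K D ε hK (hKp p) hDpos hε
      (by omega) (by omega) (by omega) U hU ?_ ?_ hpr ?_ h16b hk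
    · refine hdev.trans ?_
      rw [div_le_iff₀ hδ] at hDK
      rw [div_le_iff₀ hDpos]
      nlinarith
    · -- 4 ^ p ≤ b
      have h1 : D * r / (5 * p) ≤ b := by
        refine le_trans ?_ hblow
        rw [div_le_div_iff₀ (by positivity) (by positivity)]
        have h2 : ε ^ 2 * ζ ≤ 5 * p * D := by
          have h3 : ε * ζ ≤ 5 * p * D := by
            rw [le_div_iff₀ hε] at hζ5
            linarith
          calc ε ^ 2 * ζ = ε * (ε * ζ) := by ring
            _ ≤ 1 * (ε * ζ) := by gcongr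
            _ ≤ 5 * p * D := by linarith
        calc D * r * (ε ^ 2 * ζ) ≤ D * r * (5 * p * D) := by gcongr
          _ = D ^ 2 * r * (5 * p) := by ring
      have h2 : (4 : ℝ) ^ p ≤ D * r / (5 * p) := by
        rw [le_div_iff₀ (by positivity)]
        have h3 : (p : ℝ) ≤ 4 ^ (p - 1) := by
          have : ∀ q : ℕ, q + 1 ≤ 4 ^ q := by
            intro q
            induction q with
            | zero => norm_num
            | succ q ih => rw [pow_succ]; omega
          have := this (p - 1)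
          have h5 : p - 1 + 1 = p := by omega
          rw [h5] at this
          exact_mod_cast this
        have h4 : (4 : ℝ) ^ p = 4 * 4 ^ (p - 1) := by
          rw [← pow_succ', show p - 1 + 1 = p by omega]
        have h5 : ((4 : ℝ) ^ (p - 1)) * 4 ^ (p - 1) = 16 ^ (p - 1) := by
          rw [← mul_pow]; norm_num
        have h6 : (16 : ℝ) ^ (p - 1) ≤ r := by exact_mod_cast h16a
        calc (4 : ℝ) ^ p * (5 * p) = 20 * (4 ^ (p - 1) * p) := by rw [h4]; ring
          _ ≤ 20 * (4 ^ (p - 1) * 4 ^ (p - 1)) := by gcongr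
          _ = 20 * 16 ^ (p - 1) := by rw [h5]
          _ ≤ D * r := by gcongr
      exact_mod_cast h2.trans h1
    · -- r ≤ k
      refine le_trans ?_ hk
      rw [le_div_iff₀ (by positivity)]
      have h1 : ε ^ 2 ≤ 1 := by nlinarith
      have h2 : (1 : ℝ) ≤ D ^ 2 := by nlinarith
      calc (r : ℝ) * ε ^ 2 ≤ r * 1 := by gcongr
        _ = 1 * r := by ring
        _ ≤ D ^ 2 * r := by gcongr
    · -- (2p)² k ≤ ζ² r
      calc (2 * p : ℝ) ^ 2 * (ζ * b) ≤ (2 * p : ℝ) ^ 2 * (2 * D ^ 2 * r / ε ^ 2) := by gcongr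
        _ ≤ (4 * p * D / ε) ^ 2 * r := by
          rw [div_pow, mul_div_assoc', div_mul_eq_mul_div, div_le_div_iff_of_pos_right (by positivity)]
          nlinarith [mul_nonneg (mul_nonneg (sq_nonneg (p:ℝ)) (sq_nonneg D))
            (show (0:ℝ) ≤ r by linarith)]
        _ ≤ (ζ : ℝ) ^ 2 * r := by gcongr

end Pool.Agent.NN
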